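import Pool.Agent.H787.G.R_seed8.R758.RN.TR0
import Pool.Agent.H787.G.R_seed8.R928.RN.BASB
import Pool.Agent.H787.G.R_seed8.R92.RN.PARA
import Pool.Agent.H787.G.R_seed8.R326.RN.PARB
import Pool.Agent.H787.G.R_seed8.R877.RN.QR
import Pool.Agent.H787.G.R_seed8.R877.RN.BASA

/-! Ricci operator of a left invariant metric at the level of structure constants, and
its first properties. -/

set_option autoImplicit false

namespace Pool.Agent.H787.SP
open Matrix R877.RN R877.RN.BASA R877.RN.TR0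

variable {n : ℕ}

/-- the vector `H` with `<H,x> = tr ad x` -/
noncomputable def Hv (μ : Br n) : Fin n → ℝ := fun a => ∑ i, μ a i i

/-- the Killing form -/
noncomputable def Kf (μ : Br n) : Mat n := fun a b => ∑ p, ∑ q, μ a q p * μ b p q

/-- the Ricci operator -/
noncomputable def Rc (μ : Br n) : Mat n := Mm μ - (1/2 : ℝ) • Kf μ - sy (adm μ (Hv μ))

lemma adm_mulVec (μ : Br n) (x y : Fin n → ℝ) : adm μ x *ᵥ y = Fl μ x y := by
  funext k
  rw [Fl_apply]
  show ∑ i, (∑ p, x p * μ p i k) * y i = _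
  simp only [Finset.sum_mul]
  rw [Finset.sum_comm]
  exact Finset.sum_congr rfl fun i _ => Finset.sum_congr rfl fun j _ => by ring

lemma adm_add (μ : Br n) (x y : Fin n → ℝ) : adm μ (x + y) = adm μ x + adm μ y := by
  ext k i
  simp only [adm, Matrix.add_apply, Pi.add_apply, add_mul, Finset.sum_add_distrib]

lemma adm_smul (μ : Br n) (c : ℝ) (x : Fin n → ℝ) : adm μ (c • x) = c • adm μ x := by
  ext k i
  simp only [adm, Matrix.smul_apply, Pi.smul_apply, smul_eq_mul, Finset.mul_sum, mul_assoc]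

/-- `adm` as a linear map -/
noncomputable def admL (μ : Br n) : (Fin n → ℝ) →ₗ[ℝ] Mat n where
  toFun := adm μ
  map_add' := adm_add μ
  map_smul' := adm_smul μ

@[simp] lemma admL_apply (μ : Br n) (x : Fin n → ℝ) : admL μ x = adm μ x := rfl

lemma adm_e (μ : Br n) (i k j : Fin n) : adm μ (e i) k j = μ i j k := by
  show ∑ p, (e i : Fin n → ℝ) p * μ p j k = _
  rw [Finset.sum_eq_single i]
  · simp
  · intro b _ hb; simp [hb]
  · intro h; exact absurd (Finset.mem_univ _) h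

lemma tr_adm (μ : Br n) (x : Fin n → ℝ) : (adm μ x).trace = x ⬝ᵥ Hv μ := by
  simp only [Matrix.trace, Matrix.diag_apply, adm, dotProduct, Hv, Finset.mul_sum]
  rw [Finset.sum_comm]

lemma mat_ext {A B : Mat n} (h : ∀ x, A *ᵥ x = B *ᵥ x) : A = B := by
  ext i j
  have := congrFun (h (e j)) i
  rwa [mulVec_e, mulVec_e] at this

lemma adm_act {c : Mat n} (μ : Br n) (x : Fin n → ℝ) :
    adm (act c μ) x = c * adm μ (c⁻¹ *ᵥ x) * c⁻¹ := by
  refine mat_ext fun y => ?_
  rw [adm_mulVec, Fl_act, ← Matrix.mulVec_mulVec, ← Matrix.mulVec_mulVec, adm_mulVec]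

lemma Kf_eq (μ : Br n) (a b : Fin n) : Kf μ a b = (adm μ (e a) * adm μ (e b)).trace := by
  simp only [Matrix.trace, Matrix.diag_apply, Matrix.mul_apply, adm_e]
  rfl

lemma sum_e (x : Fin n → ℝ) : x = ∑ a, x a • (e a : Fin n → ℝ) := by
  funext i
  simp [Finset.sum_apply, Pi.single_apply]

lemma adm_sum (μ : Br n) (x : Fin n → ℝ) : adm μ x = ∑ a, x a • adm μ (e a) := by
  conv_lhs => rw [sum_e x]
  rw [← admL_apply, map_sum]
  simp only [map_smul, admL_apply]

lemma Kf_bil (μ : Br n) (x y : Fin n → ℝ) :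
    x ⬝ᵥ (Kf μ *ᵥ y) = (adm μ x * adm μ y).trace := by
  rw [adm_sum μ x, adm_sum μ y]
  simp only [Finset.sum_mul, Finset.mul_sum, Matrix.trace_sum, Matrix.smul_mul, Matrix.mul_smul,
    Matrix.trace_smul, smul_eq_mul, dotProduct, Matrix.mulVec, Kf_eq]
  rw [Finset.sum_comm]
  exact Finset.sum_congr rfl fun i _ => Finset.sum_congr rfl fun j _ => by ring

lemma Kf_symm (μ : Br n) : (Kf μ)ᵀ = Kf μ := by
  ext a b
  rw [Matrix.transpose_apply, Kf_eq, Kf_eq, Matrix.trace_mul_comm]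

lemma Mm_symm (μ : Br n) : (Mm μ)ᵀ = Mm μ := by
  ext a b
  simp only [Matrix.transpose_apply, Mm]
  congr 1
  · congr 1
    exact Finset.sum_congr rfl fun i _ => Finset.sum_congr rfl fun j _ => by ring
  · congr 1
    exact Finset.sum_congr rfl fun i _ => Finset.sum_congr rfl fun j _ => by ring

lemma sy_symm (A : Mat n) : (sy A)ᵀ = sy A := by
  rw [sy, Matrix.transpose_smul, Matrix.transpose_add, Matrix.transpose_transpose, add_comm]

lemma Rc_symm (μ : Br n) : (Rc μ)ᵀ = Rc μ := by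
  rw [Rc, Matrix.transpose_sub, Matrix.transpose_sub, Matrix.transpose_smul, Kf_symm, Mm_symm,
    sy_symm]

lemma tr_sy (A : Mat n) : (sy A).trace = A.trace := by
  rw [sy, Matrix.trace_smul, Matrix.trace_add, Matrix.trace_transpose, smul_eq_mul]
  ring

/-- pairing with a symmetric matrix only sees the symmetric part -/
lemma tr_sy_mul {S : Mat n} (hS : Sᵀ = S) (A : Mat n) : (sy A * S).trace = (A * S).trace := by
  have h : (Aᵀ * S).trace = (A * S).trace := by
    rw [← Matrix.trace_transpose, Matrix.transpose_mul, Matrix.transpose_transpose, hS,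
      Matrix.trace_mul_comm]
  rw [sy, Matrix.smul_mul, Matrix.trace_smul, Matrix.add_mul, Matrix.trace_add, h, smul_eq_mul]
  ring

lemma tr_mul_sy {S : Mat n} (hS : Sᵀ = S) (A : Mat n) : (S * sy A).trace = (S * A).trace := by
  rw [Matrix.trace_mul_comm, tr_sy_mul hS, Matrix.trace_mul_comm]

lemma der_sub {A B : Mat n} {μ : Br n} (hA : IsDer A μ) (hB : IsDer B μ) : IsDer (A - B) μ := by
  rw [der_iff] at *
  intro x y
  rw [Matrix.sub_mulVec, hA, hB, Matrix.sub_mulVec, Matrix.sub_mulVec, map_sub, map_sub,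
    LinearMap.sub_apply]
  abel

lemma der_add {A B : Mat n} {μ : Br n} (hA : IsDer A μ) (hB : IsDer B μ) : IsDer (A + B) μ := by
  rw [der_iff] at *
  intro x y
  rw [Matrix.add_mulVec, hA, hB, Matrix.add_mulVec, Matrix.add_mulVec, map_add, map_add,
    LinearMap.add_apply]
  abel

lemma asym_Fl {μ : Br n} (h : Asym μ) (x y : Fin n → ℝ) : Fl μ x y = - Fl μ y x := by
  funext k
  rw [Pi.neg_apply, Fl_apply, Fl_apply, Finset.sum_comm, ← Finset.sum_neg_distrib]
  refine Finset.sum_congr rfl fun i _ => ?_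
  rw [← Finset.sum_neg_distrib]
  refine Finset.sum_congr rfl fun j _ => ?_
  rw [h j i k]
  ring

lemma adm_der {μ : Br n} (ha : Asym μ) (hj : Jac μ) (x : Fin n → ℝ) : IsDer (adm μ x) μ := by
  rw [der_iff]
  intro y z
  simp only [adm_mulVec]
  have h := (jac_iff.1 hj) x y z
  unfold T at h
  rw [asym_Fl ha (Fl μ y z) x, asym_Fl ha z x, map_neg, LinearMap.neg_apply,
    asym_Fl ha (Fl μ x z) y, neg_neg] at h
  have h2 : Fl μ x (Fl μ y z) = Fl μ (Fl μ x y) z + Fl μ y (Fl μ x z) := by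
    have h3 : Fl μ (Fl μ x y) z + -(Fl μ x) (Fl μ y z) + Fl μ y (Fl μ x z) = 0 := h
    have h4 : Fl μ (Fl μ x y) z + Fl μ y (Fl μ x z) = Fl μ x (Fl μ y z) + (Fl μ (Fl μ x y) z + -(Fl μ x) (Fl μ y z) + Fl μ y (Fl μ x z)) := by abel
    rw [h4, h3, add_zero]
  exact h2

lemma der_tr_adm {μ : Br n} {D : Mat n} (hD : IsDer D μ) (x : Fin n → ℝ) :
    (adm μ (D *ᵥ x)).trace = 0 := by
  have h := congrArg Matrix.trace (der_adm hD x)
  rw [Matrix.trace_add, Matrix.trace_mul_comm] at h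
  linarith

lemma der_Hv {μ : Br n} {D : Mat n} (hD : IsDer D μ) : Dᵀ *ᵥ Hv μ = 0 := by
  have h : ∀ x, x ⬝ᵥ (Dᵀ *ᵥ Hv μ) = 0 := by
    intro x
    rw [← der_tr_adm hD x, tr_adm, Matrix.dotProduct_mulVec, Matrix.vecMul_transpose]
  funext i
  have := h (e i)
  simpa using this

lemma der_Kf {μ : Br n} {D : Mat n} (hD : IsDer D μ) : (Kf μ * D).trace = 0 := by
  have h : ∀ a, (Kf μ * D) a a = 0 := by
    intro a
    have h1 : (Kf μ * D) a a = e a ⬝ᵥ (Kf μ *ᵥ (D *ᵥ e a)) := by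
      rw [Matrix.mulVec_mulVec, mulVec_e]
      simp
    rw [h1, Kf_bil]
    have h2 : adm μ (D *ᵥ e a) = D * adm μ (e a) - adm μ (e a) * D := by
      rw [der_adm hD (e a)]; abel
    rw [h2, Matrix.mul_sub, Matrix.trace_sub, Matrix.trace_mul_comm, Matrix.mul_assoc,
      Matrix.trace_mul_comm D, Matrix.mul_assoc]
    rw [sub_self]
  rw [Matrix.trace]
  exact Finset.sum_eq_zero fun a _ => h a

/-- the fundamental formula `tr (M A) = 1/4 <π(A) μ, μ>` -/
lemma tr_Mm {μ : Br n} (ha : Asym μ) (A : Mat n) :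
    (Mm μ * A).trace = (1/4) * ∑ i, ∑ j, ∑ k,
      (∑ r, A k r * μ i j r - ∑ p, A p i * μ p j k - ∑ q, A q j * μ i q k) * μ i j k := by
  have h1 : (Mm μ * A).trace = -(1/2) * ∑ i, ∑ j, ∑ k, ∑ p, A p i * μ p j k * μ i j k
      + (1/4) * ∑ i, ∑ j, ∑ k, ∑ r, A k r * μ i j r * μ i j k := by
    simp only [Matrix.trace, Matrix.diag_apply, Matrix.mul_apply, Mm, add_mul,
      Finset.sum_add_distrib, Finset.mul_sum, Finset.sum_mul]
    congr 1
    · -- Σ_i Σ_j' Σ_p Σ_k
      refine Finset.sum_congr rfl fun i _ => ?_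
      rw [Finset.sum_comm]
      refine Finset.sum_congr rfl fun p _ => ?_
      rw [Finset.sum_comm]
      refine Finset.sum_congr rfl fun k _ => Finset.sum_congr rfl fun j _ => ?_
      ring
    · -- Σ_k Σ_r Σ_p Σ_q
      calc ∑ x, ∑ x_1, ∑ i, ∑ i_1, 1 / 4 * (μ i i_1 x * μ i i_1 x_1) * A x_1 x
          = ∑ x, ∑ i, ∑ i_1, ∑ x_1, 1 / 4 * (μ i i_1 x * μ i i_1 x_1) * A x_1 x := by
            refine Finset.sum_congr rfl fun x _ => ?_
            rw [Finset.sum_comm]
            refine Finset.sum_congr rfl fun i _ => ?_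
            rw [Finset.sum_comm]
        _ = ∑ i, ∑ i_1, ∑ x, ∑ x_1, 1 / 4 * (μ i i_1 x * μ i i_1 x_1) * A x_1 x := by
            rw [Finset.sum_comm]
            refine Finset.sum_congr rfl fun i _ => ?_
            rw [Finset.sum_comm]
        _ = ∑ i, ∑ i_1, ∑ x_1, ∑ x, 1 / 4 * (μ i i_1 x * μ i i_1 x_1) * A x_1 x := by
            refine Finset.sum_congr rfl fun i _ => Finset.sum_congr rfl fun j _ => ?_
            rw [Finset.sum_comm]
        _ = _ := by
            refine Finset.sum_congr rfl fun i _ => Finset.sum_congr rfl fun j _ =>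
              Finset.sum_congr rfl fun k _ => Finset.sum_congr rfl fun r _ => ?_
            ring
  have h2 : ∑ i, ∑ j, ∑ k, ∑ q, A q j * μ i q k * μ i j k
      = ∑ i, ∑ j, ∑ k, ∑ p, A p i * μ p j k * μ i j k := by
    rw [Finset.sum_comm]
    refine Finset.sum_congr rfl fun i _ => Finset.sum_congr rfl fun j _ =>
      Finset.sum_congr rfl fun k _ => Finset.sum_congr rfl fun p _ => ?_
    rw [ha j p k, ha j i k]
    ring
  have h3 : ∑ i, ∑ j, ∑ k,
      (∑ r, A k r * μ i j r - ∑ p, A p i * μ p j k - ∑ q, A q j * μ i q k) * μ i j k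
      = ∑ i, ∑ j, ∑ k, ∑ r, A k r * μ i j r * μ i j k
        - ∑ i, ∑ j, ∑ k, ∑ p, A p i * μ p j k * μ i j k
        - ∑ i, ∑ j, ∑ k, ∑ q, A q j * μ i q k * μ i j k := by
    simp only [sub_mul, Finset.sum_mul, Finset.sum_sub_distrib]
  rw [h1, h3, h2]
  ring

lemma der_Mm {μ : Br n} (ha : Asym μ) {D : Mat n} (hD : IsDer D μ) : (Mm μ * D).trace = 0 := by
  rw [tr_Mm ha]
  have : ∀ i j k, ∑ r, D k r * μ i j r - ∑ p, D p i * μ p j k - ∑ q, D q j * μ i q k = 0 := by
    intro i j k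
    rw [hD i j k]
    ring
  simp only [this, zero_mul, Finset.sum_const_zero, mul_zero]

/-- pairing of the Ricci operator with a derivation -/
lemma tr_Rc_der {μ : Br n} (ha : Asym μ) {D : Mat n} (hD : IsDer D μ) :
    (Rc μ * D).trace = -(sy (adm μ (Hv μ)) * D).trace := by
  rw [Rc, Matrix.sub_mul, Matrix.sub_mul, Matrix.trace_sub, Matrix.trace_sub, der_Mm ha hD,
    Matrix.smul_mul, Matrix.trace_smul, der_Kf hD]
  simp

end Pool.Agent.H787.SP
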