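import Pool.Agent.H787.SP.Rot

/-! The exponential of a derivation is an automorphism. -/

set_option autoImplicit false

namespace Pool.Agent.H787.SP
open Matrix R877.RN R877.RN.BASA R877.RN.TR0

variable {n : ℕ}

/-- `E ↦ adm μ (E x)` -/
noncomputable def admE (μ : Br n) (x : Fin n → ℝ) : Mat n →ₗ[ℝ] Mat n where
  toFun E := adm μ (E *ᵥ x)
  map_add' A B := by rw [Matrix.add_mulVec, adm_add]
  map_smul' c A := by rw [Matrix.smul_mulVec, adm_smul]; rfl

lemma br_ext {μ ν : Br n} (h : ∀ x, adm μ x = adm ν x) : μ = ν := by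
  funext i j k
  rw [← adm_e μ i k j, ← adm_e ν i k j, h]

section
open scoped Matrix.Norms.Operator

theorem exp_adm {μ : Br n} {D : Mat n} (hD : IsDer D μ) (x : Fin n → ℝ) (s : ℝ) :
    NormedSpace.exp (s • (-D)) * adm μ (NormedSpace.exp (s • D) *ᵥ x) * NormedSpace.exp (s • D)
      = adm μ x := by
  set G : Mat n →L[ℝ] Mat n := LinearMap.toContinuousLinearMap (admE μ x) with hG
  have hGap : ∀ A, G A = adm μ (A *ᵥ x) := fun A => rfl
  have h1 : ∀ s : ℝ, HasDerivAt (fun u : ℝ => NormedSpace.exp (u • D))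
      (D * NormedSpace.exp (s • D)) s := fun s => hasDerivAt_exp_smul_const' D s
  have h2 : ∀ s : ℝ, HasDerivAt (fun u : ℝ => NormedSpace.exp (u • (-D)))
      (NormedSpace.exp (s • (-D)) * (-D)) s := fun s => hasDerivAt_exp_smul_const (-D) s
  have h3 : ∀ s : ℝ, HasDerivAt (fun u : ℝ => G (NormedSpace.exp (u • D)))
      (G (D * NormedSpace.exp (s • D))) s := fun s => by
    exact G.hasFDerivAt.comp_hasDerivAt s (h1 s)
  have h4 : ∀ s : ℝ, HasDerivAt (fun u : ℝ => NormedSpace.exp (u • (-D)) *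
      G (NormedSpace.exp (u • D)) * NormedSpace.exp (u • D)) 0 s := by
    intro s
    have h5 := ((h2 s).mul (h3 s)).mul (h1 s)
    have h6 : (NormedSpace.exp (s • (-D)) * (-D) * G (NormedSpace.exp (s • D)) +
        NormedSpace.exp (s • (-D)) * G (D * NormedSpace.exp (s • D))) * NormedSpace.exp (s • D) +
        NormedSpace.exp (s • (-D)) * G (NormedSpace.exp (s • D)) * (D * NormedSpace.exp (s • D))
        = 0 := by
      rw [hGap, hGap, ← Matrix.mulVec_mulVec]
      set y := NormedSpace.exp (s • D) *ᵥ x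
      have h7 := der_adm hD y
      have h8 : adm μ (D *ᵥ y) = D * adm μ y - adm μ y * D := by rw [h7]; abel
      rw [h8]
      noncomm_ring
    rw [← h6]
    exact h5
  have h5 : ∀ s t : ℝ, NormedSpace.exp (s • (-D)) * G (NormedSpace.exp (s • D)) *
      NormedSpace.exp (s • D) = NormedSpace.exp (t • (-D)) * G (NormedSpace.exp (t • D)) *
      NormedSpace.exp (t • D) :=
    is_const_of_deriv_eq_zero (fun s => (h4 s).differentiableAt) (fun s => (h4 s).deriv)
  have h6 := h5 s 0
  rw [hGap, hGap] at h6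
  rw [h6, zero_smul, zero_smul, NormedSpace.exp_zero, Matrix.one_mul, Matrix.mul_one,
    Matrix.one_mulVec]

theorem exp_aut {μ : Br n} {D : Mat n} (hD : IsDer D μ) (s : ℝ) :
    act (NormedSpace.exp (s • D)) μ = μ := by
  have hinv : (NormedSpace.exp (s • D))⁻¹ = NormedSpace.exp (s • (-D)) := by
    rw [smul_neg, Matrix.exp_neg]
  have hu : IsUnit (NormedSpace.exp (s • D)).det := by
    rw [← Matrix.isUnit_iff_isUnit_det]
    exact Matrix.isUnit_exp _
  refine br_ext fun x => ?_
  rw [adm_act]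
  have h1 := exp_adm hD ((NormedSpace.exp (s • D))⁻¹ *ᵥ x) s
  rw [Matrix.mulVec_mulVec, Matrix.mul_nonsing_inv _ hu, Matrix.one_mulVec] at h1
  rw [← h1, hinv, ← hinv]
  have h2 : NormedSpace.exp (s • D) * (NormedSpace.exp (s • D))⁻¹ = 1 :=
    Matrix.mul_nonsing_inv _ hu
  calc NormedSpace.exp (s • D) * ((NormedSpace.exp (s • D))⁻¹ * adm μ x *
        NormedSpace.exp (s • D)) * (NormedSpace.exp (s • D))⁻¹
      = (NormedSpace.exp (s • D) * (NormedSpace.exp (s • D))⁻¹) * adm μ x *
        (NormedSpace.exp (s • D) * (NormedSpace.exp (s • D))⁻¹) := by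
        simp only [Matrix.mul_assoc]
    _ = adm μ x := by rw [h2, Matrix.one_mul, Matrix.mul_one]

/-- if the frame weights are invariant under `exp (s D)` for all `s` then under `D` -/
theorem par_of_exp {l D : Mat n} {a : Fin n → ℝ}
    (h : ∀ s : ℝ, Par a (l * NormedSpace.exp (s • D) * lᵀ)) : CM l a D := by
  intro i j hne
  by_contra hlt
  apply hne
  have h0 : ∀ s : ℝ, (l * NormedSpace.exp (s • D) * lᵀ) i j = 0 := by
    intro s
    by_contra h1
    exact hlt (h s i j h1)
  have h1 : HasDerivAt (fun u : ℝ => NormedSpace.exp (u • D)) (D * NormedSpace.exp ((0:ℝ) • D)) 0 :=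
    hasDerivAt_exp_smul_const' D 0
  rw [zero_smul, NormedSpace.exp_zero, Matrix.mul_one] at h1
  set L : Mat n →ₗ[ℝ] ℝ :=
    { toFun := fun A => (l * A * lᵀ) i j
      map_add' := fun A B => by rw [Matrix.mul_add, Matrix.add_mul, Matrix.add_apply]
      map_smul' := fun c A => by
        rw [Matrix.mul_smul, Matrix.smul_mul, Matrix.smul_apply]; rfl } with hL
  have h2 : HasDerivAt (fun u : ℝ => (LinearMap.toContinuousLinearMap L)
      (NormedSpace.exp (u • D))) ((LinearMap.toContinuousLinearMap L) D) 0 :=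
    (LinearMap.toContinuousLinearMap L).hasFDerivAt.comp_hasDerivAt 0 h1
  have h3 : (fun u : ℝ => (LinearMap.toContinuousLinearMap L) (NormedSpace.exp (u • D)))
      = fun _ => (0:ℝ) := by
    funext u
    exact h0 u
  rw [h3] at h2
  exact h2.unique (hasDerivAt_const (0:ℝ) (0:ℝ))

end

end Pool.Agent.H787.SP
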