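import Pool.Agent.H787.SP.Rot

/-! Common adapted bases of two filtrations. -/

set_option autoImplicit false

namespace Pool.Agent.H787.SP
open Matrix R877.RN R877.RN.BASA R877.RN.TR0

lemma hyper {V : Type} [AddCommGroup V] [Module ℝ V] [FiniteDimensional ℝ V] [Nontrivial V]
    (F G : Set (Submodule ℝ V)) (hF : IsChain (· ≤ ·) F) (hG : IsChain (· ≤ ·) G) :
    ∃ (v : V) (f : V →ₗ[ℝ] ℝ), f v = 1 ∧
      ∀ W, (W ∈ F ∨ W ∈ G) → v ∈ W ∨ W ≤ LinearMap.ker f := by
  -- step 1
  have h1 : ∃ v : V, v ≠ 0 ∧ ∀ W ∈ F, W = ⊥ ∨ v ∈ W := by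
    by_cases hne : (F \ {⊥}).Nonempty
    · obtain ⟨W0, hW0, hmin⟩ := IsArtinian.set_has_minimal (F \ {⊥}) hne
      have hW0' : W0 ≠ ⊥ := fun h => hW0.2 (by simp [h])
      obtain ⟨v, hv, hv0⟩ := Submodule.exists_mem_ne_zero_of_ne_bot hW0'
      refine ⟨v, hv0, fun W hW => ?_⟩
      by_cases hb : W = ⊥
      · exact Or.inl hb
      · right
        have hW' : W ∈ F \ {⊥} := ⟨hW, by simpa using hb⟩
        rcases hF.total hW hW0.1 with h | h
        · rcases h.lt_or_eq with h' | h'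
          · exact absurd h' (hmin W hW')
          · rw [h']; exact hv
        · exact h hv
    · obtain ⟨v, hv⟩ := exists_ne (0 : V)
      refine ⟨v, hv, fun W hW => ?_⟩
      left
      by_contra hb
      exact hne ⟨W, hW, by simpa using hb⟩
  obtain ⟨v, hv0, hvF⟩ := h1
  have h2 : ∃ G0 : Submodule ℝ V, v ∉ G0 ∧ ∀ W ∈ G, v ∈ W ∨ W ≤ G0 := by
    by_cases hne : {W | W ∈ G ∧ v ∉ W}.Nonempty
    · obtain ⟨G0, hG0, hmax⟩ := set_has_maximal_iff_noetherian.2
        (inferInstance : IsNoetherian ℝ V) {W | W ∈ G ∧ v ∉ W} hne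
      refine ⟨G0, hG0.2, fun W hW => ?_⟩
      by_cases hvW : v ∈ W
      · exact Or.inl hvW
      · right
        rcases hG.total hW hG0.1 with h | h
        · exact h
        · rcases h.lt_or_eq with h' | h'
          · exact absurd h' (hmax W ⟨hW, hvW⟩)
          · rw [h']
    · refine ⟨⊥, by simpa using hv0, fun W hW => ?_⟩
      left
      by_contra hvW
      exact hne ⟨W, hW, hvW⟩
  obtain ⟨G0, hvG0, hG0⟩ := h2
  obtain ⟨f, hf1, hf2⟩ := Submodule.exists_dual_map_eq_bot_of_notMem hvG0 inferInstance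
  refine ⟨v, (f v)⁻¹ • f, ?_, ?_⟩
  · rw [LinearMap.smul_apply, smul_eq_mul, inv_mul_cancel₀ hf1]
  · have hker : ∀ x ∈ G0, f x = 0 := by
      intro x hx
      have : f x ∈ G0.map f := Submodule.mem_map_of_mem hx
      rw [hf2] at this
      simpa using this
    intro W hW
    rcases hW with hW | hW
    · rcases hvF W hW with h | h
      · right; rw [h]; exact bot_le
      · exact Or.inl h
    · rcases hG0 W hW with h | h
      · exact Or.inl h
      · right
        intro x hx
        rw [LinearMap.mem_ker, LinearMap.smul_apply, hker x (h hx), smul_zero]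

theorem adapted : ∀ (n : ℕ) (V : Type) [AddCommGroup V] [Module ℝ V] [FiniteDimensional ℝ V],
    Module.finrank ℝ V = n → ∀ (F G : Set (Submodule ℝ V)), IsChain (· ≤ ·) F →
    IsChain (· ≤ ·) G → ∃ b : Module.Basis (Fin n) ℝ V, ∀ W, (W ∈ F ∨ W ∈ G) →
      ∀ x ∈ W, ∀ i, b.repr x i ≠ 0 → b i ∈ W := by
  intro n
  induction n with
  | zero =>
    intro V _ _ _ hV F G _ _
    exact ⟨Module.finBasisOfFinrankEq ℝ V hV, fun W _ x _ i => i.elim0⟩
  | succ n ih =>
    intro V _ _ _ hV F G hF hG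
    have : Nontrivial V := Module.nontrivial_of_finrank_pos (R := ℝ) (by omega)
    obtain ⟨v, f, hfv, hWf⟩ := hyper F G hF hG
    set U : Submodule ℝ V := LinearMap.ker f with hU
    have hfr : Module.finrank ℝ U = n := by
      have h1 := LinearMap.finrank_range_add_finrank_ker f
      have h2 : LinearMap.range f = ⊤ := by
        rw [LinearMap.range_eq_top]
        intro r
        exact ⟨r • v, by rw [map_smul, hfv, smul_eq_mul, mul_one]⟩
      rw [h2, finrank_top, Module.finrank_self, hV] at h1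
      have h3 : Module.finrank ℝ U = Module.finrank ℝ (LinearMap.ker f) := rfl
      omega
    have hch : ∀ (S : Set (Submodule ℝ V)), IsChain (· ≤ ·) S →
        IsChain (· ≤ ·) ((fun W : Submodule ℝ V => W.comap U.subtype) '' S) := by
      intro S hS
      rintro _ ⟨W1, h1, rfl⟩ _ ⟨W2, h2, rfl⟩ _
      rcases hS.total h1 h2 with h | h
      · exact Or.inl (Submodule.comap_mono h)
      · exact Or.inr (Submodule.comap_mono h)
    obtain ⟨b', hb'⟩ := ih U hfr _ _ (hch F hF) (hch G hG)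
    have hli : ∀ (c : ℝ), ∀ x ∈ U, c • v + x = 0 → c = 0 := by
      intro c x hx h
      have h1 : f (c • v + x) = 0 := by rw [h, map_zero]
      rw [map_add, map_smul, hfv, smul_eq_mul, mul_one] at h1
      have h2 : f x = 0 := hx
      rw [h2, add_zero] at h1
      exact h1
    have hsp : ∀ z : V, ∃ c : ℝ, z + c • v ∈ U := by
      intro z
      refine ⟨-(f z), ?_⟩
      show f _ = 0
      rw [map_add, map_smul, hfv, smul_eq_mul, mul_one, add_neg_cancel]
    set b := Module.Basis.mkFinCons v b' hli hsp with hb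
    have hb0 : b 0 = v := by
      rw [hb, Module.Basis.coe_mkFinCons, Fin.cons_zero]
    have hbs : ∀ i : Fin n, b i.succ = (b' i : V) := by
      intro i
      rw [hb, Module.Basis.coe_mkFinCons, Fin.cons_succ]
      rfl
    refine ⟨b, ?_⟩
    have hrepr : ∀ (x : V) (y : U), x = f x • v + (y : V) →
        b.repr x 0 = f x ∧ ∀ i : Fin n, b.repr x i.succ = b'.repr y i := by
      intro x y hxy
      have h1 : (y : V) = ∑ i, b'.repr y i • b i.succ := by
        conv_lhs => rw [← b'.sum_repr y]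
        rw [Submodule.coe_sum]
        exact Finset.sum_congr rfl fun i _ => by rw [hbs]; rfl
      have h2 : b.repr x = f x • Finsupp.single 0 1
          + ∑ i, b'.repr y i • Finsupp.single i.succ 1 := by
        conv_lhs => rw [hxy, h1, ← hb0]
        rw [map_add, map_smul, map_sum, b.repr_self]
        congr 1
        exact Finset.sum_congr rfl fun i _ => by rw [map_smul, b.repr_self]
      rw [h2]
      constructor
      · rw [Finsupp.add_apply, Finsupp.smul_apply, Finsupp.single_eq_same, Finsupp.finsetSum_apply]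
        rw [Finset.sum_eq_zero]
        · simp
        · intro i _
          rw [Finsupp.smul_apply, Finsupp.single_apply, if_neg (Fin.succ_ne_zero i), smul_zero]
      · intro i
        rw [Finsupp.add_apply, Finsupp.smul_apply, Finsupp.single_apply,
          if_neg (Fin.succ_ne_zero i).symm, smul_zero, zero_add, Finsupp.finsetSum_apply,
          Finset.sum_eq_single i]
        · rw [Finsupp.smul_apply, Finsupp.single_eq_same, smul_eq_mul, mul_one]
        · intro j _ hj
          rw [Finsupp.smul_apply, Finsupp.single_apply, if_neg (fun h => hj (Fin.succ_injective n h)),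
            smul_zero]
        · intro h; exact absurd (Finset.mem_univ _) h
    intro W hW x hx i
    have hyU : x - f x • v ∈ U := by
      show f _ = 0
      rw [map_sub, map_smul, hfv, smul_eq_mul, mul_one, sub_self]
    obtain ⟨hr0, hrs⟩ := hrepr x ⟨x - f x • v, hyU⟩ (by simp)
    have hWmem : W.comap U.subtype ∈ (fun W : Submodule ℝ V => W.comap U.subtype) '' F ∨
        W.comap U.subtype ∈ (fun W : Submodule ℝ V => W.comap U.subtype) '' G := by
      rcases hW with h | h
      · exact Or.inl ⟨W, h, rfl⟩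
      · exact Or.inr ⟨W, h, rfl⟩
    have hyW : x - f x • v ∈ W := by
      rcases hWf W hW with h | h
      · exact W.sub_mem hx (W.smul_mem _ h)
      · have : f x = 0 := h hx
        rw [this, zero_smul, sub_zero]; exact hx
    refine Fin.cases ?_ ?_ i
    · intro hne
      rw [hr0] at hne
      rw [hb0]
      rcases hWf W hW with h | h
      · exact h
      · exact absurd (h hx) hne
    · intro i hne
      rw [hrs] at hne
      rw [hbs]
      have := hb' (W.comap U.subtype) hWmem ⟨x - f x • v, hyU⟩ (by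
        show x - f x • v ∈ W
        exact hyW) i hne
      exact this

variable {n : ℕ}

/-- the filtration of a weighted frame -/
def Vt (l : Mat n) (a : Fin n → ℝ) (t : ℝ) : Submodule ℝ (Fin n → ℝ) where
  carrier := {x | ∀ i, (l *ᵥ x) i ≠ 0 → t ≤ a i}
  zero_mem' := by
    intro i h
    rw [Matrix.mulVec_zero] at h
    exact absurd rfl h
  add_mem' := by
    intro x y hx hy i h
    rw [Matrix.mulVec_add, Pi.add_apply] at h
    by_cases h1 : (l *ᵥ x) i = 0
    · rw [h1, zero_add] at h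
      exact hy i h
    · exact hx i h1
  smul_mem' := by
    intro c x hx i h
    rw [Matrix.mulVec_smul, Pi.smul_apply, smul_eq_mul] at h
    exact hx i (right_ne_zero_of_mul h)

lemma Vt_anti (l : Mat n) (a : Fin n → ℝ) : Antitone (Vt l a) := by
  intro s t hst x hx i h
  exact hst.trans (hx i h)

lemma Vt_chain (l : Mat n) (a : Fin n → ℝ) : IsChain (· ≤ ·) (Set.range (Vt l a)) := by
  rintro _ ⟨s, rfl⟩ _ ⟨t, rfl⟩ _
  rcases le_total s t with h | h
  · exact Or.inr (Vt_anti l a h)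
  · exact Or.inl (Vt_anti l a h)

/-- weights `w` in the frame `c` define the same filtration as the weighted frame `(l,a)` -/
def Rel (l : Mat n) (a : Fin n → ℝ) (c : Mat n) (w : Fin n → ℝ) : Prop :=
  (∀ i j, (l * c⁻¹) i j ≠ 0 → w j ≤ a i) ∧ (∀ j i, (c * l⁻¹) j i ≠ 0 → a i ≤ w j)

lemma col_apply (A : Mat n) (j i : Fin n) : (A *ᵥ (e j : Fin n → ℝ)) i = A i j := by
  rw [mulVec_e]

theorem common {l l' : Mat n} (hl : IsUnit l.det) (hl' : IsUnit l'.det) (a a' : Fin n → ℝ) :
    ∃ (c : Mat n) (w w' : Fin n → ℝ), IsUnit c.det ∧ Rel l a c w ∧ Rel l' a' c w' := by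
  obtain ⟨b, hb⟩ := adapted n (Fin n → ℝ) (by simp) (Set.range (Vt l a)) (Set.range (Vt l' a'))
    (Vt_chain l a) (Vt_chain l' a')
  set st := Pi.basisFun ℝ (Fin n) with hst
  set c : Mat n := b.toMatrix st with hc
  set c' : Mat n := st.toMatrix b with hc'
  have hcc' : c * c' = 1 := b.toMatrix_mul_toMatrix_flip st
  have hcinv : c⁻¹ = c' := Matrix.inv_eq_right_inv hcc'
  have hcdet : IsUnit c.det := Matrix.isUnit_det_of_right_inverse hcc'
  have hcol : ∀ j, c⁻¹ *ᵥ (e j : Fin n → ℝ) = b j := by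
    intro j
    rw [hcinv, mulVec_e]
    funext i
    rw [hc', Module.Basis.toMatrix_apply, hst, Pi.basisFun_repr]
  have hrow : ∀ (x : Fin n → ℝ) (j : Fin n), (c *ᵥ x) j = b.repr x j := by
    intro x j
    have h1 := Module.Basis.toMatrix_mulVec_repr st b x
    have h2 := congrFun h1 j
    rw [← h2]
    have h3 : (st.repr x : Fin n → ℝ) = x := by
      funext i
      rw [hst, Pi.basisFun_repr]
    rw [h3]
  have key : ∀ (l : Mat n) (a : Fin n → ℝ), IsUnit l.det →
      (∀ W, W ∈ Set.range (Vt l a) → ∀ x ∈ W, ∀ i, b.repr x i ≠ 0 → b i ∈ W) →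
      ∃ w, Rel l a c w := by
    intro l a hl hb
    have hex : ∀ j, ∃ i, (l *ᵥ b j) i ≠ 0 ∧ ∀ i', (l *ᵥ b j) i' ≠ 0 → a i ≤ a i' := by
      intro j
      classical
      have hne : (Finset.univ.filter fun i => (l *ᵥ b j) i ≠ 0).Nonempty := by
        by_contra hne
        rw [Finset.not_nonempty_iff_eq_empty, Finset.filter_eq_empty_iff] at hne
        have h0 : l *ᵥ b j = 0 := by
          funext i
          have := hne (Finset.mem_univ i)
          push Not at this
          exact this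
        have h1 : b j = 0 := by
          have := inv_mulVec hl (b j)
          rw [h0, Matrix.mulVec_zero] at this
          exact this.symm
        exact b.ne_zero j h1
      obtain ⟨i, hi, hmin⟩ := Finset.exists_min_image _ a hne
      refine ⟨i, (Finset.mem_filter.1 hi).2, fun i' hi' => hmin i' ?_⟩
      exact Finset.mem_filter.2 ⟨Finset.mem_univ _, hi'⟩
    choose s hs1 hs2 using hex
    refine ⟨fun j => a (s j), ?_, ?_⟩
    · intro i j hne
      have hne' : ((l * c⁻¹) *ᵥ (e j : Fin n → ℝ)) i ≠ 0 := by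
        rw [col_apply]; exact hne
      rw [← Matrix.mulVec_mulVec, hcol] at hne'
      exact hs2 j i hne'
    · intro j i hne
      have hne' : ((c * l⁻¹) *ᵥ (e i : Fin n → ℝ)) j ≠ 0 := by
        rw [col_apply]; exact hne
      rw [← Matrix.mulVec_mulVec, hrow] at hne'
      have hx : l⁻¹ *ᵥ (e i : Fin n → ℝ) ∈ Vt l a (a i) := by
        intro i' h'
        rw [Matrix.mulVec_mulVec, Matrix.mul_nonsing_inv _ hl, Matrix.one_mulVec] at h'
        by_cases hii : i' = i
        · rw [hii]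
        · exact absurd (by simp [hii]) h'
      have h2 := hb _ ⟨a i, rfl⟩ _ hx j hne'
      exact h2 (s j) (hs1 j)
  obtain ⟨w, hw⟩ := key l a hl (fun W hW => hb W (Or.inl hW))
  obtain ⟨w', hw'⟩ := key l' a' hl' (fun W hW => hb W (Or.inr hW))
  exact ⟨c, w, w', hcdet, hw, hw'⟩

lemma perm_of_det {T : Mat n} (h : T.det ≠ 0) : ∃ σ : Equiv.Perm (Fin n), ∀ j, T (σ j) j ≠ 0 := by
  rw [Matrix.det_apply] at h
  obtain ⟨σ, -, hσ⟩ := Finset.exists_ne_zero_of_sum_ne_zero h
  refine ⟨σ, fun j => ?_⟩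
  have h2 : ∏ i, T (σ i) i ≠ 0 := by
    intro h0
    rw [h0, smul_zero] at hσ
    exact hσ rfl
  exact Finset.prod_ne_zero_iff.1 h2 j (Finset.mem_univ _)

/-- equivalent weights are permutations of each other -/
lemma Rel.perm {l c : Mat n} {a w : Fin n → ℝ} (hl : IsUnit l.det) (hc : IsUnit c.det)
    (h : Rel l a c w) : ∃ σ : Equiv.Perm (Fin n), ∀ j, w j = a (σ j) := by
  have h1 : (l * c⁻¹).det ≠ 0 := by
    rw [Matrix.det_mul, Matrix.det_nonsing_inv]
    exact (hl.mul hc.ringInverse).ne_zero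
  have h2 : (c * l⁻¹).det ≠ 0 := by
    rw [Matrix.det_mul, Matrix.det_nonsing_inv]
    exact (hc.mul hl.ringInverse).ne_zero
  obtain ⟨σ, hσ⟩ := perm_of_det h1
  obtain ⟨τ, hτ⟩ := perm_of_det h2
  have e1 : ∀ j, w j ≤ a (σ j) := fun j => h.1 _ _ (hσ j)
  have e2 : ∀ i, a i ≤ w (τ i) := fun i => h.2 _ _ (hτ i)
  have s1 : ∑ j, a (σ j) = ∑ j, a j := Equiv.sum_comp σ a
  have s2 : ∑ j, w (τ j) = ∑ j, w j := Equiv.sum_comp τ w
  have s3 : ∑ j, a j ≤ ∑ j, w (τ j) := Finset.sum_le_sum fun i _ => e2 i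
  have s4 : ∑ j, (a (σ j) - w j) = 0 := by
    refine le_antisymm ?_ (Finset.sum_nonneg fun j _ => sub_nonneg.2 (e1 j))
    rw [Finset.sum_sub_distrib]
    linarith
  refine ⟨σ, fun j => ?_⟩
  have := (Finset.sum_eq_zero_iff_of_nonneg fun j _ => sub_nonneg.2 (e1 j)).1 s4 j
    (Finset.mem_univ _)
  linarith

lemma Rel.CB {l c : Mat n} {a w : Fin n → ℝ} {μ : Br n} (hl : IsUnit l.det) (hc : IsUnit c.det)
    (h : Rel l a c w) (hcb : CB l a μ) : R877.RN.CB c w μ := by
  intro i j k hne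
  have h0 : c = (c * l⁻¹) * l := by
    rw [Matrix.mul_assoc, Matrix.nonsing_inv_mul _ hl, Matrix.mul_one]
  have hdet : IsUnit (c * l⁻¹).det := by
    rw [Matrix.det_mul, Matrix.det_nonsing_inv]
    exact hc.mul hl.ringInverse
  rw [h0, p_ACTMUL n _ _ μ hdet hl] at hne
  have hinv : (c * l⁻¹)⁻¹ = l * c⁻¹ := by
    rw [Matrix.mul_inv_rev, Matrix.nonsing_inv_nonsing_inv _ hl]
  unfold act at hne
  rw [hinv] at hne
  obtain ⟨p, -, hp⟩ := Finset.exists_ne_zero_of_sum_ne_zero hne
  obtain ⟨q, -, hq⟩ := Finset.exists_ne_zero_of_sum_ne_zero hp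
  obtain ⟨r, -, hr⟩ := Finset.exists_ne_zero_of_sum_ne_zero hq
  have h1 : (c * l⁻¹) k r ≠ 0 := fun h0 => hr (by rw [h0]; ring)
  have h2 : act l μ p q r ≠ 0 := fun h0 => hr (by unfold act at h0; rw [h0]; ring)
  have h3 : (l * c⁻¹) p i ≠ 0 := fun h0 => hr (by rw [h0]; ring)
  have h4 : (l * c⁻¹) q j ≠ 0 := fun h0 => hr (by rw [h0]; ring)
  have e1 := h.2 k r h1
  have e2 := hcb p q r h2
  have e3 := h.1 p i h3
  have e4 := h.1 q j h4
  linarith

/-- from any compatible weighted frame to an orthonormal one with the same weights -/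
lemma CB.ortho {c : Mat n} {w : Fin n → ℝ} {μ : Br n} (hc : IsUnit c.det) (h : CB c w μ) :
    ∃ k, IsO k ∧ R877.RN.CB k w μ ∧ Par w (k * c⁻¹) := by
  have hdetinv : IsUnit (c⁻¹).det := by
    rw [Matrix.det_nonsing_inv]
    exact hc.ringInverse
  obtain ⟨k, hk, hpar⟩ := p_QR n w c⁻¹ hdetinv
  refine ⟨k, hk, ?_, hpar⟩
  have hpdet : IsUnit (k * c⁻¹).det := by
    rw [Matrix.det_mul]
    exact (IsO.det hk).mul hdetinv
  have hkp : k = (k * c⁻¹) * c := by
    rw [Matrix.mul_assoc, Matrix.nonsing_inv_mul _ hc, Matrix.mul_one]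
  intro i j m hne
  rw [hkp, p_ACTMUL n _ c μ hpdet hc] at hne
  exact p_ACTP n w _ (act c μ) hpdet hpar h i j m hne

/-- the objective -/
noncomputable def Ph (g : ℝ) (a : Fin n → ℝ) : ℝ := 2 * g * ∑ i, a i - ∑ i, (a i)^2

lemma Ph_perm (g : ℝ) {a w : Fin n → ℝ} {σ : Equiv.Perm (Fin n)} (h : ∀ j, w j = a (σ j)) :
    Ph g w = Ph g a := by
  have h0 : w = fun j => a (σ j) := funext h
  unfold Ph
  rw [h0]
  have s1 : ∑ j, a (σ j) = ∑ j, a j := Equiv.sum_comp σ a
  have s2 : ∑ j, (a (σ j))^2 = ∑ j, (a j)^2 := Equiv.sum_comp σ (fun j => (a j)^2)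
  rw [s1, s2]

lemma Ph_mid (g : ℝ) (w w' : Fin n → ℝ) : Ph g (fun i => (w i + w' i) / 2)
    = (1/2) * (Ph g w + Ph g w') + (1/4) * ∑ i, (w i - w' i)^2 := by
  unfold Ph
  have h1 : ∑ i, (w i + w' i) / 2 = (1/2) * (∑ i, w i + ∑ i, w' i) := by
    rw [← Finset.sum_add_distrib, Finset.mul_sum]
    exact Finset.sum_congr rfl fun i _ => by ring
  have h2 : ∑ i, ((w i + w' i) / 2)^2 = (1/2) * (∑ i, (w i)^2 + ∑ i, (w' i)^2)
      - (1/4) * ∑ i, (w i - w' i)^2 := by
    rw [← Finset.sum_add_distrib, Finset.mul_sum, Finset.mul_sum, ← Finset.sum_sub_distrib]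
    exact Finset.sum_congr rfl fun i _ => by ring
  rw [h1, h2]
  ring

/-- uniqueness of the optimal filtration -/
theorem uniq {μ : Br n} {g M : ℝ} {l l' : Mat n} {a a' : Fin n → ℝ} (hl : IsO l) (hl' : IsO l')
    (h : CB l a μ) (h' : CB l' a' μ) (ha : Ph g a = M) (ha' : Ph g a' = M)
    (hmax : ∀ (k : Mat n) (u : Fin n → ℝ), IsO k → CB k u μ → Ph g u ≤ M) :
    ∀ i j, (l' * lᵀ) i j ≠ 0 → a j ≤ a' i := by
  obtain ⟨c, w, w', hc, hw, hw'⟩ := common (IsO.det hl) (IsO.det hl') a a'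
  have hcb : CB c (fun i => (w i + w' i) / 2) μ := by
    intro i j k hne
    have h1 := hw.CB (IsO.det hl) hc h i j k hne
    have h2 := hw'.CB (IsO.det hl') hc h' i j k hne
    show (w i + w' i)/2 + (w j + w' j)/2 ≤ (w k + w' k)/2
    linarith
  obtain ⟨k, hk, hkcb, -⟩ := CB.ortho hc hcb
  have hle := hmax k _ hk hkcb
  obtain ⟨σ, hσ⟩ := hw.perm (IsO.det hl) hc
  obtain ⟨τ, hτ⟩ := hw'.perm (IsO.det hl') hc
  rw [Ph_mid, Ph_perm g hσ, Ph_perm g hτ, ha, ha'] at hle
  have h0 : ∑ i, (w i - w' i)^2 = 0 :=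
    le_antisymm (by linarith) (Finset.sum_nonneg fun i _ => sq_nonneg _)
  have hww : ∀ i, w i = w' i := by
    intro i
    have := (Finset.sum_eq_zero_iff_of_nonneg fun i _ => sq_nonneg (w i - w' i)).1 h0 i
      (Finset.mem_univ _)
    have h3 : w i - w' i = 0 := pow_eq_zero_iff (by norm_num) |>.1 this
    linarith
  intro i j hne
  have h1 : l' * lᵀ = (l' * c⁻¹) * (c * l⁻¹) := by
    calc l' * lᵀ = l' * (c⁻¹ * c) * lᵀ := by rw [Matrix.nonsing_inv_mul _ hc, Matrix.mul_one]
      _ = _ := by rw [IsO.inv hl]; simp only [Matrix.mul_assoc]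
  rw [h1, Matrix.mul_apply] at hne
  obtain ⟨m, -, hm⟩ := Finset.exists_ne_zero_of_sum_ne_zero hne
  have e1 := hw'.1 i m (left_ne_zero_of_mul hm)
  have e2 := hw.2 m j (right_ne_zero_of_mul hm)
  rw [hww m] at e2
  linarith

end Pool.Agent.H787.SP
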