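import Mathlib

/-! The 3-form `phi`, its Hodge dual `psi`, and exterior derivatives of left invariant forms. -/

set_option autoImplicit false
set_option maxRecDepth 100000

namespace Pool.Agent.H787.SP

/-- Kronecker delta -/
def dl (i j : Fin 7) : ℤ := if i = j then 1 else 0

/-- `e^{ab}(e_i,e_j)` -/
def w2 (a b i j : Fin 7) : ℤ := dl a i * dl b j - dl a j * dl b i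

/-- `e^{abc}(e_i,e_j,e_k)` -/
def w3 (a b c i j k : Fin 7) : ℤ :=
  dl a i * w2 b c j k - dl a j * w2 b c i k + dl a k * w2 b c i j

/-- `e^{abcd}(e_i,e_j,e_k,e_l)` -/
def w4 (a b c d i j k l : Fin 7) : ℤ :=
  dl a i * w3 b c d j k l - dl a j * w3 b c d i k l + dl a k * w3 b c d i j l
    - dl a l * w3 b c d i j k

/-- the positive 3-form -/
def phi (i j k : Fin 7) : ℤ :=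
  w3 0 1 6 i j k + w3 2 3 6 i j k + w3 4 5 6 i j k + w3 0 2 4 i j k
    - w3 0 3 5 i j k - w3 1 2 5 i j k - w3 1 3 4 i j k

/-- its Hodge dual -/
def psi (i j k l : Fin 7) : ℤ :=
  w4 2 3 4 5 i j k l + w4 0 1 4 5 i j k l + w4 0 1 2 3 i j k l - w4 1 3 5 6 i j k l
    + w4 1 2 4 6 i j k l + w4 0 3 4 6 i j k l + w4 0 2 5 6 i j k l

/-- exterior derivative of a 3-form -/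
noncomputable def dd3 (μ : Fin 7 → Fin 7 → Fin 7 → ℝ) (α : Fin 7 → Fin 7 → Fin 7 → ℝ)
    (i j k l : Fin 7) : ℝ :=
  ∑ m, (-(μ i j m * α m k l) + μ i k m * α m j l - μ i l m * α m j k
    - μ j k m * α m i l + μ j l m * α m i k - μ k l m * α m i j)

/-- exterior derivative of a 4-form -/
noncomputable def dd4 (μ : Fin 7 → Fin 7 → Fin 7 → ℝ) (α : Fin 7 → Fin 7 → Fin 7 → Fin 7 → ℝ)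
    (i j k l p : Fin 7) : ℝ :=
  ∑ m, (-(μ i j m * α m k l p) + μ i k m * α m j l p - μ i l m * α m j k p + μ i p m * α m j k l
    - μ j k m * α m i l p + μ j l m * α m i k p - μ j p m * α m i k l
    - μ k l m * α m i j p + μ k p m * α m i j l - μ l p m * α m i j k)

/-- real versions -/
noncomputable def phiR (i j k : Fin 7) : ℝ := (phi i j k : ℝ)
noncomputable def psiR (i j k l : Fin 7) : ℝ := (psi i j k l : ℝ)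

theorem phi_v0 :
    phi 0 0 1 = 0 ∧
    phi 0 0 2 = 0 ∧
    phi 0 0 3 = 0 ∧
    phi 0 0 4 = 0 ∧
    phi 0 0 5 = 0 ∧
    phi 0 0 6 = 0 ∧
    phi 0 1 2 = 0 ∧
    phi 0 1 3 = 0 ∧
    phi 0 1 4 = 0 ∧
    phi 0 1 5 = 0 ∧
    phi 0 1 6 = 1 ∧
    phi 0 2 3 = 0 ∧
    phi 0 2 4 = 1 ∧
    phi 0 2 5 = 0 ∧
    phi 0 2 6 = 0 ∧
    phi 0 3 4 = 0 ∧
    phi 0 3 5 = -1 ∧
    phi 0 3 6 = 0 ∧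
    phi 0 4 5 = 0 ∧
    phi 0 4 6 = 0 ∧
    phi 0 5 6 = 0 := by
  decide +kernel

theorem phi_v1 :
    phi 1 0 1 = 0 ∧
    phi 1 0 2 = 0 ∧
    phi 1 0 3 = 0 ∧
    phi 1 0 4 = 0 ∧
    phi 1 0 5 = 0 ∧
    phi 1 0 6 = -1 ∧
    phi 1 1 2 = 0 ∧
    phi 1 1 3 = 0 ∧
    phi 1 1 4 = 0 ∧
    phi 1 1 5 = 0 ∧
    phi 1 1 6 = 0 ∧
    phi 1 2 3 = 0 ∧
    phi 1 2 4 = 0 ∧
    phi 1 2 5 = -1 ∧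
    phi 1 2 6 = 0 ∧
    phi 1 3 4 = -1 ∧
    phi 1 3 5 = 0 ∧
    phi 1 3 6 = 0 ∧
    phi 1 4 5 = 0 ∧
    phi 1 4 6 = 0 ∧
    phi 1 5 6 = 0 := by
  decide +kernel

theorem phi_v2 :
    phi 2 0 1 = 0 ∧
    phi 2 0 2 = 0 ∧
    phi 2 0 3 = 0 ∧
    phi 2 0 4 = -1 ∧
    phi 2 0 5 = 0 ∧
    phi 2 0 6 = 0 ∧
    phi 2 1 2 = 0 ∧
    phi 2 1 3 = 0 ∧
    phi 2 1 4 = 0 ∧
    phi 2 1 5 = 1 ∧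
    phi 2 1 6 = 0 ∧
    phi 2 2 3 = 0 ∧
    phi 2 2 4 = 0 ∧
    phi 2 2 5 = 0 ∧
    phi 2 2 6 = 0 ∧
    phi 2 3 4 = 0 ∧
    phi 2 3 5 = 0 ∧
    phi 2 3 6 = 1 ∧
    phi 2 4 5 = 0 ∧
    phi 2 4 6 = 0 ∧
    phi 2 5 6 = 0 := by
  decide +kernel

theorem phi_v3 :
    phi 3 0 1 = 0 ∧
    phi 3 0 2 = 0 ∧
    phi 3 0 3 = 0 ∧
    phi 3 0 4 = 0 ∧
    phi 3 0 5 = 1 ∧
    phi 3 0 6 = 0 ∧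
    phi 3 1 2 = 0 ∧
    phi 3 1 3 = 0 ∧
    phi 3 1 4 = 1 ∧
    phi 3 1 5 = 0 ∧
    phi 3 1 6 = 0 ∧
    phi 3 2 3 = 0 ∧
    phi 3 2 4 = 0 ∧
    phi 3 2 5 = 0 ∧
    phi 3 2 6 = -1 ∧
    phi 3 3 4 = 0 ∧
    phi 3 3 5 = 0 ∧
    phi 3 3 6 = 0 ∧
    phi 3 4 5 = 0 ∧
    phi 3 4 6 = 0 ∧
    phi 3 5 6 = 0 := by
  decide +kernel

theorem phi_v4 :
    phi 4 0 1 = 0 ∧
    phi 4 0 2 = 1 ∧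
    phi 4 0 3 = 0 ∧
    phi 4 0 4 = 0 ∧
    phi 4 0 5 = 0 ∧
    phi 4 0 6 = 0 ∧
    phi 4 1 2 = 0 ∧
    phi 4 1 3 = -1 ∧
    phi 4 1 4 = 0 ∧
    phi 4 1 5 = 0 ∧
    phi 4 1 6 = 0 ∧
    phi 4 2 3 = 0 ∧
    phi 4 2 4 = 0 ∧
    phi 4 2 5 = 0 ∧
    phi 4 2 6 = 0 ∧
    phi 4 3 4 = 0 ∧
    phi 4 3 5 = 0 ∧
    phi 4 3 6 = 0 ∧
    phi 4 4 5 = 0 ∧
    phi 4 4 6 = 0 ∧
    phi 4 5 6 = 1 := by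
  decide +kernel

theorem phi_v5 :
    phi 5 0 1 = 0 ∧
    phi 5 0 2 = 0 ∧
    phi 5 0 3 = -1 ∧
    phi 5 0 4 = 0 ∧
    phi 5 0 5 = 0 ∧
    phi 5 0 6 = 0 ∧
    phi 5 1 2 = -1 ∧
    phi 5 1 3 = 0 ∧
    phi 5 1 4 = 0 ∧
    phi 5 1 5 = 0 ∧
    phi 5 1 6 = 0 ∧
    phi 5 2 3 = 0 ∧
    phi 5 2 4 = 0 ∧
    phi 5 2 5 = 0 ∧
    phi 5 2 6 = 0 ∧
    phi 5 3 4 = 0 ∧
    phi 5 3 5 = 0 ∧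
    phi 5 3 6 = 0 ∧
    phi 5 4 5 = 0 ∧
    phi 5 4 6 = -1 ∧
    phi 5 5 6 = 0 := by
  decide +kernel

theorem phi_v6 :
    phi 6 0 1 = 1 ∧
    phi 6 0 2 = 0 ∧
    phi 6 0 3 = 0 ∧
    phi 6 0 4 = 0 ∧
    phi 6 0 5 = 0 ∧
    phi 6 0 6 = 0 ∧
    phi 6 1 2 = 0 ∧
    phi 6 1 3 = 0 ∧
    phi 6 1 4 = 0 ∧
    phi 6 1 5 = 0 ∧
    phi 6 1 6 = 0 ∧
    phi 6 2 3 = 1 ∧
    phi 6 2 4 = 0 ∧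
    phi 6 2 5 = 0 ∧
    phi 6 2 6 = 0 ∧
    phi 6 3 4 = 0 ∧
    phi 6 3 5 = 0 ∧
    phi 6 3 6 = 0 ∧
    phi 6 4 5 = 1 ∧
    phi 6 4 6 = 0 ∧
    phi 6 5 6 = 0 := by
  decide +kernel

theorem psi_v0 :
    psi 0 0 1 2 = 0 ∧
    psi 0 0 1 3 = 0 ∧
    psi 0 0 1 4 = 0 ∧
    psi 0 0 1 5 = 0 ∧
    psi 0 0 1 6 = 0 ∧
    psi 0 0 2 3 = 0 ∧
    psi 0 0 2 4 = 0 ∧
    psi 0 0 2 5 = 0 ∧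
    psi 0 0 2 6 = 0 ∧
    psi 0 0 3 4 = 0 ∧
    psi 0 0 3 5 = 0 ∧
    psi 0 0 3 6 = 0 ∧
    psi 0 0 4 5 = 0 ∧
    psi 0 0 4 6 = 0 ∧
    psi 0 0 5 6 = 0 ∧
    psi 0 1 2 3 = 1 ∧
    psi 0 1 2 4 = 0 ∧
    psi 0 1 2 5 = 0 ∧
    psi 0 1 2 6 = 0 ∧
    psi 0 1 3 4 = 0 ∧
    psi 0 1 3 5 = 0 ∧
    psi 0 1 3 6 = 0 ∧
    psi 0 1 4 5 = 1 ∧
    psi 0 1 4 6 = 0 ∧
    psi 0 1 5 6 = 0 ∧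
    psi 0 2 3 4 = 0 ∧
    psi 0 2 3 5 = 0 ∧
    psi 0 2 3 6 = 0 ∧
    psi 0 2 4 5 = 0 ∧
    psi 0 2 4 6 = 0 ∧
    psi 0 2 5 6 = 1 ∧
    psi 0 3 4 5 = 0 ∧
    psi 0 3 4 6 = 1 ∧
    psi 0 3 5 6 = 0 ∧
    psi 0 4 5 6 = 0 := by
  decide +kernel

theorem psi_v1 :
    psi 1 0 1 2 = 0 ∧
    psi 1 0 1 3 = 0 ∧
    psi 1 0 1 4 = 0 ∧
    psi 1 0 1 5 = 0 ∧
    psi 1 0 1 6 = 0 ∧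
    psi 1 0 2 3 = -1 ∧
    psi 1 0 2 4 = 0 ∧
    psi 1 0 2 5 = 0 ∧
    psi 1 0 2 6 = 0 ∧
    psi 1 0 3 4 = 0 ∧
    psi 1 0 3 5 = 0 ∧
    psi 1 0 3 6 = 0 ∧
    psi 1 0 4 5 = -1 ∧
    psi 1 0 4 6 = 0 ∧
    psi 1 0 5 6 = 0 ∧
    psi 1 1 2 3 = 0 ∧
    psi 1 1 2 4 = 0 ∧
    psi 1 1 2 5 = 0 ∧
    psi 1 1 2 6 = 0 ∧
    psi 1 1 3 4 = 0 ∧
    psi 1 1 3 5 = 0 ∧
    psi 1 1 3 6 = 0 ∧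
    psi 1 1 4 5 = 0 ∧
    psi 1 1 4 6 = 0 ∧
    psi 1 1 5 6 = 0 ∧
    psi 1 2 3 4 = 0 ∧
    psi 1 2 3 5 = 0 ∧
    psi 1 2 3 6 = 0 ∧
    psi 1 2 4 5 = 0 ∧
    psi 1 2 4 6 = 1 ∧
    psi 1 2 5 6 = 0 ∧
    psi 1 3 4 5 = 0 ∧
    psi 1 3 4 6 = 0 ∧
    psi 1 3 5 6 = -1 ∧
    psi 1 4 5 6 = 0 := by
  decide +kernel

theorem psi_v2 :
    psi 2 0 1 2 = 0 ∧
    psi 2 0 1 3 = 1 ∧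
    psi 2 0 1 4 = 0 ∧
    psi 2 0 1 5 = 0 ∧
    psi 2 0 1 6 = 0 ∧
    psi 2 0 2 3 = 0 ∧
    psi 2 0 2 4 = 0 ∧
    psi 2 0 2 5 = 0 ∧
    psi 2 0 2 6 = 0 ∧
    psi 2 0 3 4 = 0 ∧
    psi 2 0 3 5 = 0 ∧
    psi 2 0 3 6 = 0 ∧
    psi 2 0 4 5 = 0 ∧
    psi 2 0 4 6 = 0 ∧
    psi 2 0 5 6 = -1 ∧
    psi 2 1 2 3 = 0 ∧
    psi 2 1 2 4 = 0 ∧
    psi 2 1 2 5 = 0 ∧
    psi 2 1 2 6 = 0 ∧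
    psi 2 1 3 4 = 0 ∧
    psi 2 1 3 5 = 0 ∧
    psi 2 1 3 6 = 0 ∧
    psi 2 1 4 5 = 0 ∧
    psi 2 1 4 6 = -1 ∧
    psi 2 1 5 6 = 0 ∧
    psi 2 2 3 4 = 0 ∧
    psi 2 2 3 5 = 0 ∧
    psi 2 2 3 6 = 0 ∧
    psi 2 2 4 5 = 0 ∧
    psi 2 2 4 6 = 0 ∧
    psi 2 2 5 6 = 0 ∧
    psi 2 3 4 5 = 1 ∧
    psi 2 3 4 6 = 0 ∧
    psi 2 3 5 6 = 0 ∧
    psi 2 4 5 6 = 0 := by
  decide +kernel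

theorem psi_v3 :
    psi 3 0 1 2 = -1 ∧
    psi 3 0 1 3 = 0 ∧
    psi 3 0 1 4 = 0 ∧
    psi 3 0 1 5 = 0 ∧
    psi 3 0 1 6 = 0 ∧
    psi 3 0 2 3 = 0 ∧
    psi 3 0 2 4 = 0 ∧
    psi 3 0 2 5 = 0 ∧
    psi 3 0 2 6 = 0 ∧
    psi 3 0 3 4 = 0 ∧
    psi 3 0 3 5 = 0 ∧
    psi 3 0 3 6 = 0 ∧
    psi 3 0 4 5 = 0 ∧
    psi 3 0 4 6 = -1 ∧
    psi 3 0 5 6 = 0 ∧
    psi 3 1 2 3 = 0 ∧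
    psi 3 1 2 4 = 0 ∧
    psi 3 1 2 5 = 0 ∧
    psi 3 1 2 6 = 0 ∧
    psi 3 1 3 4 = 0 ∧
    psi 3 1 3 5 = 0 ∧
    psi 3 1 3 6 = 0 ∧
    psi 3 1 4 5 = 0 ∧
    psi 3 1 4 6 = 0 ∧
    psi 3 1 5 6 = 1 ∧
    psi 3 2 3 4 = 0 ∧
    psi 3 2 3 5 = 0 ∧
    psi 3 2 3 6 = 0 ∧
    psi 3 2 4 5 = -1 ∧
    psi 3 2 4 6 = 0 ∧
    psi 3 2 5 6 = 0 ∧
    psi 3 3 4 5 = 0 ∧
    psi 3 3 4 6 = 0 ∧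
    psi 3 3 5 6 = 0 ∧
    psi 3 4 5 6 = 0 := by
  decide +kernel

theorem psi_v4 :
    psi 4 0 1 2 = 0 ∧
    psi 4 0 1 3 = 0 ∧
    psi 4 0 1 4 = 0 ∧
    psi 4 0 1 5 = 1 ∧
    psi 4 0 1 6 = 0 ∧
    psi 4 0 2 3 = 0 ∧
    psi 4 0 2 4 = 0 ∧
    psi 4 0 2 5 = 0 ∧
    psi 4 0 2 6 = 0 ∧
    psi 4 0 3 4 = 0 ∧
    psi 4 0 3 5 = 0 ∧
    psi 4 0 3 6 = 1 ∧
    psi 4 0 4 5 = 0 ∧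
    psi 4 0 4 6 = 0 ∧
    psi 4 0 5 6 = 0 ∧
    psi 4 1 2 3 = 0 ∧
    psi 4 1 2 4 = 0 ∧
    psi 4 1 2 5 = 0 ∧
    psi 4 1 2 6 = 1 ∧
    psi 4 1 3 4 = 0 ∧
    psi 4 1 3 5 = 0 ∧
    psi 4 1 3 6 = 0 ∧
    psi 4 1 4 5 = 0 ∧
    psi 4 1 4 6 = 0 ∧
    psi 4 1 5 6 = 0 ∧
    psi 4 2 3 4 = 0 ∧
    psi 4 2 3 5 = 1 ∧
    psi 4 2 3 6 = 0 ∧
    psi 4 2 4 5 = 0 ∧
    psi 4 2 4 6 = 0 ∧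
    psi 4 2 5 6 = 0 ∧
    psi 4 3 4 5 = 0 ∧
    psi 4 3 4 6 = 0 ∧
    psi 4 3 5 6 = 0 ∧
    psi 4 4 5 6 = 0 := by
  decide +kernel

theorem psi_v5 :
    psi 5 0 1 2 = 0 ∧
    psi 5 0 1 3 = 0 ∧
    psi 5 0 1 4 = -1 ∧
    psi 5 0 1 5 = 0 ∧
    psi 5 0 1 6 = 0 ∧
    psi 5 0 2 3 = 0 ∧
    psi 5 0 2 4 = 0 ∧
    psi 5 0 2 5 = 0 ∧
    psi 5 0 2 6 = 1 ∧
    psi 5 0 3 4 = 0 ∧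
    psi 5 0 3 5 = 0 ∧
    psi 5 0 3 6 = 0 ∧
    psi 5 0 4 5 = 0 ∧
    psi 5 0 4 6 = 0 ∧
    psi 5 0 5 6 = 0 ∧
    psi 5 1 2 3 = 0 ∧
    psi 5 1 2 4 = 0 ∧
    psi 5 1 2 5 = 0 ∧
    psi 5 1 2 6 = 0 ∧
    psi 5 1 3 4 = 0 ∧
    psi 5 1 3 5 = 0 ∧
    psi 5 1 3 6 = -1 ∧
    psi 5 1 4 5 = 0 ∧
    psi 5 1 4 6 = 0 ∧
    psi 5 1 5 6 = 0 ∧
    psi 5 2 3 4 = -1 ∧
    psi 5 2 3 5 = 0 ∧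
    psi 5 2 3 6 = 0 ∧
    psi 5 2 4 5 = 0 ∧
    psi 5 2 4 6 = 0 ∧
    psi 5 2 5 6 = 0 ∧
    psi 5 3 4 5 = 0 ∧
    psi 5 3 4 6 = 0 ∧
    psi 5 3 5 6 = 0 ∧
    psi 5 4 5 6 = 0 := by
  decide +kernel

theorem psi_v6 :
    psi 6 0 1 2 = 0 ∧
    psi 6 0 1 3 = 0 ∧
    psi 6 0 1 4 = 0 ∧
    psi 6 0 1 5 = 0 ∧
    psi 6 0 1 6 = 0 ∧
    psi 6 0 2 3 = 0 ∧
    psi 6 0 2 4 = 0 ∧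
    psi 6 0 2 5 = -1 ∧
    psi 6 0 2 6 = 0 ∧
    psi 6 0 3 4 = -1 ∧
    psi 6 0 3 5 = 0 ∧
    psi 6 0 3 6 = 0 ∧
    psi 6 0 4 5 = 0 ∧
    psi 6 0 4 6 = 0 ∧
    psi 6 0 5 6 = 0 ∧
    psi 6 1 2 3 = 0 ∧
    psi 6 1 2 4 = -1 ∧
    psi 6 1 2 5 = 0 ∧
    psi 6 1 2 6 = 0 ∧
    psi 6 1 3 4 = 0 ∧
    psi 6 1 3 5 = 1 ∧
    psi 6 1 3 6 = 0 ∧
    psi 6 1 4 5 = 0 ∧
    psi 6 1 4 6 = 0 ∧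
    psi 6 1 5 6 = 0 ∧
    psi 6 2 3 4 = 0 ∧
    psi 6 2 3 5 = 0 ∧
    psi 6 2 3 6 = 0 ∧
    psi 6 2 4 5 = 0 ∧
    psi 6 2 4 6 = 0 ∧
    psi 6 2 5 6 = 0 ∧
    psi 6 3 4 5 = 0 ∧
    psi 6 3 4 6 = 0 ∧
    psi 6 3 5 6 = 0 ∧
    psi 6 4 5 6 = 0 := by
  decide +kernel

theorem psi_s1 : ∀ m i j k : Fin 7, psi m j i k = - psi m i j k := by decide +kernel

theorem psi_s2 : ∀ m i j k : Fin 7, psi m i k j = - psi m i j k := by decide +kernel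

end Pool.Agent.H787.SP
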