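import Pool.Agent.H787.SP.G2M

/-! Scalar curvature of a closed left invariant G2-structure. -/

set_option autoImplicit false
set_option linter.unusedSimpArgs false
set_option maxRecDepth 100000
set_option maxHeartbeats 4000000

namespace Pool.Agent.H787.SP
open Matrix R877.RN R877.RN.BASA

/-- trace of the Ricci operator as an explicit sum -/
theorem tr_Rc_sum {n : ℕ} {μ : Br n} (ha : Asym μ) : (Rc μ).trace =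
    -(1/4) * ∑ i, ∑ j, ∑ k, (μ i j k) ^ 2 - (1/2) * ∑ a, ∑ p, ∑ q, μ a q p * μ a p q
      - ∑ a, (∑ i, μ a i i) ^ 2 := by
  have h1 : (Mm μ).trace = -(1/4) * ∑ i, ∑ j, ∑ k, (μ i j k) ^ 2 := by
    have h := p_MTR n μ (fun _ => 1) ha
    have e1 : (Mm μ).trace = ∑ i, (1:ℝ) * Mm μ i i := by
      simp only [one_mul]; rfl
    rw [e1, h]
    simp only [Finset.mul_sum]
    exact Finset.sum_congr rfl fun i _ => Finset.sum_congr rfl fun j _ =>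
      Finset.sum_congr rfl fun m _ => by ring
  have h2 : (Kf μ).trace = ∑ a, ∑ p, ∑ q, μ a q p * μ a p q := rfl
  have h3 : (sy (adm μ (Hv μ))).trace = ∑ a, (∑ i, μ a i i) ^ 2 := by
    rw [tr_sy, tr_adm]
    exact Finset.sum_congr rfl fun a _ => by rw [pow_two]; rfl
  rw [Rc, Matrix.trace_sub, Matrix.trace_sub, Matrix.trace_smul, smul_eq_mul, h1, h2, h3]

theorem g2_scal {μ : Br 7} (ha : Asym μ) (hj : Jac μ)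
    (hc : ∀ i j k l, dd3 μ phiR i j k l = 0) : (Rc μ).trace =
    -(1/2) * (dd4 μ psiR 0 1 2 3 4 ^ 2 + dd4 μ psiR 0 1 2 3 5 ^ 2 + dd4 μ psiR 0 1 2 3 6 ^ 2 +
      dd4 μ psiR 0 1 2 4 5 ^ 2 + dd4 μ psiR 0 1 2 4 6 ^ 2 + dd4 μ psiR 0 1 2 5 6 ^ 2 + dd4 μ
      psiR 0 1 3 4 5 ^ 2 + dd4 μ psiR 0 1 3 4 6 ^ 2 + dd4 μ psiR 0 1 3 5 6 ^ 2 + dd4 μ psiR 0 1
      4 5 6 ^ 2 + dd4 μ psiR 0 2 3 4 5 ^ 2 + dd4 μ psiR 0 2 3 4 6 ^ 2 + dd4 μ psiR 0 2 3 5 6 ^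
      2 + dd4 μ psiR 0 2 4 5 6 ^ 2 + dd4 μ psiR 0 3 4 5 6 ^ 2 + dd4 μ psiR 1 2 3 4 5 ^ 2 + dd4
      μ psiR 1 2 3 4 6 ^ 2 + dd4 μ psiR 1 2 3 5 6 ^ 2 + dd4 μ psiR 1 2 4 5 6 ^ 2 + dd4 μ psiR 1
      3 4 5 6 ^ 2 + dd4 μ psiR 2 3 4 5 6 ^ 2) := by
  have key := g2poly (μ 0 1 0) (μ 0 1 1) (μ 0 1 2) (μ 0 1 3) (μ 0 1 4) (μ 0 1 5) (μ 0 1 6) (μ 0
    2 0) (μ 0 2 1) (μ 0 2 2) (μ 0 2 3) (μ 0 2 4) (μ 0 2 5) (μ 0 2 6) (μ 0 3 0) (μ 0 3 1) (μ 0 3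
    2) (μ 0 3 3) (μ 0 3 4) (μ 0 3 5) (μ 0 3 6) (μ 0 4 0) (μ 0 4 1) (μ 0 4 2) (μ 0 4 3) (μ 0 4
    4) (μ 0 4 5) (μ 0 4 6) (μ 0 5 0) (μ 0 5 1) (μ 0 5 2) (μ 0 5 3) (μ 0 5 4) (μ 0 5 5) (μ 0 5
    6) (μ 0 6 0) (μ 0 6 1) (μ 0 6 2) (μ 0 6 3) (μ 0 6 4) (μ 0 6 5) (μ 0 6 6) (μ 1 2 0) (μ 1 2
    1) (μ 1 2 2) (μ 1 2 3) (μ 1 2 4) (μ 1 2 5) (μ 1 2 6) (μ 1 3 0) (μ 1 3 1) (μ 1 3 2) (μ 1 3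
    3) (μ 1 3 4) (μ 1 3 5) (μ 1 3 6) (μ 1 4 0) (μ 1 4 1) (μ 1 4 2) (μ 1 4 3) (μ 1 4 4) (μ 1 4
    5) (μ 1 4 6) (μ 1 5 0) (μ 1 5 1) (μ 1 5 2) (μ 1 5 3) (μ 1 5 4) (μ 1 5 5) (μ 1 5 6) (μ 1 6
    0) (μ 1 6 1) (μ 1 6 2) (μ 1 6 3) (μ 1 6 4) (μ 1 6 5) (μ 1 6 6) (μ 2 3 0) (μ 2 3 1) (μ 2 3
    2) (μ 2 3 3) (μ 2 3 4) (μ 2 3 5) (μ 2 3 6) (μ 2 4 0) (μ 2 4 1) (μ 2 4 2) (μ 2 4 3) (μ 2 4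
    4) (μ 2 4 5) (μ 2 4 6) (μ 2 5 0) (μ 2 5 1) (μ 2 5 2) (μ 2 5 3) (μ 2 5 4) (μ 2 5 5) (μ 2 5
    6) (μ 2 6 0) (μ 2 6 1) (μ 2 6 2) (μ 2 6 3) (μ 2 6 4) (μ 2 6 5) (μ 2 6 6) (μ 3 4 0) (μ 3 4
    1) (μ 3 4 2) (μ 3 4 3) (μ 3 4 4) (μ 3 4 5) (μ 3 4 6) (μ 3 5 0) (μ 3 5 1) (μ 3 5 2) (μ 3 5
    3) (μ 3 5 4) (μ 3 5 5) (μ 3 5 6) (μ 3 6 0) (μ 3 6 1) (μ 3 6 2) (μ 3 6 3) (μ 3 6 4) (μ 3 6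
    5) (μ 3 6 6) (μ 4 5 0) (μ 4 5 1) (μ 4 5 2) (μ 4 5 3) (μ 4 5 4) (μ 4 5 5) (μ 4 5 6) (μ 4 6
    0) (μ 4 6 1) (μ 4 6 2) (μ 4 6 3) (μ 4 6 4) (μ 4 6 5) (μ 4 6 6) (μ 5 6 0) (μ 5 6 1) (μ 5 6
    2) (μ 5 6 3) (μ 5 6 4) (μ 5 6 5) (μ 5 6 6)
  have z0123 : (-μ 0 1 6 - μ 0 2 4 + μ 0 3 5 + μ 1 2 5 + μ 1 3 4 - μ 2 3 6) = 0 := by
    rw [← L0123 μ]; exact hc _ _ _ _
  have z0124 : (-μ 0 1 0 + μ 0 2 3 + μ 0 4 5 + μ 1 2 2 + μ 1 4 4 - μ 2 4 6) = 0 := by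
    rw [← L0124 μ]; exact hc _ _ _ _
  have z0125 : (μ 0 1 1 + μ 0 2 2 + μ 0 5 5 - μ 1 2 3 + μ 1 5 4 - μ 2 5 6) = 0 := by
    rw [← L0125 μ]; exact hc _ _ _ _
  have z0126 : (μ 0 1 3 + μ 0 2 0 + μ 0 6 5 + μ 1 2 1 + μ 1 6 4 - μ 2 6 6) = 0 := by
    rw [← L0126 μ]; exact hc _ _ _ _
  have z0134 : (μ 0 1 1 + μ 0 3 3 + μ 0 4 4 + μ 1 3 2 - μ 1 4 5 - μ 3 4 6) = 0 := by
    rw [← L0134 μ]; exact hc _ _ _ _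
  have z0135 : (μ 0 1 0 + μ 0 3 2 + μ 0 5 4 - μ 1 3 3 - μ 1 5 5 - μ 3 5 6) = 0 := by
    rw [← L0135 μ]; exact hc _ _ _ _
  have z0136 : (-μ 0 1 2 + μ 0 3 0 + μ 0 6 4 + μ 1 3 1 - μ 1 6 5 - μ 3 6 6) = 0 := by
    rw [← L0136 μ]; exact hc _ _ _ _
  have z0145 : (-μ 0 1 6 + μ 0 4 2 - μ 0 5 3 - μ 1 4 3 - μ 1 5 2 - μ 4 5 6) = 0 := by
    rw [← L0145 μ]; exact hc _ _ _ _
  have z0146 : (μ 0 1 5 + μ 0 4 0 - μ 0 6 3 + μ 1 4 1 - μ 1 6 2 - μ 4 6 6) = 0 := by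
    rw [← L0146 μ]; exact hc _ _ _ _
  have z0156 : (-μ 0 1 4 + μ 0 5 0 - μ 0 6 2 + μ 1 5 1 + μ 1 6 3 - μ 5 6 6) = 0 := by
    rw [← L0156 μ]; exact hc _ _ _ _
  have z0234 : (μ 0 2 1 + μ 0 3 0 - μ 0 4 6 + μ 2 3 2 - μ 2 4 5 - μ 3 4 4) = 0 := by
    rw [← L0234 μ]; exact hc _ _ _ _
  have z0235 : (μ 0 2 0 - μ 0 3 1 - μ 0 5 6 - μ 2 3 3 - μ 2 5 5 - μ 3 5 4) = 0 := by
    rw [← L0235 μ]; exact hc _ _ _ _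
  have z0236 : (-μ 0 2 2 - μ 0 3 3 - μ 0 6 6 + μ 2 3 1 - μ 2 6 5 - μ 3 6 4) = 0 := by
    rw [← L0236 μ]; exact hc _ _ _ _
  have z0245 : (-μ 0 2 6 - μ 0 4 1 - μ 0 5 0 - μ 2 4 3 - μ 2 5 2 - μ 4 5 4) = 0 := by
    rw [← L0245 μ]; exact hc _ _ _ _
  have z0246 : (μ 0 2 5 - μ 0 4 3 - μ 0 6 0 + μ 2 4 1 - μ 2 6 2 - μ 4 6 4) = 0 := by
    rw [← L0246 μ]; exact hc _ _ _ _
  have z0256 : (-μ 0 2 4 - μ 0 5 3 + μ 0 6 1 + μ 2 5 1 + μ 2 6 3 - μ 5 6 4) = 0 := by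
    rw [← L0256 μ]; exact hc _ _ _ _
  have z0345 : (-μ 0 3 6 - μ 0 4 0 + μ 0 5 1 - μ 3 4 3 - μ 3 5 2 + μ 4 5 5) = 0 := by
    rw [← L0345 μ]; exact hc _ _ _ _
  have z0346 : (μ 0 3 5 + μ 0 4 2 + μ 0 6 1 + μ 3 4 1 - μ 3 6 2 + μ 4 6 5) = 0 := by
    rw [← L0346 μ]; exact hc _ _ _ _
  have z0356 : (-μ 0 3 4 + μ 0 5 2 + μ 0 6 0 + μ 3 5 1 + μ 3 6 3 + μ 5 6 5) = 0 := by
    rw [← L0356 μ]; exact hc _ _ _ _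
  have z0456 : (-μ 0 4 4 - μ 0 5 5 - μ 0 6 6 + μ 4 5 1 + μ 4 6 3 + μ 5 6 2) = 0 := by
    rw [← L0456 μ]; exact hc _ _ _ _
  have z1234 : (μ 1 2 1 + μ 1 3 0 - μ 1 4 6 - μ 2 3 3 - μ 2 4 4 + μ 3 4 5) = 0 := by
    rw [← L1234 μ]; exact hc _ _ _ _
  have z1235 : (μ 1 2 0 - μ 1 3 1 - μ 1 5 6 - μ 2 3 2 - μ 2 5 4 + μ 3 5 5) = 0 := by
    rw [← L1235 μ]; exact hc _ _ _ _
  have z1236 : (-μ 1 2 2 - μ 1 3 3 - μ 1 6 6 - μ 2 3 0 - μ 2 6 4 + μ 3 6 5) = 0 := by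
    rw [← L1236 μ]; exact hc _ _ _ _
  have z1245 : (-μ 1 2 6 - μ 1 4 1 - μ 1 5 0 - μ 2 4 2 + μ 2 5 3 + μ 4 5 5) = 0 := by
    rw [← L1245 μ]; exact hc _ _ _ _
  have z1246 : (μ 1 2 5 - μ 1 4 3 - μ 1 6 0 - μ 2 4 0 + μ 2 6 3 + μ 4 6 5) = 0 := by
    rw [← L1246 μ]; exact hc _ _ _ _
  have z1256 : (-μ 1 2 4 - μ 1 5 3 + μ 1 6 1 - μ 2 5 0 + μ 2 6 2 + μ 5 6 5) = 0 := by
    rw [← L1256 μ]; exact hc _ _ _ _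
  have z1345 : (-μ 1 3 6 - μ 1 4 0 + μ 1 5 1 - μ 3 4 2 + μ 3 5 3 + μ 4 5 4) = 0 := by
    rw [← L1345 μ]; exact hc _ _ _ _
  have z1346 : (μ 1 3 5 + μ 1 4 2 + μ 1 6 1 - μ 3 4 0 + μ 3 6 3 + μ 4 6 4) = 0 := by
    rw [← L1346 μ]; exact hc _ _ _ _
  have z1356 : (-μ 1 3 4 + μ 1 5 2 + μ 1 6 0 - μ 3 5 0 + μ 3 6 2 + μ 5 6 4) = 0 := by
    rw [← L1356 μ]; exact hc _ _ _ _
  have z1456 : (-μ 1 4 4 - μ 1 5 5 - μ 1 6 6 - μ 4 5 0 + μ 4 6 2 - μ 5 6 3) = 0 := by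
    rw [← L1456 μ]; exact hc _ _ _ _
  have z2345 : (-μ 2 3 6 - μ 2 4 0 + μ 2 5 1 + μ 3 4 1 + μ 3 5 0 - μ 4 5 6) = 0 := by
    rw [← L2345 μ]; exact hc _ _ _ _
  have z2346 : (μ 2 3 5 + μ 2 4 2 + μ 2 6 1 + μ 3 4 3 + μ 3 6 0 - μ 4 6 6) = 0 := by
    rw [← L2346 μ]; exact hc _ _ _ _
  have z2356 : (-μ 2 3 4 + μ 2 5 2 + μ 2 6 0 + μ 3 5 3 - μ 3 6 1 - μ 5 6 6) = 0 := by
    rw [← L2356 μ]; exact hc _ _ _ _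
  have z2456 : (-μ 2 4 4 - μ 2 5 5 - μ 2 6 6 + μ 4 5 3 - μ 4 6 1 - μ 5 6 0) = 0 := by
    rw [← L2456 μ]; exact hc _ _ _ _
  have z3456 : (-μ 3 4 4 - μ 3 5 5 - μ 3 6 6 - μ 4 5 2 - μ 4 6 0 + μ 5 6 1) = 0 := by
    rw [← L3456 μ]; exact hc _ _ _ _
  simp only [z0123, z0124, z0125, z0126, z0134, z0135, z0136, z0145, z0146, z0156, z0234,
    z0235, z0236, z0245, z0246, z0256, z0345, z0346, z0356, z0456, z1234, z1235, z1236, z1245,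
    z1246, z1256, z1345, z1346, z1356, z1456, z2345, z2346, z2356, z2456, z3456] at key
  simp only [g2J1230 ha hj, g2J0231 ha hj, g2J0132 ha hj, g2J0123 ha hj, g2J1450 ha hj, g2J0451
    ha hj, g2J0154 ha hj, g2J0145 ha hj, g2J2560 ha hj, g2J0562 ha hj, g2J0265 ha hj, g2J0256
    ha hj, g2J3460 ha hj, g2J0463 ha hj, g2J0364 ha hj, g2J0346 ha hj, g2J2461 ha hj, g2J1462
    ha hj, g2J1264 ha hj, g2J1246 ha hj, g2J3452 ha hj, g2J2453 ha hj, g2J2354 ha hj, g2J2345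
    ha hj, g2J3561 ha hj, g2J1563 ha hj, g2J1365 ha hj, g2J1356 ha hj] at key
  simp only [← M01234 μ, ← M01235 μ, ← M01236 μ, ← M01245 μ, ← M01246 μ, ← M01256 μ, ← M01345
    μ, ← M01346 μ, ← M01356 μ, ← M01456 μ, ← M02345 μ, ← M02346 μ, ← M02356 μ, ← M02456 μ, ←
    M03456 μ, ← M12345 μ, ← M12346 μ, ← M12356 μ, ← M12456 μ, ← M13456 μ, ← M23456 μ] at key
  rw [tr_Rc_sum ha, g2sq ha]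
  rw [Fin.sum_univ_seven, Fin.sum_univ_seven (fun a => (∑ i, μ a i i) ^ 2)]
  rw [g2K0 ha, g2K1 ha, g2K2 ha, g2K3 ha, g2K4 ha, g2K5 ha, g2K6 ha, g2H0 ha, g2H1 ha, g2H2 ha, g2H3 ha, g2H4 ha, g2H5 ha, g2H6 ha]
  linarith

end Pool.Agent.H787.SP
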