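import Mathlib

/-! The polynomial identity behind Bryant's formula for the scalar curvature. -/

set_option autoImplicit false
set_option linter.unusedSimpArgs false
set_option maxRecDepth 100000
set_option maxHeartbeats 4000000

namespace Pool.Agent.H787.SP

theorem g2poly (x010 x011 x012 x013 x014 x015 x016 x020 x021 x022 x023 x024 x025 x026 x030 x031
  x032 x033 x034 x035 x036 x040 x041 x042 x043 x044 x045 x046 x050 x051 x052 x053 x054 x055
  x056 x060 x061 x062 x063 x064 x065 x066 x120 x121 x122 x123 x124 x125 x126 x130 x131 x132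
  x133 x134 x135 x136 x140 x141 x142 x143 x144 x145 x146 x150 x151 x152 x153 x154 x155 x156
  x160 x161 x162 x163 x164 x165 x166 x230 x231 x232 x233 x234 x235 x236 x240 x241 x242 x243
  x244 x245 x246 x250 x251 x252 x253 x254 x255 x256 x260 x261 x262 x263 x264 x265 x266 x340
  x341 x342 x343 x344 x345 x346 x350 x351 x352 x353 x354 x355 x356 x360 x361 x362 x363 x364
  x365 x366 x450 x451 x452 x453 x454 x455 x456 x460 x461 x462 x463 x464 x465 x466 x560 x561
  x562 x563 x564 x565 x566 : ℝ) :
    -1/2 * ((x010 ^ 2 + x011 ^ 2 + x012 ^ 2 + x013 ^ 2 + x014 ^ 2 + x015 ^ 2 + x016 ^ 2) +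
      (x020 ^ 2 + x021 ^ 2 + x022 ^ 2 + x023 ^ 2 + x024 ^ 2 + x025 ^ 2 + x026 ^ 2) + (x030 ^ 2
      + x031 ^ 2 + x032 ^ 2 + x033 ^ 2 + x034 ^ 2 + x035 ^ 2 + x036 ^ 2) + (x040 ^ 2 + x041 ^ 2
      + x042 ^ 2 + x043 ^ 2 + x044 ^ 2 + x045 ^ 2 + x046 ^ 2) + (x050 ^ 2 + x051 ^ 2 + x052 ^ 2
      + x053 ^ 2 + x054 ^ 2 + x055 ^ 2 + x056 ^ 2) + (x060 ^ 2 + x061 ^ 2 + x062 ^ 2 + x063 ^ 2
      + x064 ^ 2 + x065 ^ 2 + x066 ^ 2) + (x120 ^ 2 + x121 ^ 2 + x122 ^ 2 + x123 ^ 2 + x124 ^ 2
      + x125 ^ 2 + x126 ^ 2) + (x130 ^ 2 + x131 ^ 2 + x132 ^ 2 + x133 ^ 2 + x134 ^ 2 + x135 ^ 2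
      + x136 ^ 2) + (x140 ^ 2 + x141 ^ 2 + x142 ^ 2 + x143 ^ 2 + x144 ^ 2 + x145 ^ 2 + x146 ^
      2) + (x150 ^ 2 + x151 ^ 2 + x152 ^ 2 + x153 ^ 2 + x154 ^ 2 + x155 ^ 2 + x156 ^ 2) + (x160
      ^ 2 + x161 ^ 2 + x162 ^ 2 + x163 ^ 2 + x164 ^ 2 + x165 ^ 2 + x166 ^ 2) + (x230 ^ 2 + x231
      ^ 2 + x232 ^ 2 + x233 ^ 2 + x234 ^ 2 + x235 ^ 2 + x236 ^ 2) + (x240 ^ 2 + x241 ^ 2 + x242
      ^ 2 + x243 ^ 2 + x244 ^ 2 + x245 ^ 2 + x246 ^ 2) + (x250 ^ 2 + x251 ^ 2 + x252 ^ 2 + x253
      ^ 2 + x254 ^ 2 + x255 ^ 2 + x256 ^ 2) + (x260 ^ 2 + x261 ^ 2 + x262 ^ 2 + x263 ^ 2 + x264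
      ^ 2 + x265 ^ 2 + x266 ^ 2) + (x340 ^ 2 + x341 ^ 2 + x342 ^ 2 + x343 ^ 2 + x344 ^ 2 + x345
      ^ 2 + x346 ^ 2) + (x350 ^ 2 + x351 ^ 2 + x352 ^ 2 + x353 ^ 2 + x354 ^ 2 + x355 ^ 2 + x356
      ^ 2) + (x360 ^ 2 + x361 ^ 2 + x362 ^ 2 + x363 ^ 2 + x364 ^ 2 + x365 ^ 2 + x366 ^ 2) +
      (x450 ^ 2 + x451 ^ 2 + x452 ^ 2 + x453 ^ 2 + x454 ^ 2 + x455 ^ 2 + x456 ^ 2) + (x460 ^ 2
      + x461 ^ 2 + x462 ^ 2 + x463 ^ 2 + x464 ^ 2 + x465 ^ 2 + x466 ^ 2) + (x560 ^ 2 + x561 ^ 2
      + x562 ^ 2 + x563 ^ 2 + x564 ^ 2 + x565 ^ 2 + x566 ^ 2)) - 1/2 * ((x011 * x011 + x021 *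
      x012 + x031 * x013 + x041 * x014 + x051 * x015 + x061 * x016 + x012 * x021 + x022 * x022
      + x032 * x023 + x042 * x024 + x052 * x025 + x062 * x026 + x013 * x031 + x023 * x032 +
      x033 * x033 + x043 * x034 + x053 * x035 + x063 * x036 + x014 * x041 + x024 * x042 + x034
      * x043 + x044 * x044 + x054 * x045 + x064 * x046 + x015 * x051 + x025 * x052 + x035 *
      x053 + x045 * x054 + x055 * x055 + x065 * x056 + x016 * x061 + x026 * x062 + x036 * x063
      + x046 * x064 + x056 * x065 + x066 * x066) + (x010 * x010 - x120 * x012 - x130 * x013 -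
      x140 * x014 - x150 * x015 - x160 * x016 - x012 * x120 + x122 * x122 + x132 * x123 + x142
      * x124 + x152 * x125 + x162 * x126 - x013 * x130 + x123 * x132 + x133 * x133 + x143 *
      x134 + x153 * x135 + x163 * x136 - x014 * x140 + x124 * x142 + x134 * x143 + x144 * x144
      + x154 * x145 + x164 * x146 - x015 * x150 + x125 * x152 + x135 * x153 + x145 * x154 +
      x155 * x155 + x165 * x156 - x016 * x160 + x126 * x162 + x136 * x163 + x146 * x164 + x156
      * x165 + x166 * x166) + (x020 * x020 + x120 * x021 - x230 * x023 - x240 * x024 - x250 *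
      x025 - x260 * x026 + x021 * x120 + x121 * x121 - x231 * x123 - x241 * x124 - x251 * x125
      - x261 * x126 - x023 * x230 - x123 * x231 + x233 * x233 + x243 * x234 + x253 * x235 +
      x263 * x236 - x024 * x240 - x124 * x241 + x234 * x243 + x244 * x244 + x254 * x245 + x264
      * x246 - x025 * x250 - x125 * x251 + x235 * x253 + x245 * x254 + x255 * x255 + x265 *
      x256 - x026 * x260 - x126 * x261 + x236 * x263 + x246 * x264 + x256 * x265 + x266 * x266)
      + (x030 * x030 + x130 * x031 + x230 * x032 - x340 * x034 - x350 * x035 - x360 * x036 +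
      x031 * x130 + x131 * x131 + x231 * x132 - x341 * x134 - x351 * x135 - x361 * x136 + x032
      * x230 + x132 * x231 + x232 * x232 - x342 * x234 - x352 * x235 - x362 * x236 - x034 *
      x340 - x134 * x341 - x234 * x342 + x344 * x344 + x354 * x345 + x364 * x346 - x035 * x350
      - x135 * x351 - x235 * x352 + x345 * x354 + x355 * x355 + x365 * x356 - x036 * x360 -
      x136 * x361 - x236 * x362 + x346 * x364 + x356 * x365 + x366 * x366) + (x040 * x040 +
      x140 * x041 + x240 * x042 + x340 * x043 - x450 * x045 - x460 * x046 + x041 * x140 + x141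
      * x141 + x241 * x142 + x341 * x143 - x451 * x145 - x461 * x146 + x042 * x240 + x142 *
      x241 + x242 * x242 + x342 * x243 - x452 * x245 - x462 * x246 + x043 * x340 + x143 * x341
      + x243 * x342 + x343 * x343 - x453 * x345 - x463 * x346 - x045 * x450 - x145 * x451 -
      x245 * x452 - x345 * x453 + x455 * x455 + x465 * x456 - x046 * x460 - x146 * x461 - x246
      * x462 - x346 * x463 + x456 * x465 + x466 * x466) + (x050 * x050 + x150 * x051 + x250 *
      x052 + x350 * x053 + x450 * x054 - x560 * x056 + x051 * x150 + x151 * x151 + x251 * x152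
      + x351 * x153 + x451 * x154 - x561 * x156 + x052 * x250 + x152 * x251 + x252 * x252 +
      x352 * x253 + x452 * x254 - x562 * x256 + x053 * x350 + x153 * x351 + x253 * x352 + x353
      * x353 + x453 * x354 - x563 * x356 + x054 * x450 + x154 * x451 + x254 * x452 + x354 *
      x453 + x454 * x454 - x564 * x456 - x056 * x560 - x156 * x561 - x256 * x562 - x356 * x563
      - x456 * x564 + x566 * x566) + (x060 * x060 + x160 * x061 + x260 * x062 + x360 * x063 +
      x460 * x064 + x560 * x065 + x061 * x160 + x161 * x161 + x261 * x162 + x361 * x163 + x461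
      * x164 + x561 * x165 + x062 * x260 + x162 * x261 + x262 * x262 + x362 * x263 + x462 *
      x264 + x562 * x265 + x063 * x360 + x163 * x361 + x263 * x362 + x363 * x363 + x463 * x364
      + x563 * x365 + x064 * x460 + x164 * x461 + x264 * x462 + x364 * x463 + x464 * x464 +
      x564 * x465 + x065 * x560 + x165 * x561 + x265 * x562 + x365 * x563 + x465 * x564 + x565
      * x565)) - ((x011 + x022 + x033 + x044 + x055 + x066) ^ 2 + (-x010 + x122 + x133 + x144 +
      x155 + x166) ^ 2 + (-x020 - x121 + x233 + x244 + x255 + x266) ^ 2 + (-x030 - x131 - x232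
      + x344 + x355 + x366) ^ 2 + (-x040 - x141 - x242 - x343 + x455 + x466) ^ 2 + (-x050 -
      x151 - x252 - x353 - x454 + x566) ^ 2 + (-x060 - x161 - x262 - x363 - x464 - x565) ^ 2) +
      1/2 * ((x015 + x036 + x040 + x126 + x141 + x235 + x242 + x343) ^ 2 + (-x014 + x026 + x050
      - x136 + x151 - x234 + x252 + x353) ^ 2 + (-x025 - x034 + x060 - x124 + x135 + x161 +
      x262 + x363) ^ 2 + (x013 + x020 - x056 + x121 - x146 - x244 - x255 + x453) ^ 2 + (-x011 -
      x022 - x044 - x066 + x123 + x145 - x265 + x463) ^ 2 + (-x010 + x023 - x054 + x122 + x155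
      + x166 + x264 + x563) ^ 2 + (-x012 + x030 - x046 + x131 + x156 - x344 - x355 - x452) ^ 2
      + (-x010 - x032 + x045 + x133 + x144 + x166 - x365 - x462) ^ 2 + (x011 + x033 + x055 +
      x066 + x132 + x154 + x364 - x562) ^ 2 + (x043 + x052 + x060 + x142 - x153 + x161 + x464 +
      x565) ^ 2 + (-x022 - x033 - x044 - x055 + x231 + x256 + x346 + x451) ^ 2 + (-x020 + x031
      - x065 + x233 + x244 + x266 - x345 + x461) ^ 2 + (x021 + x030 + x064 + x232 + x254 - x355
      - x366 + x561) ^ 2 + (x040 - x051 - x063 + x242 - x253 + x261 - x455 - x466) ^ 2 + (-x041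
      - x050 + x062 + x342 - x353 + x361 - x454 + x566) ^ 2 + (-x122 - x133 - x144 - x155 -
      x230 + x246 - x356 - x450) ^ 2 + (-x120 + x131 - x165 + x232 - x245 - x344 - x366 - x460)
      ^ 2 + (x121 + x130 + x164 - x233 - x255 - x266 - x354 - x560) ^ 2 + (x140 - x151 - x163 -
      x243 - x252 - x260 - x454 + x566) ^ 2 + (-x141 - x150 + x162 - x343 - x352 - x360 + x455
      + x466) ^ 2 + (-x241 - x250 + x262 - x340 + x351 + x363 + x464 + x565) ^ 2) + (-1 * (x120
      * x030 + x230 * x010 - x130 * x020 + x121 * x130 - x131 * x120 + x122 * x230 - x232 *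
      x120 - x233 * x130 + x133 * x230 - x124 * x340 - x234 * x140 + x134 * x240 - x125 * x350
      - x235 * x150 + x135 * x250 - x126 * x360 - x236 * x160 + x136 * x260) + 1 * (x020 * x031
      - x030 * x021 + x021 * x131 - x231 * x011 - x031 * x121 + x022 * x231 - x232 * x021 -
      x233 * x031 + x033 * x231 - x024 * x341 - x234 * x041 + x034 * x241 - x025 * x351 - x235
      * x051 + x035 * x251 - x026 * x361 - x236 * x061 + x036 * x261) + -1 * (x010 * x032 -
      x030 * x012 + x011 * x132 - x131 * x012 + x012 * x232 - x132 * x022 + x032 * x122 - x133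
      * x032 + x033 * x132 - x014 * x342 - x134 * x042 + x034 * x142 - x015 * x352 - x135 *
      x052 + x035 * x152 - x016 * x362 - x136 * x062 + x036 * x162) + 1 * (x010 * x023 - x020 *
      x013 + x011 * x123 - x121 * x013 - x122 * x023 + x022 * x123 - x013 * x233 - x123 * x033
      + x023 * x133 - x014 * x243 - x124 * x043 + x024 * x143 - x015 * x253 - x125 * x053 +
      x025 * x153 - x016 * x263 - x126 * x063 + x026 * x163) + -1 * (x140 * x050 + x450 * x010
      - x150 * x040 + x141 * x150 - x151 * x140 + x142 * x250 - x452 * x120 - x152 * x240 +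
      x143 * x350 - x453 * x130 - x153 * x340 + x144 * x450 - x454 * x140 - x455 * x150 + x155
      * x450 - x146 * x560 - x456 * x160 + x156 * x460) + 1 * (x040 * x051 - x050 * x041 + x041
      * x151 - x451 * x011 - x051 * x141 + x042 * x251 - x452 * x021 - x052 * x241 + x043 *
      x351 - x453 * x031 - x053 * x341 + x044 * x451 - x454 * x041 - x455 * x051 + x055 * x451
      - x046 * x561 - x456 * x061 + x056 * x461) + -1 * (x010 * x054 - x050 * x014 + x011 *
      x154 - x151 * x014 + x012 * x254 - x152 * x024 + x052 * x124 + x013 * x354 - x153 * x034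
      + x053 * x134 + x014 * x454 - x154 * x044 + x054 * x144 - x155 * x054 + x055 * x154 -
      x016 * x564 - x156 * x064 + x056 * x164) + 1 * (x010 * x045 - x040 * x015 + x011 * x145 -
      x141 * x015 + x012 * x245 - x142 * x025 + x042 * x125 + x013 * x345 - x143 * x035 + x043
      * x135 - x144 * x045 + x044 * x145 - x015 * x455 - x145 * x055 + x045 * x155 - x016 *
      x465 - x146 * x065 + x046 * x165) + -1 * (x250 * x060 + x560 * x020 - x260 * x050 + x251
      * x160 + x561 * x120 - x261 * x150 + x252 * x260 - x262 * x250 + x253 * x360 - x563 *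
      x230 - x263 * x350 + x254 * x460 - x564 * x240 - x264 * x450 + x255 * x560 - x565 * x250
      - x566 * x260 + x266 * x560) + 1 * (x050 * x062 - x060 * x052 + x051 * x162 - x561 * x012
      - x061 * x152 + x052 * x262 - x562 * x022 - x062 * x252 + x053 * x362 - x563 * x032 -
      x063 * x352 + x054 * x462 - x564 * x042 - x064 * x452 + x055 * x562 - x565 * x052 - x566
      * x062 + x066 * x562) + -1 * (x020 * x065 - x060 * x025 + x021 * x165 - x261 * x015 -
      x061 * x125 + x022 * x265 - x262 * x025 + x023 * x365 - x263 * x035 + x063 * x235 + x024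
      * x465 - x264 * x045 + x064 * x245 + x025 * x565 - x265 * x055 + x065 * x255 - x266 *
      x065 + x066 * x265) + 1 * (x020 * x056 - x050 * x026 + x021 * x156 - x251 * x016 - x051 *
      x126 + x022 * x256 - x252 * x026 + x023 * x356 - x253 * x036 + x053 * x236 + x024 * x456
      - x254 * x046 + x054 * x246 - x255 * x056 + x055 * x256 - x026 * x566 - x256 * x066 +
      x056 * x266) + -1 * (x340 * x060 + x460 * x030 - x360 * x040 + x341 * x160 + x461 * x130
      - x361 * x140 + x342 * x260 + x462 * x230 - x362 * x240 + x343 * x360 - x363 * x340 +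
      x344 * x460 - x464 * x340 + x345 * x560 - x465 * x350 + x365 * x450 - x466 * x360 + x366
      * x460) + 1 * (x040 * x063 - x060 * x043 + x041 * x163 - x461 * x013 - x061 * x143 + x042
      * x263 - x462 * x023 - x062 * x243 + x043 * x363 - x463 * x033 - x063 * x343 + x044 *
      x463 - x464 * x043 + x045 * x563 - x465 * x053 + x065 * x453 - x466 * x063 + x066 * x463)
      + -1 * (x030 * x064 - x060 * x034 + x031 * x164 - x361 * x014 - x061 * x134 + x032 * x264
      - x362 * x024 - x062 * x234 + x033 * x364 - x363 * x034 + x034 * x464 - x364 * x044 +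
      x064 * x344 + x035 * x564 - x365 * x054 + x065 * x354 - x366 * x064 + x066 * x364) + 1 *
      (x030 * x046 - x040 * x036 + x031 * x146 - x341 * x016 - x041 * x136 + x032 * x246 - x342
      * x026 - x042 * x236 + x033 * x346 - x343 * x036 - x344 * x046 + x044 * x346 - x035 *
      x456 - x345 * x056 + x045 * x356 - x036 * x466 - x346 * x066 + x046 * x366) + -1 * (x240
      * x061 + x460 * x021 - x260 * x041 + x241 * x161 + x461 * x121 - x261 * x141 + x242 *
      x261 - x262 * x241 + x243 * x361 - x463 * x231 - x263 * x341 + x244 * x461 - x464 * x241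
      + x245 * x561 - x465 * x251 + x265 * x451 - x466 * x261 + x266 * x461) + 1 * (x140 * x062
      + x460 * x012 - x160 * x042 + x141 * x162 - x161 * x142 + x142 * x262 - x462 * x122 -
      x162 * x242 + x143 * x362 - x463 * x132 - x163 * x342 + x144 * x462 - x464 * x142 + x145
      * x562 - x465 * x152 + x165 * x452 - x466 * x162 + x166 * x462) + -1 * (x120 * x064 +
      x260 * x014 - x160 * x024 + x121 * x164 - x161 * x124 + x122 * x264 - x262 * x124 + x123
      * x364 - x263 * x134 + x163 * x234 + x124 * x464 - x264 * x144 + x164 * x244 + x125 *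
      x564 - x265 * x154 + x165 * x254 - x266 * x164 + x166 * x264) + 1 * (x120 * x046 + x240 *
      x016 - x140 * x026 + x121 * x146 - x141 * x126 + x122 * x246 - x242 * x126 + x123 * x346
      - x243 * x136 + x143 * x236 - x244 * x146 + x144 * x246 - x125 * x456 - x245 * x156 +
      x145 * x256 - x126 * x466 - x246 * x166 + x146 * x266) + -1 * (x340 * x052 + x450 * x032
      - x350 * x042 + x341 * x152 + x451 * x132 - x351 * x142 + x342 * x252 + x452 * x232 -
      x352 * x242 + x343 * x352 - x353 * x342 + x344 * x452 - x454 * x342 - x455 * x352 + x355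
      * x452 - x346 * x562 - x456 * x362 + x356 * x462) + 1 * (x240 * x053 + x450 * x023 - x250
      * x043 + x241 * x153 + x451 * x123 - x251 * x143 + x242 * x253 - x252 * x243 + x243 *
      x353 - x453 * x233 - x253 * x343 + x244 * x453 - x454 * x243 - x455 * x253 + x255 * x453
      - x246 * x563 - x456 * x263 + x256 * x463) + -1 * (x230 * x054 + x350 * x024 - x250 *
      x034 + x231 * x154 + x351 * x124 - x251 * x134 + x232 * x254 - x252 * x234 + x233 * x354
      - x353 * x234 + x234 * x454 - x354 * x244 + x254 * x344 - x355 * x254 + x255 * x354 -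
      x236 * x564 - x356 * x264 + x256 * x364) + 1 * (x230 * x045 + x340 * x025 - x240 * x035 +
      x231 * x145 + x341 * x125 - x241 * x135 + x232 * x245 - x242 * x235 + x233 * x345 - x343
      * x235 - x344 * x245 + x244 * x345 - x235 * x455 - x345 * x255 + x245 * x355 - x236 *
      x465 - x346 * x265 + x246 * x365) + 1 * (x350 * x061 + x560 * x031 - x360 * x051 + x351 *
      x161 + x561 * x131 - x361 * x151 + x352 * x261 + x562 * x231 - x362 * x251 + x353 * x361
      - x363 * x351 + x354 * x461 - x564 * x341 - x364 * x451 + x355 * x561 - x565 * x351 -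
      x566 * x361 + x366 * x561) + -1 * (x150 * x063 + x560 * x013 - x160 * x053 + x151 * x163
      - x161 * x153 + x152 * x263 - x562 * x123 - x162 * x253 + x153 * x363 - x563 * x133 -
      x163 * x353 + x154 * x463 - x564 * x143 - x164 * x453 + x155 * x563 - x565 * x153 - x566
      * x163 + x166 * x563) + 1 * (x130 * x065 + x360 * x015 - x160 * x035 + x131 * x165 - x161
      * x135 + x132 * x265 - x362 * x125 - x162 * x235 + x133 * x365 - x363 * x135 + x134 *
      x465 - x364 * x145 + x164 * x345 + x135 * x565 - x365 * x155 + x165 * x355 - x366 * x165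
      + x166 * x365) + -1 * (x130 * x056 + x350 * x016 - x150 * x036 + x131 * x156 - x151 *
      x136 + x132 * x256 - x352 * x126 - x152 * x236 + x133 * x356 - x353 * x136 + x134 * x456
      - x354 * x146 + x154 * x346 - x355 * x156 + x155 * x356 - x136 * x566 - x356 * x166 +
      x156 * x366)) =
    -1/2 * ((-x016 - x024 + x035 + x125 + x134 - x236) ^ 2 + (-x010 + x023 + x045 + x122 + x144
      - x246) ^ 2 + (x011 + x022 + x055 - x123 + x154 - x256) ^ 2 + (x013 + x020 + x065 + x121
      + x164 - x266) ^ 2 + (x011 + x033 + x044 + x132 - x145 - x346) ^ 2 + (x010 + x032 + x054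
      - x133 - x155 - x356) ^ 2 + (-x012 + x030 + x064 + x131 - x165 - x366) ^ 2 + (-x016 +
      x042 - x053 - x143 - x152 - x456) ^ 2 + (x015 + x040 - x063 + x141 - x162 - x466) ^ 2 +
      (-x014 + x050 - x062 + x151 + x163 - x566) ^ 2 + (x021 + x030 - x046 + x232 - x245 -
      x344) ^ 2 + (x020 - x031 - x056 - x233 - x255 - x354) ^ 2 + (-x022 - x033 - x066 + x231 -
      x265 - x364) ^ 2 + (-x026 - x041 - x050 - x243 - x252 - x454) ^ 2 + (x025 - x043 - x060 +
      x241 - x262 - x464) ^ 2 + (-x024 - x053 + x061 + x251 + x263 - x564) ^ 2 + (-x036 - x040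
      + x051 - x343 - x352 + x455) ^ 2 + (x035 + x042 + x061 + x341 - x362 + x465) ^ 2 + (-x034
      + x052 + x060 + x351 + x363 + x565) ^ 2 + (-x044 - x055 - x066 + x451 + x463 + x562) ^ 2
      + (x121 + x130 - x146 - x233 - x244 + x345) ^ 2 + (x120 - x131 - x156 - x232 - x254 +
      x355) ^ 2 + (-x122 - x133 - x166 - x230 - x264 + x365) ^ 2 + (-x126 - x141 - x150 - x242
      + x253 + x455) ^ 2 + (x125 - x143 - x160 - x240 + x263 + x465) ^ 2 + (-x124 - x153 + x161
      - x250 + x262 + x565) ^ 2 + (-x136 - x140 + x151 - x342 + x353 + x454) ^ 2 + (x135 + x142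
      + x161 - x340 + x363 + x464) ^ 2 + (-x134 + x152 + x160 - x350 + x362 + x564) ^ 2 +
      (-x144 - x155 - x166 - x450 + x462 - x563) ^ 2 + (-x236 - x240 + x251 + x341 + x350 -
      x456) ^ 2 + (x235 + x242 + x261 + x343 + x360 - x466) ^ 2 + (-x234 + x252 + x260 + x353 -
      x361 - x566) ^ 2 + (-x244 - x255 - x266 + x453 - x461 - x560) ^ 2 + (-x344 - x355 - x366
      - x452 - x460 + x561) ^ 2) + 1/8 * ((-x016 - x024 + x035 + x125 + x134 - x236) + (-x016 +
      x042 - x053 - x143 - x152 - x456) + (-x024 - x053 + x061 + x251 + x263 - x564) + (x035 +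
      x042 + x061 + x341 - x362 + x465) + (x125 - x143 - x160 - x240 + x263 + x465) - (-x134 +
      x152 + x160 - x350 + x362 + x564) + (-x236 - x240 + x251 + x341 + x350 - x456)) ^ 2 + 1/2
      * ((-(x011 + x022 + x055 - x123 + x154 - x256) - (x011 + x033 + x044 + x132 - x145 -
      x346) + (-x022 - x033 - x066 + x231 - x265 - x364) + (-x044 - x055 - x066 + x451 + x463 +
      x562)) ^ 2 + (-(-x010 + x023 + x045 + x122 + x144 - x246) + (x010 + x032 + x054 - x133 -
      x155 - x356) + (-x122 - x133 - x166 - x230 - x264 + x365) + (-x144 - x155 - x166 - x450 +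
      x462 - x563)) ^ 2 + ((x013 + x020 + x065 + x121 + x164 - x266) + (x020 - x031 - x056 -
      x233 - x255 - x354) + (x121 + x130 - x146 - x233 - x244 + x345) + (-x244 - x255 - x266 +
      x453 - x461 - x560)) ^ 2 + ((-x012 + x030 + x064 + x131 - x165 - x366) + (x021 + x030 -
      x046 + x232 - x245 - x344) - (x120 - x131 - x156 - x232 - x254 + x355) + (-x344 - x355 -
      x366 - x452 - x460 + x561)) ^ 2 + ((x015 + x040 - x063 + x141 - x162 - x466) - (-x036 -
      x040 + x051 - x343 - x352 + x455) - (-x126 - x141 - x150 - x242 + x253 + x455) + (x235 +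
      x242 + x261 + x343 + x360 - x466)) ^ 2 + ((-x014 + x050 - x062 + x151 + x163 - x566) -
      (-x026 - x041 - x050 - x243 - x252 - x454) + (-x136 - x140 + x151 - x342 + x353 + x454) +
      (-x234 + x252 + x260 + x353 - x361 - x566)) ^ 2 + (-(x025 - x043 - x060 + x241 - x262 -
      x464) + (-x034 + x052 + x060 + x351 + x363 + x565) + (-x124 - x153 + x161 - x250 + x262 +
      x565) + (x135 + x142 + x161 - x340 + x363 + x464)) ^ 2) + ((x011 + x022 + x033 + x044 +
      x055 + x066) * (-(x011 + x022 + x055 - x123 + x154 - x256) - (x011 + x033 + x044 + x132 -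
      x145 - x346) + (-x022 - x033 - x066 + x231 - x265 - x364) + (-x044 - x055 - x066 + x451 +
      x463 + x562)) + (-x010 + x122 + x133 + x144 + x155 + x166) * (-(-x010 + x023 + x045 +
      x122 + x144 - x246) + (x010 + x032 + x054 - x133 - x155 - x356) + (-x122 - x133 - x166 -
      x230 - x264 + x365) + (-x144 - x155 - x166 - x450 + x462 - x563)) + (-x020 - x121 + x233
      + x244 + x255 + x266) * ((x013 + x020 + x065 + x121 + x164 - x266) + (x020 - x031 - x056
      - x233 - x255 - x354) + (x121 + x130 - x146 - x233 - x244 + x345) + (-x244 - x255 - x266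
      + x453 - x461 - x560)) + (-x030 - x131 - x232 + x344 + x355 + x366) * ((-x012 + x030 +
      x064 + x131 - x165 - x366) + (x021 + x030 - x046 + x232 - x245 - x344) - (x120 - x131 -
      x156 - x232 - x254 + x355) + (-x344 - x355 - x366 - x452 - x460 + x561)) + (-x040 - x141
      - x242 - x343 + x455 + x466) * ((x015 + x040 - x063 + x141 - x162 - x466) - (-x036 - x040
      + x051 - x343 - x352 + x455) - (-x126 - x141 - x150 - x242 + x253 + x455) + (x235 + x242
      + x261 + x343 + x360 - x466)) + (-x050 - x151 - x252 - x353 - x454 + x566) * ((-x014 +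
      x050 - x062 + x151 + x163 - x566) - (-x026 - x041 - x050 - x243 - x252 - x454) + (-x136 -
      x140 + x151 - x342 + x353 + x454) + (-x234 + x252 + x260 + x353 - x361 - x566)) + (-x060
      - x161 - x262 - x363 - x464 - x565) * (-(x025 - x043 - x060 + x241 - x262 - x464) +
      (-x034 + x052 + x060 + x351 + x363 + x565) + (-x124 - x153 + x161 - x250 + x262 + x565) +
      (x135 + x142 + x161 - x340 + x363 + x464))) := by
  ring

end Pool.Agent.H787.SP
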