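import Pool.Agent.H787.SP.G2D

/-! Components of `dφ` and `d∗φ`. -/

set_option autoImplicit false
set_option linter.unusedSimpArgs false
set_option maxRecDepth 100000

namespace Pool.Agent.H787.SP

theorem L0123 (μ : Fin 7 → Fin 7 → Fin 7 → ℝ) :
    dd3 μ phiR 0 1 2 3 = (-μ 0 1 6 - μ 0 2 4 + μ 0 3 5 + μ 1 2 5 + μ 1 3 4 - μ 2 3 6) := by
  simp only [dd3, Fin.sum_univ_seven, phiR, phi_v0, phi_v1, phi_v2, phi_v3, phi_v4, phi_v5,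
    phi_v6,
    Int.cast_zero, Int.cast_one, Int.cast_neg, mul_zero, mul_one, mul_neg, neg_neg, neg_zero,
      add_zero, zero_add, sub_zero, zero_sub]
  ring

theorem L0124 (μ : Fin 7 → Fin 7 → Fin 7 → ℝ) :
    dd3 μ phiR 0 1 2 4 = (-μ 0 1 0 + μ 0 2 3 + μ 0 4 5 + μ 1 2 2 + μ 1 4 4 - μ 2 4 6) := by
  simp only [dd3, Fin.sum_univ_seven, phiR, phi_v0, phi_v1, phi_v2, phi_v3, phi_v4, phi_v5,
    phi_v6,
    Int.cast_zero, Int.cast_one, Int.cast_neg, mul_zero, mul_one, mul_neg, neg_neg, neg_zero,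
      add_zero, zero_add, sub_zero, zero_sub]
  ring

theorem L0125 (μ : Fin 7 → Fin 7 → Fin 7 → ℝ) :
    dd3 μ phiR 0 1 2 5 = (μ 0 1 1 + μ 0 2 2 + μ 0 5 5 - μ 1 2 3 + μ 1 5 4 - μ 2 5 6) := by
  simp only [dd3, Fin.sum_univ_seven, phiR, phi_v0, phi_v1, phi_v2, phi_v3, phi_v4, phi_v5,
    phi_v6,
    Int.cast_zero, Int.cast_one, Int.cast_neg, mul_zero, mul_one, mul_neg, neg_neg, neg_zero,
      add_zero, zero_add, sub_zero, zero_sub]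
  ring

theorem L0126 (μ : Fin 7 → Fin 7 → Fin 7 → ℝ) :
    dd3 μ phiR 0 1 2 6 = (μ 0 1 3 + μ 0 2 0 + μ 0 6 5 + μ 1 2 1 + μ 1 6 4 - μ 2 6 6) := by
  simp only [dd3, Fin.sum_univ_seven, phiR, phi_v0, phi_v1, phi_v2, phi_v3, phi_v4, phi_v5,
    phi_v6,
    Int.cast_zero, Int.cast_one, Int.cast_neg, mul_zero, mul_one, mul_neg, neg_neg, neg_zero,
      add_zero, zero_add, sub_zero, zero_sub]
  ring

theorem L0134 (μ : Fin 7 → Fin 7 → Fin 7 → ℝ) :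
    dd3 μ phiR 0 1 3 4 = (μ 0 1 1 + μ 0 3 3 + μ 0 4 4 + μ 1 3 2 - μ 1 4 5 - μ 3 4 6) := by
  simp only [dd3, Fin.sum_univ_seven, phiR, phi_v0, phi_v1, phi_v2, phi_v3, phi_v4, phi_v5,
    phi_v6,
    Int.cast_zero, Int.cast_one, Int.cast_neg, mul_zero, mul_one, mul_neg, neg_neg, neg_zero,
      add_zero, zero_add, sub_zero, zero_sub]
  ring

theorem L0135 (μ : Fin 7 → Fin 7 → Fin 7 → ℝ) :
    dd3 μ phiR 0 1 3 5 = (μ 0 1 0 + μ 0 3 2 + μ 0 5 4 - μ 1 3 3 - μ 1 5 5 - μ 3 5 6) := by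
  simp only [dd3, Fin.sum_univ_seven, phiR, phi_v0, phi_v1, phi_v2, phi_v3, phi_v4, phi_v5,
    phi_v6,
    Int.cast_zero, Int.cast_one, Int.cast_neg, mul_zero, mul_one, mul_neg, neg_neg, neg_zero,
      add_zero, zero_add, sub_zero, zero_sub]
  ring

theorem L0136 (μ : Fin 7 → Fin 7 → Fin 7 → ℝ) :
    dd3 μ phiR 0 1 3 6 = (-μ 0 1 2 + μ 0 3 0 + μ 0 6 4 + μ 1 3 1 - μ 1 6 5 - μ 3 6 6) := by
  simp only [dd3, Fin.sum_univ_seven, phiR, phi_v0, phi_v1, phi_v2, phi_v3, phi_v4, phi_v5,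
    phi_v6,
    Int.cast_zero, Int.cast_one, Int.cast_neg, mul_zero, mul_one, mul_neg, neg_neg, neg_zero,
      add_zero, zero_add, sub_zero, zero_sub]
  ring

theorem L0145 (μ : Fin 7 → Fin 7 → Fin 7 → ℝ) :
    dd3 μ phiR 0 1 4 5 = (-μ 0 1 6 + μ 0 4 2 - μ 0 5 3 - μ 1 4 3 - μ 1 5 2 - μ 4 5 6) := by
  simp only [dd3, Fin.sum_univ_seven, phiR, phi_v0, phi_v1, phi_v2, phi_v3, phi_v4, phi_v5,
    phi_v6,
    Int.cast_zero, Int.cast_one, Int.cast_neg, mul_zero, mul_one, mul_neg, neg_neg, neg_zero,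
      add_zero, zero_add, sub_zero, zero_sub]
  ring

theorem L0146 (μ : Fin 7 → Fin 7 → Fin 7 → ℝ) :
    dd3 μ phiR 0 1 4 6 = (μ 0 1 5 + μ 0 4 0 - μ 0 6 3 + μ 1 4 1 - μ 1 6 2 - μ 4 6 6) := by
  simp only [dd3, Fin.sum_univ_seven, phiR, phi_v0, phi_v1, phi_v2, phi_v3, phi_v4, phi_v5,
    phi_v6,
    Int.cast_zero, Int.cast_one, Int.cast_neg, mul_zero, mul_one, mul_neg, neg_neg, neg_zero,
      add_zero, zero_add, sub_zero, zero_sub]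
  ring

theorem L0156 (μ : Fin 7 → Fin 7 → Fin 7 → ℝ) :
    dd3 μ phiR 0 1 5 6 = (-μ 0 1 4 + μ 0 5 0 - μ 0 6 2 + μ 1 5 1 + μ 1 6 3 - μ 5 6 6) := by
  simp only [dd3, Fin.sum_univ_seven, phiR, phi_v0, phi_v1, phi_v2, phi_v3, phi_v4, phi_v5,
    phi_v6,
    Int.cast_zero, Int.cast_one, Int.cast_neg, mul_zero, mul_one, mul_neg, neg_neg, neg_zero,
      add_zero, zero_add, sub_zero, zero_sub]
  ring

theorem L0234 (μ : Fin 7 → Fin 7 → Fin 7 → ℝ) :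
    dd3 μ phiR 0 2 3 4 = (μ 0 2 1 + μ 0 3 0 - μ 0 4 6 + μ 2 3 2 - μ 2 4 5 - μ 3 4 4) := by
  simp only [dd3, Fin.sum_univ_seven, phiR, phi_v0, phi_v1, phi_v2, phi_v3, phi_v4, phi_v5,
    phi_v6,
    Int.cast_zero, Int.cast_one, Int.cast_neg, mul_zero, mul_one, mul_neg, neg_neg, neg_zero,
      add_zero, zero_add, sub_zero, zero_sub]
  ring

theorem L0235 (μ : Fin 7 → Fin 7 → Fin 7 → ℝ) :
    dd3 μ phiR 0 2 3 5 = (μ 0 2 0 - μ 0 3 1 - μ 0 5 6 - μ 2 3 3 - μ 2 5 5 - μ 3 5 4) := by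
  simp only [dd3, Fin.sum_univ_seven, phiR, phi_v0, phi_v1, phi_v2, phi_v3, phi_v4, phi_v5,
    phi_v6,
    Int.cast_zero, Int.cast_one, Int.cast_neg, mul_zero, mul_one, mul_neg, neg_neg, neg_zero,
      add_zero, zero_add, sub_zero, zero_sub]
  ring

theorem L0236 (μ : Fin 7 → Fin 7 → Fin 7 → ℝ) :
    dd3 μ phiR 0 2 3 6 = (-μ 0 2 2 - μ 0 3 3 - μ 0 6 6 + μ 2 3 1 - μ 2 6 5 - μ 3 6 4) := by
  simp only [dd3, Fin.sum_univ_seven, phiR, phi_v0, phi_v1, phi_v2, phi_v3, phi_v4, phi_v5,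
    phi_v6,
    Int.cast_zero, Int.cast_one, Int.cast_neg, mul_zero, mul_one, mul_neg, neg_neg, neg_zero,
      add_zero, zero_add, sub_zero, zero_sub]
  ring

theorem L0245 (μ : Fin 7 → Fin 7 → Fin 7 → ℝ) :
    dd3 μ phiR 0 2 4 5 = (-μ 0 2 6 - μ 0 4 1 - μ 0 5 0 - μ 2 4 3 - μ 2 5 2 - μ 4 5 4) := by
  simp only [dd3, Fin.sum_univ_seven, phiR, phi_v0, phi_v1, phi_v2, phi_v3, phi_v4, phi_v5,
    phi_v6,
    Int.cast_zero, Int.cast_one, Int.cast_neg, mul_zero, mul_one, mul_neg, neg_neg, neg_zero,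
      add_zero, zero_add, sub_zero, zero_sub]
  ring

theorem L0246 (μ : Fin 7 → Fin 7 → Fin 7 → ℝ) :
    dd3 μ phiR 0 2 4 6 = (μ 0 2 5 - μ 0 4 3 - μ 0 6 0 + μ 2 4 1 - μ 2 6 2 - μ 4 6 4) := by
  simp only [dd3, Fin.sum_univ_seven, phiR, phi_v0, phi_v1, phi_v2, phi_v3, phi_v4, phi_v5,
    phi_v6,
    Int.cast_zero, Int.cast_one, Int.cast_neg, mul_zero, mul_one, mul_neg, neg_neg, neg_zero,
      add_zero, zero_add, sub_zero, zero_sub]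
  ring

theorem L0256 (μ : Fin 7 → Fin 7 → Fin 7 → ℝ) :
    dd3 μ phiR 0 2 5 6 = (-μ 0 2 4 - μ 0 5 3 + μ 0 6 1 + μ 2 5 1 + μ 2 6 3 - μ 5 6 4) := by
  simp only [dd3, Fin.sum_univ_seven, phiR, phi_v0, phi_v1, phi_v2, phi_v3, phi_v4, phi_v5,
    phi_v6,
    Int.cast_zero, Int.cast_one, Int.cast_neg, mul_zero, mul_one, mul_neg, neg_neg, neg_zero,
      add_zero, zero_add, sub_zero, zero_sub]
  ring

theorem L0345 (μ : Fin 7 → Fin 7 → Fin 7 → ℝ) :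
    dd3 μ phiR 0 3 4 5 = (-μ 0 3 6 - μ 0 4 0 + μ 0 5 1 - μ 3 4 3 - μ 3 5 2 + μ 4 5 5) := by
  simp only [dd3, Fin.sum_univ_seven, phiR, phi_v0, phi_v1, phi_v2, phi_v3, phi_v4, phi_v5,
    phi_v6,
    Int.cast_zero, Int.cast_one, Int.cast_neg, mul_zero, mul_one, mul_neg, neg_neg, neg_zero,
      add_zero, zero_add, sub_zero, zero_sub]
  ring

theorem L0346 (μ : Fin 7 → Fin 7 → Fin 7 → ℝ) :
    dd3 μ phiR 0 3 4 6 = (μ 0 3 5 + μ 0 4 2 + μ 0 6 1 + μ 3 4 1 - μ 3 6 2 + μ 4 6 5) := by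
  simp only [dd3, Fin.sum_univ_seven, phiR, phi_v0, phi_v1, phi_v2, phi_v3, phi_v4, phi_v5,
    phi_v6,
    Int.cast_zero, Int.cast_one, Int.cast_neg, mul_zero, mul_one, mul_neg, neg_neg, neg_zero,
      add_zero, zero_add, sub_zero, zero_sub]
  ring

theorem L0356 (μ : Fin 7 → Fin 7 → Fin 7 → ℝ) :
    dd3 μ phiR 0 3 5 6 = (-μ 0 3 4 + μ 0 5 2 + μ 0 6 0 + μ 3 5 1 + μ 3 6 3 + μ 5 6 5) := by
  simp only [dd3, Fin.sum_univ_seven, phiR, phi_v0, phi_v1, phi_v2, phi_v3, phi_v4, phi_v5,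
    phi_v6,
    Int.cast_zero, Int.cast_one, Int.cast_neg, mul_zero, mul_one, mul_neg, neg_neg, neg_zero,
      add_zero, zero_add, sub_zero, zero_sub]
  ring

theorem L0456 (μ : Fin 7 → Fin 7 → Fin 7 → ℝ) :
    dd3 μ phiR 0 4 5 6 = (-μ 0 4 4 - μ 0 5 5 - μ 0 6 6 + μ 4 5 1 + μ 4 6 3 + μ 5 6 2) := by
  simp only [dd3, Fin.sum_univ_seven, phiR, phi_v0, phi_v1, phi_v2, phi_v3, phi_v4, phi_v5,
    phi_v6,
    Int.cast_zero, Int.cast_one, Int.cast_neg, mul_zero, mul_one, mul_neg, neg_neg, neg_zero,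
      add_zero, zero_add, sub_zero, zero_sub]
  ring

theorem L1234 (μ : Fin 7 → Fin 7 → Fin 7 → ℝ) :
    dd3 μ phiR 1 2 3 4 = (μ 1 2 1 + μ 1 3 0 - μ 1 4 6 - μ 2 3 3 - μ 2 4 4 + μ 3 4 5) := by
  simp only [dd3, Fin.sum_univ_seven, phiR, phi_v0, phi_v1, phi_v2, phi_v3, phi_v4, phi_v5,
    phi_v6,
    Int.cast_zero, Int.cast_one, Int.cast_neg, mul_zero, mul_one, mul_neg, neg_neg, neg_zero,
      add_zero, zero_add, sub_zero, zero_sub]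
  ring

theorem L1235 (μ : Fin 7 → Fin 7 → Fin 7 → ℝ) :
    dd3 μ phiR 1 2 3 5 = (μ 1 2 0 - μ 1 3 1 - μ 1 5 6 - μ 2 3 2 - μ 2 5 4 + μ 3 5 5) := by
  simp only [dd3, Fin.sum_univ_seven, phiR, phi_v0, phi_v1, phi_v2, phi_v3, phi_v4, phi_v5,
    phi_v6,
    Int.cast_zero, Int.cast_one, Int.cast_neg, mul_zero, mul_one, mul_neg, neg_neg, neg_zero,
      add_zero, zero_add, sub_zero, zero_sub]
  ring

theorem L1236 (μ : Fin 7 → Fin 7 → Fin 7 → ℝ) :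
    dd3 μ phiR 1 2 3 6 = (-μ 1 2 2 - μ 1 3 3 - μ 1 6 6 - μ 2 3 0 - μ 2 6 4 + μ 3 6 5) := by
  simp only [dd3, Fin.sum_univ_seven, phiR, phi_v0, phi_v1, phi_v2, phi_v3, phi_v4, phi_v5,
    phi_v6,
    Int.cast_zero, Int.cast_one, Int.cast_neg, mul_zero, mul_one, mul_neg, neg_neg, neg_zero,
      add_zero, zero_add, sub_zero, zero_sub]
  ring

theorem L1245 (μ : Fin 7 → Fin 7 → Fin 7 → ℝ) :
    dd3 μ phiR 1 2 4 5 = (-μ 1 2 6 - μ 1 4 1 - μ 1 5 0 - μ 2 4 2 + μ 2 5 3 + μ 4 5 5) := by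
  simp only [dd3, Fin.sum_univ_seven, phiR, phi_v0, phi_v1, phi_v2, phi_v3, phi_v4, phi_v5,
    phi_v6,
    Int.cast_zero, Int.cast_one, Int.cast_neg, mul_zero, mul_one, mul_neg, neg_neg, neg_zero,
      add_zero, zero_add, sub_zero, zero_sub]
  ring

theorem L1246 (μ : Fin 7 → Fin 7 → Fin 7 → ℝ) :
    dd3 μ phiR 1 2 4 6 = (μ 1 2 5 - μ 1 4 3 - μ 1 6 0 - μ 2 4 0 + μ 2 6 3 + μ 4 6 5) := by
  simp only [dd3, Fin.sum_univ_seven, phiR, phi_v0, phi_v1, phi_v2, phi_v3, phi_v4, phi_v5,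
    phi_v6,
    Int.cast_zero, Int.cast_one, Int.cast_neg, mul_zero, mul_one, mul_neg, neg_neg, neg_zero,
      add_zero, zero_add, sub_zero, zero_sub]
  ring

theorem L1256 (μ : Fin 7 → Fin 7 → Fin 7 → ℝ) :
    dd3 μ phiR 1 2 5 6 = (-μ 1 2 4 - μ 1 5 3 + μ 1 6 1 - μ 2 5 0 + μ 2 6 2 + μ 5 6 5) := by
  simp only [dd3, Fin.sum_univ_seven, phiR, phi_v0, phi_v1, phi_v2, phi_v3, phi_v4, phi_v5,
    phi_v6,
    Int.cast_zero, Int.cast_one, Int.cast_neg, mul_zero, mul_one, mul_neg, neg_neg, neg_zero,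
      add_zero, zero_add, sub_zero, zero_sub]
  ring

theorem L1345 (μ : Fin 7 → Fin 7 → Fin 7 → ℝ) :
    dd3 μ phiR 1 3 4 5 = (-μ 1 3 6 - μ 1 4 0 + μ 1 5 1 - μ 3 4 2 + μ 3 5 3 + μ 4 5 4) := by
  simp only [dd3, Fin.sum_univ_seven, phiR, phi_v0, phi_v1, phi_v2, phi_v3, phi_v4, phi_v5,
    phi_v6,
    Int.cast_zero, Int.cast_one, Int.cast_neg, mul_zero, mul_one, mul_neg, neg_neg, neg_zero,
      add_zero, zero_add, sub_zero, zero_sub]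
  ring

theorem L1346 (μ : Fin 7 → Fin 7 → Fin 7 → ℝ) :
    dd3 μ phiR 1 3 4 6 = (μ 1 3 5 + μ 1 4 2 + μ 1 6 1 - μ 3 4 0 + μ 3 6 3 + μ 4 6 4) := by
  simp only [dd3, Fin.sum_univ_seven, phiR, phi_v0, phi_v1, phi_v2, phi_v3, phi_v4, phi_v5,
    phi_v6,
    Int.cast_zero, Int.cast_one, Int.cast_neg, mul_zero, mul_one, mul_neg, neg_neg, neg_zero,
      add_zero, zero_add, sub_zero, zero_sub]
  ring

theorem L1356 (μ : Fin 7 → Fin 7 → Fin 7 → ℝ) :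
    dd3 μ phiR 1 3 5 6 = (-μ 1 3 4 + μ 1 5 2 + μ 1 6 0 - μ 3 5 0 + μ 3 6 2 + μ 5 6 4) := by
  simp only [dd3, Fin.sum_univ_seven, phiR, phi_v0, phi_v1, phi_v2, phi_v3, phi_v4, phi_v5,
    phi_v6,
    Int.cast_zero, Int.cast_one, Int.cast_neg, mul_zero, mul_one, mul_neg, neg_neg, neg_zero,
      add_zero, zero_add, sub_zero, zero_sub]
  ring

theorem L1456 (μ : Fin 7 → Fin 7 → Fin 7 → ℝ) :
    dd3 μ phiR 1 4 5 6 = (-μ 1 4 4 - μ 1 5 5 - μ 1 6 6 - μ 4 5 0 + μ 4 6 2 - μ 5 6 3) := by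
  simp only [dd3, Fin.sum_univ_seven, phiR, phi_v0, phi_v1, phi_v2, phi_v3, phi_v4, phi_v5,
    phi_v6,
    Int.cast_zero, Int.cast_one, Int.cast_neg, mul_zero, mul_one, mul_neg, neg_neg, neg_zero,
      add_zero, zero_add, sub_zero, zero_sub]
  ring

theorem L2345 (μ : Fin 7 → Fin 7 → Fin 7 → ℝ) :
    dd3 μ phiR 2 3 4 5 = (-μ 2 3 6 - μ 2 4 0 + μ 2 5 1 + μ 3 4 1 + μ 3 5 0 - μ 4 5 6) := by
  simp only [dd3, Fin.sum_univ_seven, phiR, phi_v0, phi_v1, phi_v2, phi_v3, phi_v4, phi_v5,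
    phi_v6,
    Int.cast_zero, Int.cast_one, Int.cast_neg, mul_zero, mul_one, mul_neg, neg_neg, neg_zero,
      add_zero, zero_add, sub_zero, zero_sub]
  ring

theorem L2346 (μ : Fin 7 → Fin 7 → Fin 7 → ℝ) :
    dd3 μ phiR 2 3 4 6 = (μ 2 3 5 + μ 2 4 2 + μ 2 6 1 + μ 3 4 3 + μ 3 6 0 - μ 4 6 6) := by
  simp only [dd3, Fin.sum_univ_seven, phiR, phi_v0, phi_v1, phi_v2, phi_v3, phi_v4, phi_v5,
    phi_v6,
    Int.cast_zero, Int.cast_one, Int.cast_neg, mul_zero, mul_one, mul_neg, neg_neg, neg_zero,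
      add_zero, zero_add, sub_zero, zero_sub]
  ring

theorem L2356 (μ : Fin 7 → Fin 7 → Fin 7 → ℝ) :
    dd3 μ phiR 2 3 5 6 = (-μ 2 3 4 + μ 2 5 2 + μ 2 6 0 + μ 3 5 3 - μ 3 6 1 - μ 5 6 6) := by
  simp only [dd3, Fin.sum_univ_seven, phiR, phi_v0, phi_v1, phi_v2, phi_v3, phi_v4, phi_v5,
    phi_v6,
    Int.cast_zero, Int.cast_one, Int.cast_neg, mul_zero, mul_one, mul_neg, neg_neg, neg_zero,
      add_zero, zero_add, sub_zero, zero_sub]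
  ring

theorem L2456 (μ : Fin 7 → Fin 7 → Fin 7 → ℝ) :
    dd3 μ phiR 2 4 5 6 = (-μ 2 4 4 - μ 2 5 5 - μ 2 6 6 + μ 4 5 3 - μ 4 6 1 - μ 5 6 0) := by
  simp only [dd3, Fin.sum_univ_seven, phiR, phi_v0, phi_v1, phi_v2, phi_v3, phi_v4, phi_v5,
    phi_v6,
    Int.cast_zero, Int.cast_one, Int.cast_neg, mul_zero, mul_one, mul_neg, neg_neg, neg_zero,
      add_zero, zero_add, sub_zero, zero_sub]
  ring

theorem L3456 (μ : Fin 7 → Fin 7 → Fin 7 → ℝ) :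
    dd3 μ phiR 3 4 5 6 = (-μ 3 4 4 - μ 3 5 5 - μ 3 6 6 - μ 4 5 2 - μ 4 6 0 + μ 5 6 1) := by
  simp only [dd3, Fin.sum_univ_seven, phiR, phi_v0, phi_v1, phi_v2, phi_v3, phi_v4, phi_v5,
    phi_v6,
    Int.cast_zero, Int.cast_one, Int.cast_neg, mul_zero, mul_one, mul_neg, neg_neg, neg_zero,
      add_zero, zero_add, sub_zero, zero_sub]
  ring

theorem M01234 (μ : Fin 7 → Fin 7 → Fin 7 → ℝ) :
    dd4 μ psiR 0 1 2 3 4 = (μ 0 1 5 + μ 0 3 6 + μ 0 4 0 + μ 1 2 6 + μ 1 4 1 + μ 2 3 5 + μ 2 4 2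
      + μ 3 4 3) := by
  simp only [dd4, Fin.sum_univ_seven, psiR, psi_v0, psi_v1, psi_v2, psi_v3, psi_v4, psi_v5,
    psi_v6,
    Int.cast_zero, Int.cast_one, Int.cast_neg, mul_zero, mul_one, mul_neg, neg_neg, neg_zero,
      add_zero, zero_add, sub_zero, zero_sub]
  ring

theorem M01235 (μ : Fin 7 → Fin 7 → Fin 7 → ℝ) :
    dd4 μ psiR 0 1 2 3 5 = (-μ 0 1 4 + μ 0 2 6 + μ 0 5 0 - μ 1 3 6 + μ 1 5 1 - μ 2 3 4 + μ 2 5
      2 + μ 3 5 3) := by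
  simp only [dd4, Fin.sum_univ_seven, psiR, psi_v0, psi_v1, psi_v2, psi_v3, psi_v4, psi_v5,
    psi_v6,
    Int.cast_zero, Int.cast_one, Int.cast_neg, mul_zero, mul_one, mul_neg, neg_neg, neg_zero,
      add_zero, zero_add, sub_zero, zero_sub]
  ring

theorem M01236 (μ : Fin 7 → Fin 7 → Fin 7 → ℝ) :
    dd4 μ psiR 0 1 2 3 6 = (-μ 0 2 5 - μ 0 3 4 + μ 0 6 0 - μ 1 2 4 + μ 1 3 5 + μ 1 6 1 + μ 2 6
      2 + μ 3 6 3) := by
  simp only [dd4, Fin.sum_univ_seven, psiR, psi_v0, psi_v1, psi_v2, psi_v3, psi_v4, psi_v5,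
    psi_v6,
    Int.cast_zero, Int.cast_one, Int.cast_neg, mul_zero, mul_one, mul_neg, neg_neg, neg_zero,
      add_zero, zero_add, sub_zero, zero_sub]
  ring

theorem M01245 (μ : Fin 7 → Fin 7 → Fin 7 → ℝ) :
    dd4 μ psiR 0 1 2 4 5 = (μ 0 1 3 + μ 0 2 0 - μ 0 5 6 + μ 1 2 1 - μ 1 4 6 - μ 2 4 4 - μ 2 5 5
      + μ 4 5 3) := by
  simp only [dd4, Fin.sum_univ_seven, psiR, psi_v0, psi_v1, psi_v2, psi_v3, psi_v4, psi_v5,
    psi_v6,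
    Int.cast_zero, Int.cast_one, Int.cast_neg, mul_zero, mul_one, mul_neg, neg_neg, neg_zero,
      add_zero, zero_add, sub_zero, zero_sub]
  ring

theorem M01246 (μ : Fin 7 → Fin 7 → Fin 7 → ℝ) :
    dd4 μ psiR 0 1 2 4 6 = (-μ 0 1 1 - μ 0 2 2 - μ 0 4 4 - μ 0 6 6 + μ 1 2 3 + μ 1 4 5 - μ 2 6
      5 + μ 4 6 3) := by
  simp only [dd4, Fin.sum_univ_seven, psiR, psi_v0, psi_v1, psi_v2, psi_v3, psi_v4, psi_v5,
    psi_v6,
    Int.cast_zero, Int.cast_one, Int.cast_neg, mul_zero, mul_one, mul_neg, neg_neg, neg_zero,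
      add_zero, zero_add, sub_zero, zero_sub]
  ring

theorem M01256 (μ : Fin 7 → Fin 7 → Fin 7 → ℝ) :
    dd4 μ psiR 0 1 2 5 6 = (-μ 0 1 0 + μ 0 2 3 - μ 0 5 4 + μ 1 2 2 + μ 1 5 5 + μ 1 6 6 + μ 2 6
      4 + μ 5 6 3) := by
  simp only [dd4, Fin.sum_univ_seven, psiR, psi_v0, psi_v1, psi_v2, psi_v3, psi_v4, psi_v5,
    psi_v6,
    Int.cast_zero, Int.cast_one, Int.cast_neg, mul_zero, mul_one, mul_neg, neg_neg, neg_zero,
      add_zero, zero_add, sub_zero, zero_sub]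
  ring

theorem M01345 (μ : Fin 7 → Fin 7 → Fin 7 → ℝ) :
    dd4 μ psiR 0 1 3 4 5 = (-μ 0 1 2 + μ 0 3 0 - μ 0 4 6 + μ 1 3 1 + μ 1 5 6 - μ 3 4 4 - μ 3 5
      5 - μ 4 5 2) := by
  simp only [dd4, Fin.sum_univ_seven, psiR, psi_v0, psi_v1, psi_v2, psi_v3, psi_v4, psi_v5,
    psi_v6,
    Int.cast_zero, Int.cast_one, Int.cast_neg, mul_zero, mul_one, mul_neg, neg_neg, neg_zero,
      add_zero, zero_add, sub_zero, zero_sub]
  ring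

theorem M01346 (μ : Fin 7 → Fin 7 → Fin 7 → ℝ) :
    dd4 μ psiR 0 1 3 4 6 = (-μ 0 1 0 - μ 0 3 2 + μ 0 4 5 + μ 1 3 3 + μ 1 4 4 + μ 1 6 6 - μ 3 6
      5 - μ 4 6 2) := by
  simp only [dd4, Fin.sum_univ_seven, psiR, psi_v0, psi_v1, psi_v2, psi_v3, psi_v4, psi_v5,
    psi_v6,
    Int.cast_zero, Int.cast_one, Int.cast_neg, mul_zero, mul_one, mul_neg, neg_neg, neg_zero,
      add_zero, zero_add, sub_zero, zero_sub]
  ring

theorem M01356 (μ : Fin 7 → Fin 7 → Fin 7 → ℝ) :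
    dd4 μ psiR 0 1 3 5 6 = (μ 0 1 1 + μ 0 3 3 + μ 0 5 5 + μ 0 6 6 + μ 1 3 2 + μ 1 5 4 + μ 3 6 4
      - μ 5 6 2) := by
  simp only [dd4, Fin.sum_univ_seven, psiR, psi_v0, psi_v1, psi_v2, psi_v3, psi_v4, psi_v5,
    psi_v6,
    Int.cast_zero, Int.cast_one, Int.cast_neg, mul_zero, mul_one, mul_neg, neg_neg, neg_zero,
      add_zero, zero_add, sub_zero, zero_sub]
  ring

theorem M01456 (μ : Fin 7 → Fin 7 → Fin 7 → ℝ) :
    dd4 μ psiR 0 1 4 5 6 = (μ 0 4 3 + μ 0 5 2 + μ 0 6 0 + μ 1 4 2 - μ 1 5 3 + μ 1 6 1 + μ 4 6 4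
      + μ 5 6 5) := by
  simp only [dd4, Fin.sum_univ_seven, psiR, psi_v0, psi_v1, psi_v2, psi_v3, psi_v4, psi_v5,
    psi_v6,
    Int.cast_zero, Int.cast_one, Int.cast_neg, mul_zero, mul_one, mul_neg, neg_neg, neg_zero,
      add_zero, zero_add, sub_zero, zero_sub]
  ring

theorem M02345 (μ : Fin 7 → Fin 7 → Fin 7 → ℝ) :
    dd4 μ psiR 0 2 3 4 5 = (-μ 0 2 2 - μ 0 3 3 - μ 0 4 4 - μ 0 5 5 + μ 2 3 1 + μ 2 5 6 + μ 3 4
      6 + μ 4 5 1) := by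
  simp only [dd4, Fin.sum_univ_seven, psiR, psi_v0, psi_v1, psi_v2, psi_v3, psi_v4, psi_v5,
    psi_v6,
    Int.cast_zero, Int.cast_one, Int.cast_neg, mul_zero, mul_one, mul_neg, neg_neg, neg_zero,
      add_zero, zero_add, sub_zero, zero_sub]
  ring

theorem M02346 (μ : Fin 7 → Fin 7 → Fin 7 → ℝ) :
    dd4 μ psiR 0 2 3 4 6 = (-μ 0 2 0 + μ 0 3 1 - μ 0 6 5 + μ 2 3 3 + μ 2 4 4 + μ 2 6 6 - μ 3 4
      5 + μ 4 6 1) := by
  simp only [dd4, Fin.sum_univ_seven, psiR, psi_v0, psi_v1, psi_v2, psi_v3, psi_v4, psi_v5,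
    psi_v6,
    Int.cast_zero, Int.cast_one, Int.cast_neg, mul_zero, mul_one, mul_neg, neg_neg, neg_zero,
      add_zero, zero_add, sub_zero, zero_sub]
  ring

theorem M02356 (μ : Fin 7 → Fin 7 → Fin 7 → ℝ) :
    dd4 μ psiR 0 2 3 5 6 = (μ 0 2 1 + μ 0 3 0 + μ 0 6 4 + μ 2 3 2 + μ 2 5 4 - μ 3 5 5 - μ 3 6 6
      + μ 5 6 1) := by
  simp only [dd4, Fin.sum_univ_seven, psiR, psi_v0, psi_v1, psi_v2, psi_v3, psi_v4, psi_v5,
    psi_v6,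
    Int.cast_zero, Int.cast_one, Int.cast_neg, mul_zero, mul_one, mul_neg, neg_neg, neg_zero,
      add_zero, zero_add, sub_zero, zero_sub]
  ring

theorem M02456 (μ : Fin 7 → Fin 7 → Fin 7 → ℝ) :
    dd4 μ psiR 0 2 4 5 6 = (μ 0 4 0 - μ 0 5 1 - μ 0 6 3 + μ 2 4 2 - μ 2 5 3 + μ 2 6 1 - μ 4 5 5
      - μ 4 6 6) := by
  simp only [dd4, Fin.sum_univ_seven, psiR, psi_v0, psi_v1, psi_v2, psi_v3, psi_v4, psi_v5,
    psi_v6,
    Int.cast_zero, Int.cast_one, Int.cast_neg, mul_zero, mul_one, mul_neg, neg_neg, neg_zero,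
      add_zero, zero_add, sub_zero, zero_sub]
  ring

theorem M03456 (μ : Fin 7 → Fin 7 → Fin 7 → ℝ) :
    dd4 μ psiR 0 3 4 5 6 = (-μ 0 4 1 - μ 0 5 0 + μ 0 6 2 + μ 3 4 2 - μ 3 5 3 + μ 3 6 1 - μ 4 5
      4 + μ 5 6 6) := by
  simp only [dd4, Fin.sum_univ_seven, psiR, psi_v0, psi_v1, psi_v2, psi_v3, psi_v4, psi_v5,
    psi_v6,
    Int.cast_zero, Int.cast_one, Int.cast_neg, mul_zero, mul_one, mul_neg, neg_neg, neg_zero,
      add_zero, zero_add, sub_zero, zero_sub]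
  ring

theorem M12345 (μ : Fin 7 → Fin 7 → Fin 7 → ℝ) :
    dd4 μ psiR 1 2 3 4 5 = (-μ 1 2 2 - μ 1 3 3 - μ 1 4 4 - μ 1 5 5 - μ 2 3 0 + μ 2 4 6 - μ 3 5
      6 - μ 4 5 0) := by
  simp only [dd4, Fin.sum_univ_seven, psiR, psi_v0, psi_v1, psi_v2, psi_v3, psi_v4, psi_v5,
    psi_v6,
    Int.cast_zero, Int.cast_one, Int.cast_neg, mul_zero, mul_one, mul_neg, neg_neg, neg_zero,
      add_zero, zero_add, sub_zero, zero_sub]
  ring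

theorem M12346 (μ : Fin 7 → Fin 7 → Fin 7 → ℝ) :
    dd4 μ psiR 1 2 3 4 6 = (-μ 1 2 0 + μ 1 3 1 - μ 1 6 5 + μ 2 3 2 - μ 2 4 5 - μ 3 4 4 - μ 3 6
      6 - μ 4 6 0) := by
  simp only [dd4, Fin.sum_univ_seven, psiR, psi_v0, psi_v1, psi_v2, psi_v3, psi_v4, psi_v5,
    psi_v6,
    Int.cast_zero, Int.cast_one, Int.cast_neg, mul_zero, mul_one, mul_neg, neg_neg, neg_zero,
      add_zero, zero_add, sub_zero, zero_sub]
  ring

theorem M12356 (μ : Fin 7 → Fin 7 → Fin 7 → ℝ) :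
    dd4 μ psiR 1 2 3 5 6 = (μ 1 2 1 + μ 1 3 0 + μ 1 6 4 - μ 2 3 3 - μ 2 5 5 - μ 2 6 6 - μ 3 5 4
      - μ 5 6 0) := by
  simp only [dd4, Fin.sum_univ_seven, psiR, psi_v0, psi_v1, psi_v2, psi_v3, psi_v4, psi_v5,
    psi_v6,
    Int.cast_zero, Int.cast_one, Int.cast_neg, mul_zero, mul_one, mul_neg, neg_neg, neg_zero,
      add_zero, zero_add, sub_zero, zero_sub]
  ring

theorem M12456 (μ : Fin 7 → Fin 7 → Fin 7 → ℝ) :
    dd4 μ psiR 1 2 4 5 6 = (μ 1 4 0 - μ 1 5 1 - μ 1 6 3 - μ 2 4 3 - μ 2 5 2 - μ 2 6 0 - μ 4 5 4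
      + μ 5 6 6) := by
  simp only [dd4, Fin.sum_univ_seven, psiR, psi_v0, psi_v1, psi_v2, psi_v3, psi_v4, psi_v5,
    psi_v6,
    Int.cast_zero, Int.cast_one, Int.cast_neg, mul_zero, mul_one, mul_neg, neg_neg, neg_zero,
      add_zero, zero_add, sub_zero, zero_sub]
  ring

theorem M13456 (μ : Fin 7 → Fin 7 → Fin 7 → ℝ) :
    dd4 μ psiR 1 3 4 5 6 = (-μ 1 4 1 - μ 1 5 0 + μ 1 6 2 - μ 3 4 3 - μ 3 5 2 - μ 3 6 0 + μ 4 5
      5 + μ 4 6 6) := by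
  simp only [dd4, Fin.sum_univ_seven, psiR, psi_v0, psi_v1, psi_v2, psi_v3, psi_v4, psi_v5,
    psi_v6,
    Int.cast_zero, Int.cast_one, Int.cast_neg, mul_zero, mul_one, mul_neg, neg_neg, neg_zero,
      add_zero, zero_add, sub_zero, zero_sub]
  ring

theorem M23456 (μ : Fin 7 → Fin 7 → Fin 7 → ℝ) :
    dd4 μ psiR 2 3 4 5 6 = (-μ 2 4 1 - μ 2 5 0 + μ 2 6 2 - μ 3 4 0 + μ 3 5 1 + μ 3 6 3 + μ 4 6
      4 + μ 5 6 5) := by
  simp only [dd4, Fin.sum_univ_seven, psiR, psi_v0, psi_v1, psi_v2, psi_v3, psi_v4, psi_v5,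
    psi_v6,
    Int.cast_zero, Int.cast_one, Int.cast_neg, mul_zero, mul_one, mul_neg, neg_neg, neg_zero,
      add_zero, zero_add, sub_zero, zero_sub]
  ring

end Pool.Agent.H787.SP
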