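import Pool.Agent.H787.SP.Alg

/-! Identities for solvsolitons. -/

set_option autoImplicit false

namespace Pool.Agent.H787.SP
open Matrix R877.RN R877.RN.BASA R877.RN.TR0

variable {n : ℕ}

lemma br_Hv {μ : Br n} (ha : Asym μ) (hj : Jac μ) (p q : Fin n) : ∑ j, μ p q j * Hv μ j = 0 := by
  have h := der_tr_adm (adm_der ha hj (e p)) (e q)
  rw [tr_adm, adm_mulVec, Fl_basis] at h
  exact h

lemma dot_Mm_Hv {μ : Br n} (ha : Asym μ) (hj : Jac μ) (x : Fin n → ℝ) :
    x ⬝ᵥ (Mm μ *ᵥ Hv μ) = -(1/2) * ((adm μ x)ᵀ * adm μ (Hv μ)).trace := by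
  have h1 : ∀ i, (Mm μ *ᵥ Hv μ) i = -(1/2) * ∑ p, ∑ k, ∑ j, μ i p k * (Hv μ j * μ j p k) := by
    intro i
    have h2 : (Mm μ *ᵥ Hv μ) i = -(1/2) * ∑ p, ∑ k, ∑ j, μ i p k * (Hv μ j * μ j p k)
        + (1/4) * ∑ p, ∑ q, ∑ j, μ p q i * (μ p q j * Hv μ j) := by
      simp only [Matrix.mulVec, dotProduct, Mm, add_mul, Finset.sum_add_distrib, Finset.mul_sum,
        Finset.sum_mul]
      congr 1
      · rw [Finset.sum_comm]
        refine Finset.sum_congr rfl fun p _ => ?_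
        rw [Finset.sum_comm]
        exact Finset.sum_congr rfl fun k _ => Finset.sum_congr rfl fun j _ => by ring
      · rw [Finset.sum_comm]
        refine Finset.sum_congr rfl fun p _ => ?_
        rw [Finset.sum_comm]
        exact Finset.sum_congr rfl fun k _ => Finset.sum_congr rfl fun j _ => by ring
    rw [h2]
    have h3 : ∑ p, ∑ q, ∑ j, μ p q i * (μ p q j * Hv μ j) = 0 := by
      refine Finset.sum_eq_zero fun p _ => Finset.sum_eq_zero fun q _ => ?_
      rw [← Finset.mul_sum, br_Hv ha hj, mul_zero]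
    rw [h3]
    ring
  have h4 : ((adm μ x)ᵀ * adm μ (Hv μ)).trace
      = ∑ p, ∑ k, ∑ i, ∑ j, x i * (μ i p k * (Hv μ j * μ j p k)) := by
    simp only [Matrix.trace, Matrix.diag_apply, Matrix.mul_apply, Matrix.transpose_apply, adm,
      Finset.sum_mul, Finset.mul_sum]
    refine Finset.sum_congr rfl fun p _ => Finset.sum_congr rfl fun k _ => ?_
    rw [Finset.sum_comm]
    exact Finset.sum_congr rfl fun i _ => Finset.sum_congr rfl fun j _ => by ring
  rw [h4]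
  simp only [dotProduct, h1, Finset.mul_sum]
  rw [Finset.sum_comm]
  refine Finset.sum_congr rfl fun p _ => ?_
  rw [Finset.sum_comm]
  refine Finset.sum_congr rfl fun k _ => ?_
  exact Finset.sum_congr rfl fun i _ => Finset.sum_congr rfl fun j _ => by ring

lemma asym_self {μ : Br n} (ha : Asym μ) (x : Fin n → ℝ) : Fl μ x x = 0 := by
  have h := asym_Fl ha x x
  funext k
  have h3 := congrFun h k
  simp only [Pi.neg_apply, Pi.zero_apply] at h3 ⊢
  linarith

lemma sq_expand (g : ℝ) (X : Mat n) :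
    (-(g • (1 : Mat n)) + X) * (-(g • (1 : Mat n)) + X)
      = (g * g) • (1 : Mat n) - (2 * g) • X + X * X := by
  rw [Matrix.add_mul, Matrix.mul_add, Matrix.mul_add, Matrix.neg_mul, Matrix.neg_mul,
    Matrix.mul_neg, Matrix.mul_neg, Matrix.smul_mul, Matrix.smul_mul, Matrix.mul_smul,
    Matrix.one_mul, Matrix.one_mul, Matrix.mul_smul, Matrix.mul_one, smul_smul, neg_neg,
    two_mul, add_smul]
  abel

/-- T4 -/
lemma dot_Rc_Hv {μ : Br n} (ha : Asym μ) (hj : Jac μ) (x : Fin n → ℝ) :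
    x ⬝ᵥ (Rc μ *ᵥ Hv μ) = -(sy (adm μ (Hv μ)) * adm μ x).trace := by
  have h1 : x ⬝ᵥ (sy (adm μ (Hv μ)) *ᵥ Hv μ) = 0 := by
    rw [sy, Matrix.smul_mulVec, Matrix.add_mulVec, adm_mulVec, asym_self ha, zero_add,
      dotProduct_smul, Matrix.dotProduct_mulVec, Matrix.vecMul_transpose,
      ← tr_adm, der_tr_adm (adm_der ha hj _), smul_zero]
  rw [Rc, Matrix.sub_mulVec, Matrix.sub_mulVec, dotProduct_sub, dotProduct_sub, h1,
    dot_Mm_Hv ha hj, Matrix.smul_mulVec, dotProduct_smul, Kf_bil, smul_eq_mul]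
  rw [sy, Matrix.smul_mul, Matrix.trace_smul, Matrix.add_mul, Matrix.trace_add, smul_eq_mul]
  have h2 : ((adm μ x)ᵀ * adm μ (Hv μ)).trace = ((adm μ (Hv μ))ᵀ * adm μ x).trace := by
    rw [← Matrix.trace_transpose, Matrix.transpose_mul, Matrix.transpose_transpose]
  rw [h2, Matrix.trace_mul_comm (adm μ x)]
  ring

/-- `R = sym(ad H)` -/
noncomputable def RR (μ : Br n) : Mat n := sy (adm μ (Hv μ))

/-- algebraic soliton equation with constant `-g` -/
structure Sol (μ : Br n) (g : ℝ) (D : Mat n) : Prop where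
  asym : Asym μ
  jac : Jac μ
  der : IsDer D μ
  eq : Rc μ = -(g • (1 : Mat n)) + D

namespace Sol
variable {μ : Br n} {g : ℝ} {D : Mat n}

lemma Dsymm (h : Sol μ g D) : Dᵀ = D := by
  have h1 : D = Rc μ + g • (1 : Mat n) := by rw [h.eq]; abel
  rw [h1, Matrix.transpose_add, Rc_symm, Matrix.transpose_smul, Matrix.transpose_one]

lemma DH (h : Sol μ g D) : D *ᵥ Hv μ = 0 := by
  have := der_Hv h.der
  rwa [h.Dsymm] at this

lemma trR_adm (h : Sol μ g D) (x : Fin n → ℝ) :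
    (RR μ * adm μ x).trace = g * (adm μ x).trace := by
  have h1 := dot_Rc_Hv h.asym h.jac x
  rw [h.eq, Matrix.add_mulVec, h.DH, add_zero, Matrix.neg_mulVec, Matrix.smul_mulVec,
    Matrix.one_mulVec, dotProduct_neg, dotProduct_smul, smul_eq_mul, ← tr_adm] at h1
  unfold RR
  linarith

/-- `tr ((D+R) δ) = g tr δ` -/
lemma trD1 (h : Sol μ g D) {A : Mat n} (hA : IsDer A μ) :
    ((D + RR μ) * A).trace = g * A.trace := by
  have h1 := tr_Rc_der h.asym hA
  rw [h.eq, Matrix.add_mul, Matrix.trace_add, Matrix.neg_mul, Matrix.smul_mul, Matrix.one_mul,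
    Matrix.trace_neg, Matrix.trace_smul, smul_eq_mul] at h1
  rw [Matrix.add_mul, Matrix.trace_add]
  unfold RR
  linarith

lemma trD_adm (h : Sol μ g D) (x : Fin n → ℝ) : (D * adm μ x).trace = 0 := by
  have h1 := h.trD1 (adm_der h.asym h.jac x)
  rw [Matrix.add_mul, Matrix.trace_add, h.trR_adm] at h1
  linarith

lemma tr_RR (μ : Br n) : (RR μ).trace = Hv μ ⬝ᵥ Hv μ := by
  rw [RR, tr_sy, tr_adm]

lemma trRR (h : Sol μ g D) : (RR μ * RR μ).trace = g * (Hv μ ⬝ᵥ Hv μ) := by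
  have : (RR μ * RR μ).trace = (RR μ * adm μ (Hv μ)).trace := by
    conv_lhs => rw [RR]
    rw [tr_mul_sy (sy_symm _)]
    rfl
  rw [this, h.trR_adm, tr_adm]

lemma trDR (h : Sol μ g D) : (D * RR μ).trace = 0 := by
  rw [RR, tr_mul_sy h.Dsymm, h.trD_adm]

lemma trDD (h : Sol μ g D) : (D * D).trace = g * D.trace := by
  have h1 := h.trD1 h.der
  rw [Matrix.add_mul, Matrix.trace_add, Matrix.trace_mul_comm (RR μ), h.trDR] at h1
  linarith

/-- `D1 = D + R` -/
lemma trD1D1 (h : Sol μ g D) :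
    ((D + RR μ) * (D + RR μ)).trace = g * (D + RR μ).trace := by
  rw [Matrix.add_mul, Matrix.mul_add, Matrix.mul_add, Matrix.trace_add, Matrix.trace_add,
    Matrix.trace_add, h.trDD, h.trDR, Matrix.trace_mul_comm (RR μ) D, h.trDR, h.trRR,
    Matrix.trace_add, tr_RR]
  ring

lemma tr_Rc (h : Sol μ g D) : (Rc μ).trace = -(g * n) + D.trace := by
  rw [h.eq, Matrix.trace_add, Matrix.trace_neg, Matrix.trace_smul, Matrix.trace_one,
    Fintype.card_fin, smul_eq_mul]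

/-- `|Ric|^2 = - g scal` -/
lemma tr_Rc2 (h : Sol μ g D) : (Rc μ * Rc μ).trace = -(g * (Rc μ).trace) := by
  have h1 : Rc μ * Rc μ = (g * g) • (1 : Mat n) - (2 * g) • D + D * D := by
    rw [h.eq, sq_expand]
  rw [h1, h.tr_Rc, Matrix.trace_add, Matrix.trace_sub, Matrix.trace_smul, Matrix.trace_smul,
    h.trDD, Matrix.trace_one, Fintype.card_fin, smul_eq_mul, smul_eq_mul]
  ring

/-- `|−g+D1|² + g |H|² = |Ric|²` -/
lemma norm_split (h : Sol μ g D) :
    ((-(g • (1 : Mat n)) + (D + RR μ)) * (-(g • (1 : Mat n)) + (D + RR μ))).trace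
      + g * (Hv μ ⬝ᵥ Hv μ) = -(g * (Rc μ).trace) := by
  have h1 : (-(g • (1 : Mat n)) + (D + RR μ)) * (-(g • (1 : Mat n)) + (D + RR μ))
      = (g * g) • (1 : Mat n) - (2 * g) • (D + RR μ) + (D + RR μ) * (D + RR μ) :=
    sq_expand g _
  rw [h1, h.tr_Rc, Matrix.trace_add, Matrix.trace_sub, Matrix.trace_smul, Matrix.trace_smul,
    h.trD1D1, Matrix.trace_one, Fintype.card_fin, smul_eq_mul, smul_eq_mul, Matrix.trace_add,
    tr_RR]
  ring

lemma D1_symm (h : Sol μ g D) : (D + RR μ)ᵀ = D + RR μ := by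
  rw [Matrix.transpose_add, h.Dsymm, RR, sy_symm]

/-- `Rc = -g + D1 - R`, so `D1 = g + M - K/2` -/
lemma D1_eq (h : Sol μ g D) : D + RR μ = g • (1 : Mat n) + Mm μ - (1/2 : ℝ) • Kf μ := by
  have h1 : Mm μ - (1/2 : ℝ) • Kf μ - RR μ = -(g • (1 : Mat n)) + D := by
    rw [← h.eq]
    rfl
  have h2 : D = Mm μ - (1/2 : ℝ) • Kf μ - RR μ + g • (1 : Mat n) := by
    rw [h1]; abel
  rw [h2]
  abel

end Sol

end Pool.Agent.H787.SP
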