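import Pool.Agent.H787.SP.G2L
import Pool.Agent.H787.SP.G2K
import Pool.Agent.H787.SP.Sol

/-! Scalar curvature of a closed left invariant G2-structure. -/

set_option autoImplicit false
set_option linter.unusedSimpArgs false
set_option maxRecDepth 100000
set_option maxHeartbeats 4000000

namespace Pool.Agent.H787.SP
open Matrix R877.RN R877.RN.BASA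

lemma asym_diag {n : ℕ} {μ : Br n} (ha : Asym μ) (i k : Fin n) : μ i i k = 0 := by
  have := ha i i k
  linarith

theorem as0 {μ : Br 7} (ha : Asym μ) :
    μ 0 0 0 = 0 ∧ μ 0 0 1 = 0 ∧ μ 0 0 2 = 0 ∧ μ 0 0 3 = 0 ∧ μ 0 0 4 = 0 ∧ μ 0 0 5 = 0 ∧ μ 0 0 6
      = 0 := by
  refine ⟨?_, ?_, ?_, ?_, ?_, ?_, ?_⟩
  all_goals first | exact ha _ _ _ | exact asym_diag ha _ _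

theorem as1 {μ : Br 7} (ha : Asym μ) :
    μ 1 0 0 = -μ 0 1 0 ∧ μ 1 0 1 = -μ 0 1 1 ∧ μ 1 0 2 = -μ 0 1 2 ∧ μ 1 0 3 = -μ 0 1 3 ∧ μ 1 0 4
      = -μ 0 1 4 ∧ μ 1 0 5 = -μ 0 1 5 ∧ μ 1 0 6 = -μ 0 1 6 ∧ μ 1 1 0 = 0 ∧ μ 1 1 1 = 0 ∧ μ 1 1
      2 = 0 ∧ μ 1 1 3 = 0 ∧ μ 1 1 4 = 0 ∧ μ 1 1 5 = 0 ∧ μ 1 1 6 = 0 := by
  refine ⟨?_, ?_, ?_, ?_, ?_, ?_, ?_, ?_, ?_, ?_, ?_, ?_, ?_, ?_⟩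
  all_goals first | exact ha _ _ _ | exact asym_diag ha _ _

theorem as2 {μ : Br 7} (ha : Asym μ) :
    μ 2 0 0 = -μ 0 2 0 ∧ μ 2 0 1 = -μ 0 2 1 ∧ μ 2 0 2 = -μ 0 2 2 ∧ μ 2 0 3 = -μ 0 2 3 ∧ μ 2 0 4
      = -μ 0 2 4 ∧ μ 2 0 5 = -μ 0 2 5 ∧ μ 2 0 6 = -μ 0 2 6 ∧ μ 2 1 0 = -μ 1 2 0 ∧ μ 2 1 1 = -μ
      1 2 1 ∧ μ 2 1 2 = -μ 1 2 2 ∧ μ 2 1 3 = -μ 1 2 3 ∧ μ 2 1 4 = -μ 1 2 4 ∧ μ 2 1 5 = -μ 1 2 5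
      ∧ μ 2 1 6 = -μ 1 2 6 ∧ μ 2 2 0 = 0 ∧ μ 2 2 1 = 0 ∧ μ 2 2 2 = 0 ∧ μ 2 2 3 = 0 ∧ μ 2 2 4 =
      0 ∧ μ 2 2 5 = 0 ∧ μ 2 2 6 = 0 := by
  refine ⟨?_, ?_, ?_, ?_, ?_, ?_, ?_, ?_, ?_, ?_, ?_, ?_, ?_, ?_, ?_, ?_, ?_, ?_, ?_, ?_, ?_⟩
  all_goals first | exact ha _ _ _ | exact asym_diag ha _ _

theorem as3 {μ : Br 7} (ha : Asym μ) :
    μ 3 0 0 = -μ 0 3 0 ∧ μ 3 0 1 = -μ 0 3 1 ∧ μ 3 0 2 = -μ 0 3 2 ∧ μ 3 0 3 = -μ 0 3 3 ∧ μ 3 0 4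
      = -μ 0 3 4 ∧ μ 3 0 5 = -μ 0 3 5 ∧ μ 3 0 6 = -μ 0 3 6 ∧ μ 3 1 0 = -μ 1 3 0 ∧ μ 3 1 1 = -μ
      1 3 1 ∧ μ 3 1 2 = -μ 1 3 2 ∧ μ 3 1 3 = -μ 1 3 3 ∧ μ 3 1 4 = -μ 1 3 4 ∧ μ 3 1 5 = -μ 1 3 5
      ∧ μ 3 1 6 = -μ 1 3 6 ∧ μ 3 2 0 = -μ 2 3 0 ∧ μ 3 2 1 = -μ 2 3 1 ∧ μ 3 2 2 = -μ 2 3 2 ∧ μ 3
      2 3 = -μ 2 3 3 ∧ μ 3 2 4 = -μ 2 3 4 ∧ μ 3 2 5 = -μ 2 3 5 ∧ μ 3 2 6 = -μ 2 3 6 ∧ μ 3 3 0 =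
      0 ∧ μ 3 3 1 = 0 ∧ μ 3 3 2 = 0 ∧ μ 3 3 3 = 0 ∧ μ 3 3 4 = 0 ∧ μ 3 3 5 = 0 ∧ μ 3 3 6 = 0 :=
      by
  refine ⟨?_, ?_, ?_, ?_, ?_, ?_, ?_, ?_, ?_, ?_, ?_, ?_, ?_, ?_, ?_, ?_, ?_, ?_, ?_, ?_, ?_,
    ?_, ?_, ?_, ?_, ?_, ?_, ?_⟩
  all_goals first | exact ha _ _ _ | exact asym_diag ha _ _

theorem as4 {μ : Br 7} (ha : Asym μ) :
    μ 4 0 0 = -μ 0 4 0 ∧ μ 4 0 1 = -μ 0 4 1 ∧ μ 4 0 2 = -μ 0 4 2 ∧ μ 4 0 3 = -μ 0 4 3 ∧ μ 4 0 4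
      = -μ 0 4 4 ∧ μ 4 0 5 = -μ 0 4 5 ∧ μ 4 0 6 = -μ 0 4 6 ∧ μ 4 1 0 = -μ 1 4 0 ∧ μ 4 1 1 = -μ
      1 4 1 ∧ μ 4 1 2 = -μ 1 4 2 ∧ μ 4 1 3 = -μ 1 4 3 ∧ μ 4 1 4 = -μ 1 4 4 ∧ μ 4 1 5 = -μ 1 4 5
      ∧ μ 4 1 6 = -μ 1 4 6 ∧ μ 4 2 0 = -μ 2 4 0 ∧ μ 4 2 1 = -μ 2 4 1 ∧ μ 4 2 2 = -μ 2 4 2 ∧ μ 4
      2 3 = -μ 2 4 3 ∧ μ 4 2 4 = -μ 2 4 4 ∧ μ 4 2 5 = -μ 2 4 5 ∧ μ 4 2 6 = -μ 2 4 6 ∧ μ 4 3 0 =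
      -μ 3 4 0 ∧ μ 4 3 1 = -μ 3 4 1 ∧ μ 4 3 2 = -μ 3 4 2 ∧ μ 4 3 3 = -μ 3 4 3 ∧ μ 4 3 4 = -μ 3
      4 4 ∧ μ 4 3 5 = -μ 3 4 5 ∧ μ 4 3 6 = -μ 3 4 6 ∧ μ 4 4 0 = 0 ∧ μ 4 4 1 = 0 ∧ μ 4 4 2 = 0 ∧
      μ 4 4 3 = 0 ∧ μ 4 4 4 = 0 ∧ μ 4 4 5 = 0 ∧ μ 4 4 6 = 0 := by
  refine ⟨?_, ?_, ?_, ?_, ?_, ?_, ?_, ?_, ?_, ?_, ?_, ?_, ?_, ?_, ?_, ?_, ?_, ?_, ?_, ?_, ?_,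
    ?_, ?_, ?_, ?_, ?_, ?_, ?_, ?_, ?_, ?_, ?_, ?_, ?_, ?_⟩
  all_goals first | exact ha _ _ _ | exact asym_diag ha _ _

theorem as5 {μ : Br 7} (ha : Asym μ) :
    μ 5 0 0 = -μ 0 5 0 ∧ μ 5 0 1 = -μ 0 5 1 ∧ μ 5 0 2 = -μ 0 5 2 ∧ μ 5 0 3 = -μ 0 5 3 ∧ μ 5 0 4
      = -μ 0 5 4 ∧ μ 5 0 5 = -μ 0 5 5 ∧ μ 5 0 6 = -μ 0 5 6 ∧ μ 5 1 0 = -μ 1 5 0 ∧ μ 5 1 1 = -μ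
      1 5 1 ∧ μ 5 1 2 = -μ 1 5 2 ∧ μ 5 1 3 = -μ 1 5 3 ∧ μ 5 1 4 = -μ 1 5 4 ∧ μ 5 1 5 = -μ 1 5 5
      ∧ μ 5 1 6 = -μ 1 5 6 ∧ μ 5 2 0 = -μ 2 5 0 ∧ μ 5 2 1 = -μ 2 5 1 ∧ μ 5 2 2 = -μ 2 5 2 ∧ μ 5
      2 3 = -μ 2 5 3 ∧ μ 5 2 4 = -μ 2 5 4 ∧ μ 5 2 5 = -μ 2 5 5 ∧ μ 5 2 6 = -μ 2 5 6 ∧ μ 5 3 0 =
      -μ 3 5 0 ∧ μ 5 3 1 = -μ 3 5 1 ∧ μ 5 3 2 = -μ 3 5 2 ∧ μ 5 3 3 = -μ 3 5 3 ∧ μ 5 3 4 = -μ 3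
      5 4 ∧ μ 5 3 5 = -μ 3 5 5 ∧ μ 5 3 6 = -μ 3 5 6 ∧ μ 5 4 0 = -μ 4 5 0 ∧ μ 5 4 1 = -μ 4 5 1 ∧
      μ 5 4 2 = -μ 4 5 2 ∧ μ 5 4 3 = -μ 4 5 3 ∧ μ 5 4 4 = -μ 4 5 4 ∧ μ 5 4 5 = -μ 4 5 5 ∧ μ 5 4
      6 = -μ 4 5 6 ∧ μ 5 5 0 = 0 ∧ μ 5 5 1 = 0 ∧ μ 5 5 2 = 0 ∧ μ 5 5 3 = 0 ∧ μ 5 5 4 = 0 ∧ μ 5
      5 5 = 0 ∧ μ 5 5 6 = 0 := by
  refine ⟨?_, ?_, ?_, ?_, ?_, ?_, ?_, ?_, ?_, ?_, ?_, ?_, ?_, ?_, ?_, ?_, ?_, ?_, ?_, ?_, ?_,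
    ?_, ?_, ?_, ?_, ?_, ?_, ?_, ?_, ?_, ?_, ?_, ?_, ?_, ?_, ?_, ?_, ?_, ?_, ?_, ?_, ?_⟩
  all_goals first | exact ha _ _ _ | exact asym_diag ha _ _

theorem as6 {μ : Br 7} (ha : Asym μ) :
    μ 6 0 0 = -μ 0 6 0 ∧ μ 6 0 1 = -μ 0 6 1 ∧ μ 6 0 2 = -μ 0 6 2 ∧ μ 6 0 3 = -μ 0 6 3 ∧ μ 6 0 4
      = -μ 0 6 4 ∧ μ 6 0 5 = -μ 0 6 5 ∧ μ 6 0 6 = -μ 0 6 6 ∧ μ 6 1 0 = -μ 1 6 0 ∧ μ 6 1 1 = -μ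
      1 6 1 ∧ μ 6 1 2 = -μ 1 6 2 ∧ μ 6 1 3 = -μ 1 6 3 ∧ μ 6 1 4 = -μ 1 6 4 ∧ μ 6 1 5 = -μ 1 6 5
      ∧ μ 6 1 6 = -μ 1 6 6 ∧ μ 6 2 0 = -μ 2 6 0 ∧ μ 6 2 1 = -μ 2 6 1 ∧ μ 6 2 2 = -μ 2 6 2 ∧ μ 6
      2 3 = -μ 2 6 3 ∧ μ 6 2 4 = -μ 2 6 4 ∧ μ 6 2 5 = -μ 2 6 5 ∧ μ 6 2 6 = -μ 2 6 6 ∧ μ 6 3 0 =
      -μ 3 6 0 ∧ μ 6 3 1 = -μ 3 6 1 ∧ μ 6 3 2 = -μ 3 6 2 ∧ μ 6 3 3 = -μ 3 6 3 ∧ μ 6 3 4 = -μ 3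
      6 4 ∧ μ 6 3 5 = -μ 3 6 5 ∧ μ 6 3 6 = -μ 3 6 6 ∧ μ 6 4 0 = -μ 4 6 0 ∧ μ 6 4 1 = -μ 4 6 1 ∧
      μ 6 4 2 = -μ 4 6 2 ∧ μ 6 4 3 = -μ 4 6 3 ∧ μ 6 4 4 = -μ 4 6 4 ∧ μ 6 4 5 = -μ 4 6 5 ∧ μ 6 4
      6 = -μ 4 6 6 ∧ μ 6 5 0 = -μ 5 6 0 ∧ μ 6 5 1 = -μ 5 6 1 ∧ μ 6 5 2 = -μ 5 6 2 ∧ μ 6 5 3 =
      -μ 5 6 3 ∧ μ 6 5 4 = -μ 5 6 4 ∧ μ 6 5 5 = -μ 5 6 5 ∧ μ 6 5 6 = -μ 5 6 6 ∧ μ 6 6 0 = 0 ∧ μ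
      6 6 1 = 0 ∧ μ 6 6 2 = 0 ∧ μ 6 6 3 = 0 ∧ μ 6 6 4 = 0 ∧ μ 6 6 5 = 0 ∧ μ 6 6 6 = 0 := by
  refine ⟨?_, ?_, ?_, ?_, ?_, ?_, ?_, ?_, ?_, ?_, ?_, ?_, ?_, ?_, ?_, ?_, ?_, ?_, ?_, ?_, ?_,
    ?_, ?_, ?_, ?_, ?_, ?_, ?_, ?_, ?_, ?_, ?_, ?_, ?_, ?_, ?_, ?_, ?_, ?_, ?_, ?_, ?_, ?_, ?_,
    ?_, ?_, ?_, ?_, ?_⟩
  all_goals first | exact ha _ _ _ | exact asym_diag ha _ _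

theorem g2sq {μ : Br 7} (ha : Asym μ) : ∑ i, ∑ j, ∑ k, (μ i j k) ^ 2 =
    2 * ((μ 0 1 0 ^ 2 + μ 0 1 1 ^ 2 + μ 0 1 2 ^ 2 + μ 0 1 3 ^ 2 + μ 0 1 4 ^ 2 + μ 0 1 5 ^ 2 + μ
      0 1 6 ^ 2) + (μ 0 2 0 ^ 2 + μ 0 2 1 ^ 2 + μ 0 2 2 ^ 2 + μ 0 2 3 ^ 2 + μ 0 2 4 ^ 2 + μ 0 2
      5 ^ 2 + μ 0 2 6 ^ 2) + (μ 0 3 0 ^ 2 + μ 0 3 1 ^ 2 + μ 0 3 2 ^ 2 + μ 0 3 3 ^ 2 + μ 0 3 4 ^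
      2 + μ 0 3 5 ^ 2 + μ 0 3 6 ^ 2) + (μ 0 4 0 ^ 2 + μ 0 4 1 ^ 2 + μ 0 4 2 ^ 2 + μ 0 4 3 ^ 2 +
      μ 0 4 4 ^ 2 + μ 0 4 5 ^ 2 + μ 0 4 6 ^ 2) + (μ 0 5 0 ^ 2 + μ 0 5 1 ^ 2 + μ 0 5 2 ^ 2 + μ 0
      5 3 ^ 2 + μ 0 5 4 ^ 2 + μ 0 5 5 ^ 2 + μ 0 5 6 ^ 2) + (μ 0 6 0 ^ 2 + μ 0 6 1 ^ 2 + μ 0 6 2
      ^ 2 + μ 0 6 3 ^ 2 + μ 0 6 4 ^ 2 + μ 0 6 5 ^ 2 + μ 0 6 6 ^ 2) + (μ 1 2 0 ^ 2 + μ 1 2 1 ^ 2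
      + μ 1 2 2 ^ 2 + μ 1 2 3 ^ 2 + μ 1 2 4 ^ 2 + μ 1 2 5 ^ 2 + μ 1 2 6 ^ 2) + (μ 1 3 0 ^ 2 + μ
      1 3 1 ^ 2 + μ 1 3 2 ^ 2 + μ 1 3 3 ^ 2 + μ 1 3 4 ^ 2 + μ 1 3 5 ^ 2 + μ 1 3 6 ^ 2) + (μ 1 4
      0 ^ 2 + μ 1 4 1 ^ 2 + μ 1 4 2 ^ 2 + μ 1 4 3 ^ 2 + μ 1 4 4 ^ 2 + μ 1 4 5 ^ 2 + μ 1 4 6 ^
      2) + (μ 1 5 0 ^ 2 + μ 1 5 1 ^ 2 + μ 1 5 2 ^ 2 + μ 1 5 3 ^ 2 + μ 1 5 4 ^ 2 + μ 1 5 5 ^ 2 +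
      μ 1 5 6 ^ 2) + (μ 1 6 0 ^ 2 + μ 1 6 1 ^ 2 + μ 1 6 2 ^ 2 + μ 1 6 3 ^ 2 + μ 1 6 4 ^ 2 + μ 1
      6 5 ^ 2 + μ 1 6 6 ^ 2) + (μ 2 3 0 ^ 2 + μ 2 3 1 ^ 2 + μ 2 3 2 ^ 2 + μ 2 3 3 ^ 2 + μ 2 3 4
      ^ 2 + μ 2 3 5 ^ 2 + μ 2 3 6 ^ 2) + (μ 2 4 0 ^ 2 + μ 2 4 1 ^ 2 + μ 2 4 2 ^ 2 + μ 2 4 3 ^ 2
      + μ 2 4 4 ^ 2 + μ 2 4 5 ^ 2 + μ 2 4 6 ^ 2) + (μ 2 5 0 ^ 2 + μ 2 5 1 ^ 2 + μ 2 5 2 ^ 2 + μ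
      2 5 3 ^ 2 + μ 2 5 4 ^ 2 + μ 2 5 5 ^ 2 + μ 2 5 6 ^ 2) + (μ 2 6 0 ^ 2 + μ 2 6 1 ^ 2 + μ 2 6
      2 ^ 2 + μ 2 6 3 ^ 2 + μ 2 6 4 ^ 2 + μ 2 6 5 ^ 2 + μ 2 6 6 ^ 2) + (μ 3 4 0 ^ 2 + μ 3 4 1 ^
      2 + μ 3 4 2 ^ 2 + μ 3 4 3 ^ 2 + μ 3 4 4 ^ 2 + μ 3 4 5 ^ 2 + μ 3 4 6 ^ 2) + (μ 3 5 0 ^ 2 +
      μ 3 5 1 ^ 2 + μ 3 5 2 ^ 2 + μ 3 5 3 ^ 2 + μ 3 5 4 ^ 2 + μ 3 5 5 ^ 2 + μ 3 5 6 ^ 2) + (μ 3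
      6 0 ^ 2 + μ 3 6 1 ^ 2 + μ 3 6 2 ^ 2 + μ 3 6 3 ^ 2 + μ 3 6 4 ^ 2 + μ 3 6 5 ^ 2 + μ 3 6 6 ^
      2) + (μ 4 5 0 ^ 2 + μ 4 5 1 ^ 2 + μ 4 5 2 ^ 2 + μ 4 5 3 ^ 2 + μ 4 5 4 ^ 2 + μ 4 5 5 ^ 2 +
      μ 4 5 6 ^ 2) + (μ 4 6 0 ^ 2 + μ 4 6 1 ^ 2 + μ 4 6 2 ^ 2 + μ 4 6 3 ^ 2 + μ 4 6 4 ^ 2 + μ 4
      6 5 ^ 2 + μ 4 6 6 ^ 2) + (μ 5 6 0 ^ 2 + μ 5 6 1 ^ 2 + μ 5 6 2 ^ 2 + μ 5 6 3 ^ 2 + μ 5 6 4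
      ^ 2 + μ 5 6 5 ^ 2 + μ 5 6 6 ^ 2)) := by
  simp only [Fin.sum_univ_seven, as0 ha, as1 ha, as2 ha, as3 ha, as4 ha, as5 ha, as6 ha]
  ring

theorem g2K0 {μ : Br 7} (ha : Asym μ) : ∑ p, ∑ q, μ 0 q p * μ 0 p q =
    (μ 0 1 1 * μ 0 1 1 + μ 0 2 1 * μ 0 1 2 + μ 0 3 1 * μ 0 1 3 + μ 0 4 1 * μ 0 1 4 + μ 0 5 1 *
      μ 0 1 5 + μ 0 6 1 * μ 0 1 6 + μ 0 1 2 * μ 0 2 1 + μ 0 2 2 * μ 0 2 2 + μ 0 3 2 * μ 0 2 3 +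
      μ 0 4 2 * μ 0 2 4 + μ 0 5 2 * μ 0 2 5 + μ 0 6 2 * μ 0 2 6 + μ 0 1 3 * μ 0 3 1 + μ 0 2 3 *
      μ 0 3 2 + μ 0 3 3 * μ 0 3 3 + μ 0 4 3 * μ 0 3 4 + μ 0 5 3 * μ 0 3 5 + μ 0 6 3 * μ 0 3 6 +
      μ 0 1 4 * μ 0 4 1 + μ 0 2 4 * μ 0 4 2 + μ 0 3 4 * μ 0 4 3 + μ 0 4 4 * μ 0 4 4 + μ 0 5 4 *
      μ 0 4 5 + μ 0 6 4 * μ 0 4 6 + μ 0 1 5 * μ 0 5 1 + μ 0 2 5 * μ 0 5 2 + μ 0 3 5 * μ 0 5 3 +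
      μ 0 4 5 * μ 0 5 4 + μ 0 5 5 * μ 0 5 5 + μ 0 6 5 * μ 0 5 6 + μ 0 1 6 * μ 0 6 1 + μ 0 2 6 *
      μ 0 6 2 + μ 0 3 6 * μ 0 6 3 + μ 0 4 6 * μ 0 6 4 + μ 0 5 6 * μ 0 6 5 + μ 0 6 6 * μ 0 6 6)
      := by
  simp only [Fin.sum_univ_seven, as0 ha, as1 ha, as2 ha, as3 ha, as4 ha, as5 ha, as6 ha]
  ring

theorem g2H0 {μ : Br 7} (ha : Asym μ) : ∑ i, μ 0 i i =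
    (μ 0 1 1 + μ 0 2 2 + μ 0 3 3 + μ 0 4 4 + μ 0 5 5 + μ 0 6 6) := by
  simp only [Fin.sum_univ_seven, as0 ha, as1 ha, as2 ha, as3 ha, as4 ha, as5 ha, as6 ha]
  ring

theorem g2K1 {μ : Br 7} (ha : Asym μ) : ∑ p, ∑ q, μ 1 q p * μ 1 p q =
    (μ 0 1 0 * μ 0 1 0 - μ 1 2 0 * μ 0 1 2 - μ 1 3 0 * μ 0 1 3 - μ 1 4 0 * μ 0 1 4 - μ 1 5 0 *
      μ 0 1 5 - μ 1 6 0 * μ 0 1 6 - μ 0 1 2 * μ 1 2 0 + μ 1 2 2 * μ 1 2 2 + μ 1 3 2 * μ 1 2 3 +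
      μ 1 4 2 * μ 1 2 4 + μ 1 5 2 * μ 1 2 5 + μ 1 6 2 * μ 1 2 6 - μ 0 1 3 * μ 1 3 0 + μ 1 2 3 *
      μ 1 3 2 + μ 1 3 3 * μ 1 3 3 + μ 1 4 3 * μ 1 3 4 + μ 1 5 3 * μ 1 3 5 + μ 1 6 3 * μ 1 3 6 -
      μ 0 1 4 * μ 1 4 0 + μ 1 2 4 * μ 1 4 2 + μ 1 3 4 * μ 1 4 3 + μ 1 4 4 * μ 1 4 4 + μ 1 5 4 *
      μ 1 4 5 + μ 1 6 4 * μ 1 4 6 - μ 0 1 5 * μ 1 5 0 + μ 1 2 5 * μ 1 5 2 + μ 1 3 5 * μ 1 5 3 +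
      μ 1 4 5 * μ 1 5 4 + μ 1 5 5 * μ 1 5 5 + μ 1 6 5 * μ 1 5 6 - μ 0 1 6 * μ 1 6 0 + μ 1 2 6 *
      μ 1 6 2 + μ 1 3 6 * μ 1 6 3 + μ 1 4 6 * μ 1 6 4 + μ 1 5 6 * μ 1 6 5 + μ 1 6 6 * μ 1 6 6)
      := by
  simp only [Fin.sum_univ_seven, as0 ha, as1 ha, as2 ha, as3 ha, as4 ha, as5 ha, as6 ha]
  ring

theorem g2H1 {μ : Br 7} (ha : Asym μ) : ∑ i, μ 1 i i =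
    (-μ 0 1 0 + μ 1 2 2 + μ 1 3 3 + μ 1 4 4 + μ 1 5 5 + μ 1 6 6) := by
  simp only [Fin.sum_univ_seven, as0 ha, as1 ha, as2 ha, as3 ha, as4 ha, as5 ha, as6 ha]
  ring

theorem g2K2 {μ : Br 7} (ha : Asym μ) : ∑ p, ∑ q, μ 2 q p * μ 2 p q =
    (μ 0 2 0 * μ 0 2 0 + μ 1 2 0 * μ 0 2 1 - μ 2 3 0 * μ 0 2 3 - μ 2 4 0 * μ 0 2 4 - μ 2 5 0 *
      μ 0 2 5 - μ 2 6 0 * μ 0 2 6 + μ 0 2 1 * μ 1 2 0 + μ 1 2 1 * μ 1 2 1 - μ 2 3 1 * μ 1 2 3 -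
      μ 2 4 1 * μ 1 2 4 - μ 2 5 1 * μ 1 2 5 - μ 2 6 1 * μ 1 2 6 - μ 0 2 3 * μ 2 3 0 - μ 1 2 3 *
      μ 2 3 1 + μ 2 3 3 * μ 2 3 3 + μ 2 4 3 * μ 2 3 4 + μ 2 5 3 * μ 2 3 5 + μ 2 6 3 * μ 2 3 6 -
      μ 0 2 4 * μ 2 4 0 - μ 1 2 4 * μ 2 4 1 + μ 2 3 4 * μ 2 4 3 + μ 2 4 4 * μ 2 4 4 + μ 2 5 4 *
      μ 2 4 5 + μ 2 6 4 * μ 2 4 6 - μ 0 2 5 * μ 2 5 0 - μ 1 2 5 * μ 2 5 1 + μ 2 3 5 * μ 2 5 3 +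
      μ 2 4 5 * μ 2 5 4 + μ 2 5 5 * μ 2 5 5 + μ 2 6 5 * μ 2 5 6 - μ 0 2 6 * μ 2 6 0 - μ 1 2 6 *
      μ 2 6 1 + μ 2 3 6 * μ 2 6 3 + μ 2 4 6 * μ 2 6 4 + μ 2 5 6 * μ 2 6 5 + μ 2 6 6 * μ 2 6 6)
      := by
  simp only [Fin.sum_univ_seven, as0 ha, as1 ha, as2 ha, as3 ha, as4 ha, as5 ha, as6 ha]
  ring

theorem g2H2 {μ : Br 7} (ha : Asym μ) : ∑ i, μ 2 i i =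
    (-μ 0 2 0 - μ 1 2 1 + μ 2 3 3 + μ 2 4 4 + μ 2 5 5 + μ 2 6 6) := by
  simp only [Fin.sum_univ_seven, as0 ha, as1 ha, as2 ha, as3 ha, as4 ha, as5 ha, as6 ha]
  ring

theorem g2K3 {μ : Br 7} (ha : Asym μ) : ∑ p, ∑ q, μ 3 q p * μ 3 p q =
    (μ 0 3 0 * μ 0 3 0 + μ 1 3 0 * μ 0 3 1 + μ 2 3 0 * μ 0 3 2 - μ 3 4 0 * μ 0 3 4 - μ 3 5 0 *
      μ 0 3 5 - μ 3 6 0 * μ 0 3 6 + μ 0 3 1 * μ 1 3 0 + μ 1 3 1 * μ 1 3 1 + μ 2 3 1 * μ 1 3 2 -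
      μ 3 4 1 * μ 1 3 4 - μ 3 5 1 * μ 1 3 5 - μ 3 6 1 * μ 1 3 6 + μ 0 3 2 * μ 2 3 0 + μ 1 3 2 *
      μ 2 3 1 + μ 2 3 2 * μ 2 3 2 - μ 3 4 2 * μ 2 3 4 - μ 3 5 2 * μ 2 3 5 - μ 3 6 2 * μ 2 3 6 -
      μ 0 3 4 * μ 3 4 0 - μ 1 3 4 * μ 3 4 1 - μ 2 3 4 * μ 3 4 2 + μ 3 4 4 * μ 3 4 4 + μ 3 5 4 *
      μ 3 4 5 + μ 3 6 4 * μ 3 4 6 - μ 0 3 5 * μ 3 5 0 - μ 1 3 5 * μ 3 5 1 - μ 2 3 5 * μ 3 5 2 +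
      μ 3 4 5 * μ 3 5 4 + μ 3 5 5 * μ 3 5 5 + μ 3 6 5 * μ 3 5 6 - μ 0 3 6 * μ 3 6 0 - μ 1 3 6 *
      μ 3 6 1 - μ 2 3 6 * μ 3 6 2 + μ 3 4 6 * μ 3 6 4 + μ 3 5 6 * μ 3 6 5 + μ 3 6 6 * μ 3 6 6)
      := by
  simp only [Fin.sum_univ_seven, as0 ha, as1 ha, as2 ha, as3 ha, as4 ha, as5 ha, as6 ha]
  ring

theorem g2H3 {μ : Br 7} (ha : Asym μ) : ∑ i, μ 3 i i =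
    (-μ 0 3 0 - μ 1 3 1 - μ 2 3 2 + μ 3 4 4 + μ 3 5 5 + μ 3 6 6) := by
  simp only [Fin.sum_univ_seven, as0 ha, as1 ha, as2 ha, as3 ha, as4 ha, as5 ha, as6 ha]
  ring

theorem g2K4 {μ : Br 7} (ha : Asym μ) : ∑ p, ∑ q, μ 4 q p * μ 4 p q =
    (μ 0 4 0 * μ 0 4 0 + μ 1 4 0 * μ 0 4 1 + μ 2 4 0 * μ 0 4 2 + μ 3 4 0 * μ 0 4 3 - μ 4 5 0 *
      μ 0 4 5 - μ 4 6 0 * μ 0 4 6 + μ 0 4 1 * μ 1 4 0 + μ 1 4 1 * μ 1 4 1 + μ 2 4 1 * μ 1 4 2 +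
      μ 3 4 1 * μ 1 4 3 - μ 4 5 1 * μ 1 4 5 - μ 4 6 1 * μ 1 4 6 + μ 0 4 2 * μ 2 4 0 + μ 1 4 2 *
      μ 2 4 1 + μ 2 4 2 * μ 2 4 2 + μ 3 4 2 * μ 2 4 3 - μ 4 5 2 * μ 2 4 5 - μ 4 6 2 * μ 2 4 6 +
      μ 0 4 3 * μ 3 4 0 + μ 1 4 3 * μ 3 4 1 + μ 2 4 3 * μ 3 4 2 + μ 3 4 3 * μ 3 4 3 - μ 4 5 3 *
      μ 3 4 5 - μ 4 6 3 * μ 3 4 6 - μ 0 4 5 * μ 4 5 0 - μ 1 4 5 * μ 4 5 1 - μ 2 4 5 * μ 4 5 2 -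
      μ 3 4 5 * μ 4 5 3 + μ 4 5 5 * μ 4 5 5 + μ 4 6 5 * μ 4 5 6 - μ 0 4 6 * μ 4 6 0 - μ 1 4 6 *
      μ 4 6 1 - μ 2 4 6 * μ 4 6 2 - μ 3 4 6 * μ 4 6 3 + μ 4 5 6 * μ 4 6 5 + μ 4 6 6 * μ 4 6 6)
      := by
  simp only [Fin.sum_univ_seven, as0 ha, as1 ha, as2 ha, as3 ha, as4 ha, as5 ha, as6 ha]
  ring

theorem g2H4 {μ : Br 7} (ha : Asym μ) : ∑ i, μ 4 i i =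
    (-μ 0 4 0 - μ 1 4 1 - μ 2 4 2 - μ 3 4 3 + μ 4 5 5 + μ 4 6 6) := by
  simp only [Fin.sum_univ_seven, as0 ha, as1 ha, as2 ha, as3 ha, as4 ha, as5 ha, as6 ha]
  ring

theorem g2K5 {μ : Br 7} (ha : Asym μ) : ∑ p, ∑ q, μ 5 q p * μ 5 p q =
    (μ 0 5 0 * μ 0 5 0 + μ 1 5 0 * μ 0 5 1 + μ 2 5 0 * μ 0 5 2 + μ 3 5 0 * μ 0 5 3 + μ 4 5 0 *
      μ 0 5 4 - μ 5 6 0 * μ 0 5 6 + μ 0 5 1 * μ 1 5 0 + μ 1 5 1 * μ 1 5 1 + μ 2 5 1 * μ 1 5 2 +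
      μ 3 5 1 * μ 1 5 3 + μ 4 5 1 * μ 1 5 4 - μ 5 6 1 * μ 1 5 6 + μ 0 5 2 * μ 2 5 0 + μ 1 5 2 *
      μ 2 5 1 + μ 2 5 2 * μ 2 5 2 + μ 3 5 2 * μ 2 5 3 + μ 4 5 2 * μ 2 5 4 - μ 5 6 2 * μ 2 5 6 +
      μ 0 5 3 * μ 3 5 0 + μ 1 5 3 * μ 3 5 1 + μ 2 5 3 * μ 3 5 2 + μ 3 5 3 * μ 3 5 3 + μ 4 5 3 *
      μ 3 5 4 - μ 5 6 3 * μ 3 5 6 + μ 0 5 4 * μ 4 5 0 + μ 1 5 4 * μ 4 5 1 + μ 2 5 4 * μ 4 5 2 +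
      μ 3 5 4 * μ 4 5 3 + μ 4 5 4 * μ 4 5 4 - μ 5 6 4 * μ 4 5 6 - μ 0 5 6 * μ 5 6 0 - μ 1 5 6 *
      μ 5 6 1 - μ 2 5 6 * μ 5 6 2 - μ 3 5 6 * μ 5 6 3 - μ 4 5 6 * μ 5 6 4 + μ 5 6 6 * μ 5 6 6)
      := by
  simp only [Fin.sum_univ_seven, as0 ha, as1 ha, as2 ha, as3 ha, as4 ha, as5 ha, as6 ha]
  ring

theorem g2H5 {μ : Br 7} (ha : Asym μ) : ∑ i, μ 5 i i =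
    (-μ 0 5 0 - μ 1 5 1 - μ 2 5 2 - μ 3 5 3 - μ 4 5 4 + μ 5 6 6) := by
  simp only [Fin.sum_univ_seven, as0 ha, as1 ha, as2 ha, as3 ha, as4 ha, as5 ha, as6 ha]
  ring

theorem g2K6 {μ : Br 7} (ha : Asym μ) : ∑ p, ∑ q, μ 6 q p * μ 6 p q =
    (μ 0 6 0 * μ 0 6 0 + μ 1 6 0 * μ 0 6 1 + μ 2 6 0 * μ 0 6 2 + μ 3 6 0 * μ 0 6 3 + μ 4 6 0 *
      μ 0 6 4 + μ 5 6 0 * μ 0 6 5 + μ 0 6 1 * μ 1 6 0 + μ 1 6 1 * μ 1 6 1 + μ 2 6 1 * μ 1 6 2 +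
      μ 3 6 1 * μ 1 6 3 + μ 4 6 1 * μ 1 6 4 + μ 5 6 1 * μ 1 6 5 + μ 0 6 2 * μ 2 6 0 + μ 1 6 2 *
      μ 2 6 1 + μ 2 6 2 * μ 2 6 2 + μ 3 6 2 * μ 2 6 3 + μ 4 6 2 * μ 2 6 4 + μ 5 6 2 * μ 2 6 5 +
      μ 0 6 3 * μ 3 6 0 + μ 1 6 3 * μ 3 6 1 + μ 2 6 3 * μ 3 6 2 + μ 3 6 3 * μ 3 6 3 + μ 4 6 3 *
      μ 3 6 4 + μ 5 6 3 * μ 3 6 5 + μ 0 6 4 * μ 4 6 0 + μ 1 6 4 * μ 4 6 1 + μ 2 6 4 * μ 4 6 2 +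
      μ 3 6 4 * μ 4 6 3 + μ 4 6 4 * μ 4 6 4 + μ 5 6 4 * μ 4 6 5 + μ 0 6 5 * μ 5 6 0 + μ 1 6 5 *
      μ 5 6 1 + μ 2 6 5 * μ 5 6 2 + μ 3 6 5 * μ 5 6 3 + μ 4 6 5 * μ 5 6 4 + μ 5 6 5 * μ 5 6 5)
      := by
  simp only [Fin.sum_univ_seven, as0 ha, as1 ha, as2 ha, as3 ha, as4 ha, as5 ha, as6 ha]
  ring

theorem g2H6 {μ : Br 7} (ha : Asym μ) : ∑ i, μ 6 i i =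
    (-μ 0 6 0 - μ 1 6 1 - μ 2 6 2 - μ 3 6 3 - μ 4 6 4 - μ 5 6 5) := by
  simp only [Fin.sum_univ_seven, as0 ha, as1 ha, as2 ha, as3 ha, as4 ha, as5 ha, as6 ha]
  ring

theorem g2J1230 {μ : Br 7} (ha : Asym μ) (hj : Jac μ) :
    (μ 1 2 0 * μ 0 3 0 + μ 2 3 0 * μ 0 1 0 - μ 1 3 0 * μ 0 2 0 + μ 1 2 1 * μ 1 3 0 - μ 1 3 1 *
      μ 1 2 0 + μ 1 2 2 * μ 2 3 0 - μ 2 3 2 * μ 1 2 0 - μ 2 3 3 * μ 1 3 0 + μ 1 3 3 * μ 2 3 0 -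
      μ 1 2 4 * μ 3 4 0 - μ 2 3 4 * μ 1 4 0 + μ 1 3 4 * μ 2 4 0 - μ 1 2 5 * μ 3 5 0 - μ 2 3 5 *
      μ 1 5 0 + μ 1 3 5 * μ 2 5 0 - μ 1 2 6 * μ 3 6 0 - μ 2 3 6 * μ 1 6 0 + μ 1 3 6 * μ 2 6 0)
      = 0 := by
  have h := hj 1 2 3 0
  simp only [Fin.sum_univ_seven, as0 ha, as1 ha, as2 ha, as3 ha, as4 ha, as5 ha, as6 ha] at h
  linarith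

theorem g2J0231 {μ : Br 7} (ha : Asym μ) (hj : Jac μ) :
    (μ 0 2 0 * μ 0 3 1 - μ 0 3 0 * μ 0 2 1 + μ 0 2 1 * μ 1 3 1 - μ 2 3 1 * μ 0 1 1 - μ 0 3 1 *
      μ 1 2 1 + μ 0 2 2 * μ 2 3 1 - μ 2 3 2 * μ 0 2 1 - μ 2 3 3 * μ 0 3 1 + μ 0 3 3 * μ 2 3 1 -
      μ 0 2 4 * μ 3 4 1 - μ 2 3 4 * μ 0 4 1 + μ 0 3 4 * μ 2 4 1 - μ 0 2 5 * μ 3 5 1 - μ 2 3 5 *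
      μ 0 5 1 + μ 0 3 5 * μ 2 5 1 - μ 0 2 6 * μ 3 6 1 - μ 2 3 6 * μ 0 6 1 + μ 0 3 6 * μ 2 6 1)
      = 0 := by
  have h := hj 0 2 3 1
  simp only [Fin.sum_univ_seven, as0 ha, as1 ha, as2 ha, as3 ha, as4 ha, as5 ha, as6 ha] at h
  linarith

theorem g2J0132 {μ : Br 7} (ha : Asym μ) (hj : Jac μ) :
    (μ 0 1 0 * μ 0 3 2 - μ 0 3 0 * μ 0 1 2 + μ 0 1 1 * μ 1 3 2 - μ 1 3 1 * μ 0 1 2 + μ 0 1 2 *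
      μ 2 3 2 - μ 1 3 2 * μ 0 2 2 + μ 0 3 2 * μ 1 2 2 - μ 1 3 3 * μ 0 3 2 + μ 0 3 3 * μ 1 3 2 -
      μ 0 1 4 * μ 3 4 2 - μ 1 3 4 * μ 0 4 2 + μ 0 3 4 * μ 1 4 2 - μ 0 1 5 * μ 3 5 2 - μ 1 3 5 *
      μ 0 5 2 + μ 0 3 5 * μ 1 5 2 - μ 0 1 6 * μ 3 6 2 - μ 1 3 6 * μ 0 6 2 + μ 0 3 6 * μ 1 6 2)
      = 0 := by
  have h := hj 0 1 3 2
  simp only [Fin.sum_univ_seven, as0 ha, as1 ha, as2 ha, as3 ha, as4 ha, as5 ha, as6 ha] at h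
  linarith

theorem g2J0123 {μ : Br 7} (ha : Asym μ) (hj : Jac μ) :
    (μ 0 1 0 * μ 0 2 3 - μ 0 2 0 * μ 0 1 3 + μ 0 1 1 * μ 1 2 3 - μ 1 2 1 * μ 0 1 3 - μ 1 2 2 *
      μ 0 2 3 + μ 0 2 2 * μ 1 2 3 - μ 0 1 3 * μ 2 3 3 - μ 1 2 3 * μ 0 3 3 + μ 0 2 3 * μ 1 3 3 -
      μ 0 1 4 * μ 2 4 3 - μ 1 2 4 * μ 0 4 3 + μ 0 2 4 * μ 1 4 3 - μ 0 1 5 * μ 2 5 3 - μ 1 2 5 *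
      μ 0 5 3 + μ 0 2 5 * μ 1 5 3 - μ 0 1 6 * μ 2 6 3 - μ 1 2 6 * μ 0 6 3 + μ 0 2 6 * μ 1 6 3)
      = 0 := by
  have h := hj 0 1 2 3
  simp only [Fin.sum_univ_seven, as0 ha, as1 ha, as2 ha, as3 ha, as4 ha, as5 ha, as6 ha] at h
  linarith

theorem g2J1450 {μ : Br 7} (ha : Asym μ) (hj : Jac μ) :
    (μ 1 4 0 * μ 0 5 0 + μ 4 5 0 * μ 0 1 0 - μ 1 5 0 * μ 0 4 0 + μ 1 4 1 * μ 1 5 0 - μ 1 5 1 *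
      μ 1 4 0 + μ 1 4 2 * μ 2 5 0 - μ 4 5 2 * μ 1 2 0 - μ 1 5 2 * μ 2 4 0 + μ 1 4 3 * μ 3 5 0 -
      μ 4 5 3 * μ 1 3 0 - μ 1 5 3 * μ 3 4 0 + μ 1 4 4 * μ 4 5 0 - μ 4 5 4 * μ 1 4 0 - μ 4 5 5 *
      μ 1 5 0 + μ 1 5 5 * μ 4 5 0 - μ 1 4 6 * μ 5 6 0 - μ 4 5 6 * μ 1 6 0 + μ 1 5 6 * μ 4 6 0)
      = 0 := by
  have h := hj 1 4 5 0
  simp only [Fin.sum_univ_seven, as0 ha, as1 ha, as2 ha, as3 ha, as4 ha, as5 ha, as6 ha] at h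
  linarith

theorem g2J0451 {μ : Br 7} (ha : Asym μ) (hj : Jac μ) :
    (μ 0 4 0 * μ 0 5 1 - μ 0 5 0 * μ 0 4 1 + μ 0 4 1 * μ 1 5 1 - μ 4 5 1 * μ 0 1 1 - μ 0 5 1 *
      μ 1 4 1 + μ 0 4 2 * μ 2 5 1 - μ 4 5 2 * μ 0 2 1 - μ 0 5 2 * μ 2 4 1 + μ 0 4 3 * μ 3 5 1 -
      μ 4 5 3 * μ 0 3 1 - μ 0 5 3 * μ 3 4 1 + μ 0 4 4 * μ 4 5 1 - μ 4 5 4 * μ 0 4 1 - μ 4 5 5 *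
      μ 0 5 1 + μ 0 5 5 * μ 4 5 1 - μ 0 4 6 * μ 5 6 1 - μ 4 5 6 * μ 0 6 1 + μ 0 5 6 * μ 4 6 1)
      = 0 := by
  have h := hj 0 4 5 1
  simp only [Fin.sum_univ_seven, as0 ha, as1 ha, as2 ha, as3 ha, as4 ha, as5 ha, as6 ha] at h
  linarith

theorem g2J0154 {μ : Br 7} (ha : Asym μ) (hj : Jac μ) :
    (μ 0 1 0 * μ 0 5 4 - μ 0 5 0 * μ 0 1 4 + μ 0 1 1 * μ 1 5 4 - μ 1 5 1 * μ 0 1 4 + μ 0 1 2 *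
      μ 2 5 4 - μ 1 5 2 * μ 0 2 4 + μ 0 5 2 * μ 1 2 4 + μ 0 1 3 * μ 3 5 4 - μ 1 5 3 * μ 0 3 4 +
      μ 0 5 3 * μ 1 3 4 + μ 0 1 4 * μ 4 5 4 - μ 1 5 4 * μ 0 4 4 + μ 0 5 4 * μ 1 4 4 - μ 1 5 5 *
      μ 0 5 4 + μ 0 5 5 * μ 1 5 4 - μ 0 1 6 * μ 5 6 4 - μ 1 5 6 * μ 0 6 4 + μ 0 5 6 * μ 1 6 4)
      = 0 := by
  have h := hj 0 1 5 4
  simp only [Fin.sum_univ_seven, as0 ha, as1 ha, as2 ha, as3 ha, as4 ha, as5 ha, as6 ha] at h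
  linarith

theorem g2J0145 {μ : Br 7} (ha : Asym μ) (hj : Jac μ) :
    (μ 0 1 0 * μ 0 4 5 - μ 0 4 0 * μ 0 1 5 + μ 0 1 1 * μ 1 4 5 - μ 1 4 1 * μ 0 1 5 + μ 0 1 2 *
      μ 2 4 5 - μ 1 4 2 * μ 0 2 5 + μ 0 4 2 * μ 1 2 5 + μ 0 1 3 * μ 3 4 5 - μ 1 4 3 * μ 0 3 5 +
      μ 0 4 3 * μ 1 3 5 - μ 1 4 4 * μ 0 4 5 + μ 0 4 4 * μ 1 4 5 - μ 0 1 5 * μ 4 5 5 - μ 1 4 5 *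
      μ 0 5 5 + μ 0 4 5 * μ 1 5 5 - μ 0 1 6 * μ 4 6 5 - μ 1 4 6 * μ 0 6 5 + μ 0 4 6 * μ 1 6 5)
      = 0 := by
  have h := hj 0 1 4 5
  simp only [Fin.sum_univ_seven, as0 ha, as1 ha, as2 ha, as3 ha, as4 ha, as5 ha, as6 ha] at h
  linarith

theorem g2J2560 {μ : Br 7} (ha : Asym μ) (hj : Jac μ) :
    (μ 2 5 0 * μ 0 6 0 + μ 5 6 0 * μ 0 2 0 - μ 2 6 0 * μ 0 5 0 + μ 2 5 1 * μ 1 6 0 + μ 5 6 1 *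
      μ 1 2 0 - μ 2 6 1 * μ 1 5 0 + μ 2 5 2 * μ 2 6 0 - μ 2 6 2 * μ 2 5 0 + μ 2 5 3 * μ 3 6 0 -
      μ 5 6 3 * μ 2 3 0 - μ 2 6 3 * μ 3 5 0 + μ 2 5 4 * μ 4 6 0 - μ 5 6 4 * μ 2 4 0 - μ 2 6 4 *
      μ 4 5 0 + μ 2 5 5 * μ 5 6 0 - μ 5 6 5 * μ 2 5 0 - μ 5 6 6 * μ 2 6 0 + μ 2 6 6 * μ 5 6 0)
      = 0 := by
  have h := hj 2 5 6 0
  simp only [Fin.sum_univ_seven, as0 ha, as1 ha, as2 ha, as3 ha, as4 ha, as5 ha, as6 ha] at h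
  linarith

theorem g2J0562 {μ : Br 7} (ha : Asym μ) (hj : Jac μ) :
    (μ 0 5 0 * μ 0 6 2 - μ 0 6 0 * μ 0 5 2 + μ 0 5 1 * μ 1 6 2 - μ 5 6 1 * μ 0 1 2 - μ 0 6 1 *
      μ 1 5 2 + μ 0 5 2 * μ 2 6 2 - μ 5 6 2 * μ 0 2 2 - μ 0 6 2 * μ 2 5 2 + μ 0 5 3 * μ 3 6 2 -
      μ 5 6 3 * μ 0 3 2 - μ 0 6 3 * μ 3 5 2 + μ 0 5 4 * μ 4 6 2 - μ 5 6 4 * μ 0 4 2 - μ 0 6 4 *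
      μ 4 5 2 + μ 0 5 5 * μ 5 6 2 - μ 5 6 5 * μ 0 5 2 - μ 5 6 6 * μ 0 6 2 + μ 0 6 6 * μ 5 6 2)
      = 0 := by
  have h := hj 0 5 6 2
  simp only [Fin.sum_univ_seven, as0 ha, as1 ha, as2 ha, as3 ha, as4 ha, as5 ha, as6 ha] at h
  linarith

theorem g2J0265 {μ : Br 7} (ha : Asym μ) (hj : Jac μ) :
    (μ 0 2 0 * μ 0 6 5 - μ 0 6 0 * μ 0 2 5 + μ 0 2 1 * μ 1 6 5 - μ 2 6 1 * μ 0 1 5 - μ 0 6 1 *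
      μ 1 2 5 + μ 0 2 2 * μ 2 6 5 - μ 2 6 2 * μ 0 2 5 + μ 0 2 3 * μ 3 6 5 - μ 2 6 3 * μ 0 3 5 +
      μ 0 6 3 * μ 2 3 5 + μ 0 2 4 * μ 4 6 5 - μ 2 6 4 * μ 0 4 5 + μ 0 6 4 * μ 2 4 5 + μ 0 2 5 *
      μ 5 6 5 - μ 2 6 5 * μ 0 5 5 + μ 0 6 5 * μ 2 5 5 - μ 2 6 6 * μ 0 6 5 + μ 0 6 6 * μ 2 6 5)
      = 0 := by
  have h := hj 0 2 6 5
  simp only [Fin.sum_univ_seven, as0 ha, as1 ha, as2 ha, as3 ha, as4 ha, as5 ha, as6 ha] at h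
  linarith

theorem g2J0256 {μ : Br 7} (ha : Asym μ) (hj : Jac μ) :
    (μ 0 2 0 * μ 0 5 6 - μ 0 5 0 * μ 0 2 6 + μ 0 2 1 * μ 1 5 6 - μ 2 5 1 * μ 0 1 6 - μ 0 5 1 *
      μ 1 2 6 + μ 0 2 2 * μ 2 5 6 - μ 2 5 2 * μ 0 2 6 + μ 0 2 3 * μ 3 5 6 - μ 2 5 3 * μ 0 3 6 +
      μ 0 5 3 * μ 2 3 6 + μ 0 2 4 * μ 4 5 6 - μ 2 5 4 * μ 0 4 6 + μ 0 5 4 * μ 2 4 6 - μ 2 5 5 *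
      μ 0 5 6 + μ 0 5 5 * μ 2 5 6 - μ 0 2 6 * μ 5 6 6 - μ 2 5 6 * μ 0 6 6 + μ 0 5 6 * μ 2 6 6)
      = 0 := by
  have h := hj 0 2 5 6
  simp only [Fin.sum_univ_seven, as0 ha, as1 ha, as2 ha, as3 ha, as4 ha, as5 ha, as6 ha] at h
  linarith

theorem g2J3460 {μ : Br 7} (ha : Asym μ) (hj : Jac μ) :
    (μ 3 4 0 * μ 0 6 0 + μ 4 6 0 * μ 0 3 0 - μ 3 6 0 * μ 0 4 0 + μ 3 4 1 * μ 1 6 0 + μ 4 6 1 *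
      μ 1 3 0 - μ 3 6 1 * μ 1 4 0 + μ 3 4 2 * μ 2 6 0 + μ 4 6 2 * μ 2 3 0 - μ 3 6 2 * μ 2 4 0 +
      μ 3 4 3 * μ 3 6 0 - μ 3 6 3 * μ 3 4 0 + μ 3 4 4 * μ 4 6 0 - μ 4 6 4 * μ 3 4 0 + μ 3 4 5 *
      μ 5 6 0 - μ 4 6 5 * μ 3 5 0 + μ 3 6 5 * μ 4 5 0 - μ 4 6 6 * μ 3 6 0 + μ 3 6 6 * μ 4 6 0)
      = 0 := by
  have h := hj 3 4 6 0
  simp only [Fin.sum_univ_seven, as0 ha, as1 ha, as2 ha, as3 ha, as4 ha, as5 ha, as6 ha] at h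
  linarith

theorem g2J0463 {μ : Br 7} (ha : Asym μ) (hj : Jac μ) :
    (μ 0 4 0 * μ 0 6 3 - μ 0 6 0 * μ 0 4 3 + μ 0 4 1 * μ 1 6 3 - μ 4 6 1 * μ 0 1 3 - μ 0 6 1 *
      μ 1 4 3 + μ 0 4 2 * μ 2 6 3 - μ 4 6 2 * μ 0 2 3 - μ 0 6 2 * μ 2 4 3 + μ 0 4 3 * μ 3 6 3 -
      μ 4 6 3 * μ 0 3 3 - μ 0 6 3 * μ 3 4 3 + μ 0 4 4 * μ 4 6 3 - μ 4 6 4 * μ 0 4 3 + μ 0 4 5 *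
      μ 5 6 3 - μ 4 6 5 * μ 0 5 3 + μ 0 6 5 * μ 4 5 3 - μ 4 6 6 * μ 0 6 3 + μ 0 6 6 * μ 4 6 3)
      = 0 := by
  have h := hj 0 4 6 3
  simp only [Fin.sum_univ_seven, as0 ha, as1 ha, as2 ha, as3 ha, as4 ha, as5 ha, as6 ha] at h
  linarith

theorem g2J0364 {μ : Br 7} (ha : Asym μ) (hj : Jac μ) :
    (μ 0 3 0 * μ 0 6 4 - μ 0 6 0 * μ 0 3 4 + μ 0 3 1 * μ 1 6 4 - μ 3 6 1 * μ 0 1 4 - μ 0 6 1 *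
      μ 1 3 4 + μ 0 3 2 * μ 2 6 4 - μ 3 6 2 * μ 0 2 4 - μ 0 6 2 * μ 2 3 4 + μ 0 3 3 * μ 3 6 4 -
      μ 3 6 3 * μ 0 3 4 + μ 0 3 4 * μ 4 6 4 - μ 3 6 4 * μ 0 4 4 + μ 0 6 4 * μ 3 4 4 + μ 0 3 5 *
      μ 5 6 4 - μ 3 6 5 * μ 0 5 4 + μ 0 6 5 * μ 3 5 4 - μ 3 6 6 * μ 0 6 4 + μ 0 6 6 * μ 3 6 4)
      = 0 := by
  have h := hj 0 3 6 4
  simp only [Fin.sum_univ_seven, as0 ha, as1 ha, as2 ha, as3 ha, as4 ha, as5 ha, as6 ha] at h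
  linarith

theorem g2J0346 {μ : Br 7} (ha : Asym μ) (hj : Jac μ) :
    (μ 0 3 0 * μ 0 4 6 - μ 0 4 0 * μ 0 3 6 + μ 0 3 1 * μ 1 4 6 - μ 3 4 1 * μ 0 1 6 - μ 0 4 1 *
      μ 1 3 6 + μ 0 3 2 * μ 2 4 6 - μ 3 4 2 * μ 0 2 6 - μ 0 4 2 * μ 2 3 6 + μ 0 3 3 * μ 3 4 6 -
      μ 3 4 3 * μ 0 3 6 - μ 3 4 4 * μ 0 4 6 + μ 0 4 4 * μ 3 4 6 - μ 0 3 5 * μ 4 5 6 - μ 3 4 5 *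
      μ 0 5 6 + μ 0 4 5 * μ 3 5 6 - μ 0 3 6 * μ 4 6 6 - μ 3 4 6 * μ 0 6 6 + μ 0 4 6 * μ 3 6 6)
      = 0 := by
  have h := hj 0 3 4 6
  simp only [Fin.sum_univ_seven, as0 ha, as1 ha, as2 ha, as3 ha, as4 ha, as5 ha, as6 ha] at h
  linarith

theorem g2J2461 {μ : Br 7} (ha : Asym μ) (hj : Jac μ) :
    (μ 2 4 0 * μ 0 6 1 + μ 4 6 0 * μ 0 2 1 - μ 2 6 0 * μ 0 4 1 + μ 2 4 1 * μ 1 6 1 + μ 4 6 1 *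
      μ 1 2 1 - μ 2 6 1 * μ 1 4 1 + μ 2 4 2 * μ 2 6 1 - μ 2 6 2 * μ 2 4 1 + μ 2 4 3 * μ 3 6 1 -
      μ 4 6 3 * μ 2 3 1 - μ 2 6 3 * μ 3 4 1 + μ 2 4 4 * μ 4 6 1 - μ 4 6 4 * μ 2 4 1 + μ 2 4 5 *
      μ 5 6 1 - μ 4 6 5 * μ 2 5 1 + μ 2 6 5 * μ 4 5 1 - μ 4 6 6 * μ 2 6 1 + μ 2 6 6 * μ 4 6 1)
      = 0 := by
  have h := hj 2 4 6 1
  simp only [Fin.sum_univ_seven, as0 ha, as1 ha, as2 ha, as3 ha, as4 ha, as5 ha, as6 ha] at h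
  linarith

theorem g2J1462 {μ : Br 7} (ha : Asym μ) (hj : Jac μ) :
    (μ 1 4 0 * μ 0 6 2 + μ 4 6 0 * μ 0 1 2 - μ 1 6 0 * μ 0 4 2 + μ 1 4 1 * μ 1 6 2 - μ 1 6 1 *
      μ 1 4 2 + μ 1 4 2 * μ 2 6 2 - μ 4 6 2 * μ 1 2 2 - μ 1 6 2 * μ 2 4 2 + μ 1 4 3 * μ 3 6 2 -
      μ 4 6 3 * μ 1 3 2 - μ 1 6 3 * μ 3 4 2 + μ 1 4 4 * μ 4 6 2 - μ 4 6 4 * μ 1 4 2 + μ 1 4 5 *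
      μ 5 6 2 - μ 4 6 5 * μ 1 5 2 + μ 1 6 5 * μ 4 5 2 - μ 4 6 6 * μ 1 6 2 + μ 1 6 6 * μ 4 6 2)
      = 0 := by
  have h := hj 1 4 6 2
  simp only [Fin.sum_univ_seven, as0 ha, as1 ha, as2 ha, as3 ha, as4 ha, as5 ha, as6 ha] at h
  linarith

theorem g2J1264 {μ : Br 7} (ha : Asym μ) (hj : Jac μ) :
    (μ 1 2 0 * μ 0 6 4 + μ 2 6 0 * μ 0 1 4 - μ 1 6 0 * μ 0 2 4 + μ 1 2 1 * μ 1 6 4 - μ 1 6 1 *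
      μ 1 2 4 + μ 1 2 2 * μ 2 6 4 - μ 2 6 2 * μ 1 2 4 + μ 1 2 3 * μ 3 6 4 - μ 2 6 3 * μ 1 3 4 +
      μ 1 6 3 * μ 2 3 4 + μ 1 2 4 * μ 4 6 4 - μ 2 6 4 * μ 1 4 4 + μ 1 6 4 * μ 2 4 4 + μ 1 2 5 *
      μ 5 6 4 - μ 2 6 5 * μ 1 5 4 + μ 1 6 5 * μ 2 5 4 - μ 2 6 6 * μ 1 6 4 + μ 1 6 6 * μ 2 6 4)
      = 0 := by
  have h := hj 1 2 6 4
  simp only [Fin.sum_univ_seven, as0 ha, as1 ha, as2 ha, as3 ha, as4 ha, as5 ha, as6 ha] at h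
  linarith

theorem g2J1246 {μ : Br 7} (ha : Asym μ) (hj : Jac μ) :
    (μ 1 2 0 * μ 0 4 6 + μ 2 4 0 * μ 0 1 6 - μ 1 4 0 * μ 0 2 6 + μ 1 2 1 * μ 1 4 6 - μ 1 4 1 *
      μ 1 2 6 + μ 1 2 2 * μ 2 4 6 - μ 2 4 2 * μ 1 2 6 + μ 1 2 3 * μ 3 4 6 - μ 2 4 3 * μ 1 3 6 +
      μ 1 4 3 * μ 2 3 6 - μ 2 4 4 * μ 1 4 6 + μ 1 4 4 * μ 2 4 6 - μ 1 2 5 * μ 4 5 6 - μ 2 4 5 *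
      μ 1 5 6 + μ 1 4 5 * μ 2 5 6 - μ 1 2 6 * μ 4 6 6 - μ 2 4 6 * μ 1 6 6 + μ 1 4 6 * μ 2 6 6)
      = 0 := by
  have h := hj 1 2 4 6
  simp only [Fin.sum_univ_seven, as0 ha, as1 ha, as2 ha, as3 ha, as4 ha, as5 ha, as6 ha] at h
  linarith

theorem g2J3452 {μ : Br 7} (ha : Asym μ) (hj : Jac μ) :
    (μ 3 4 0 * μ 0 5 2 + μ 4 5 0 * μ 0 3 2 - μ 3 5 0 * μ 0 4 2 + μ 3 4 1 * μ 1 5 2 + μ 4 5 1 *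
      μ 1 3 2 - μ 3 5 1 * μ 1 4 2 + μ 3 4 2 * μ 2 5 2 + μ 4 5 2 * μ 2 3 2 - μ 3 5 2 * μ 2 4 2 +
      μ 3 4 3 * μ 3 5 2 - μ 3 5 3 * μ 3 4 2 + μ 3 4 4 * μ 4 5 2 - μ 4 5 4 * μ 3 4 2 - μ 4 5 5 *
      μ 3 5 2 + μ 3 5 5 * μ 4 5 2 - μ 3 4 6 * μ 5 6 2 - μ 4 5 6 * μ 3 6 2 + μ 3 5 6 * μ 4 6 2)
      = 0 := by
  have h := hj 3 4 5 2
  simp only [Fin.sum_univ_seven, as0 ha, as1 ha, as2 ha, as3 ha, as4 ha, as5 ha, as6 ha] at h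
  linarith

theorem g2J2453 {μ : Br 7} (ha : Asym μ) (hj : Jac μ) :
    (μ 2 4 0 * μ 0 5 3 + μ 4 5 0 * μ 0 2 3 - μ 2 5 0 * μ 0 4 3 + μ 2 4 1 * μ 1 5 3 + μ 4 5 1 *
      μ 1 2 3 - μ 2 5 1 * μ 1 4 3 + μ 2 4 2 * μ 2 5 3 - μ 2 5 2 * μ 2 4 3 + μ 2 4 3 * μ 3 5 3 -
      μ 4 5 3 * μ 2 3 3 - μ 2 5 3 * μ 3 4 3 + μ 2 4 4 * μ 4 5 3 - μ 4 5 4 * μ 2 4 3 - μ 4 5 5 *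
      μ 2 5 3 + μ 2 5 5 * μ 4 5 3 - μ 2 4 6 * μ 5 6 3 - μ 4 5 6 * μ 2 6 3 + μ 2 5 6 * μ 4 6 3)
      = 0 := by
  have h := hj 2 4 5 3
  simp only [Fin.sum_univ_seven, as0 ha, as1 ha, as2 ha, as3 ha, as4 ha, as5 ha, as6 ha] at h
  linarith

theorem g2J2354 {μ : Br 7} (ha : Asym μ) (hj : Jac μ) :
    (μ 2 3 0 * μ 0 5 4 + μ 3 5 0 * μ 0 2 4 - μ 2 5 0 * μ 0 3 4 + μ 2 3 1 * μ 1 5 4 + μ 3 5 1 *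
      μ 1 2 4 - μ 2 5 1 * μ 1 3 4 + μ 2 3 2 * μ 2 5 4 - μ 2 5 2 * μ 2 3 4 + μ 2 3 3 * μ 3 5 4 -
      μ 3 5 3 * μ 2 3 4 + μ 2 3 4 * μ 4 5 4 - μ 3 5 4 * μ 2 4 4 + μ 2 5 4 * μ 3 4 4 - μ 3 5 5 *
      μ 2 5 4 + μ 2 5 5 * μ 3 5 4 - μ 2 3 6 * μ 5 6 4 - μ 3 5 6 * μ 2 6 4 + μ 2 5 6 * μ 3 6 4)
      = 0 := by
  have h := hj 2 3 5 4
  simp only [Fin.sum_univ_seven, as0 ha, as1 ha, as2 ha, as3 ha, as4 ha, as5 ha, as6 ha] at h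
  linarith

theorem g2J2345 {μ : Br 7} (ha : Asym μ) (hj : Jac μ) :
    (μ 2 3 0 * μ 0 4 5 + μ 3 4 0 * μ 0 2 5 - μ 2 4 0 * μ 0 3 5 + μ 2 3 1 * μ 1 4 5 + μ 3 4 1 *
      μ 1 2 5 - μ 2 4 1 * μ 1 3 5 + μ 2 3 2 * μ 2 4 5 - μ 2 4 2 * μ 2 3 5 + μ 2 3 3 * μ 3 4 5 -
      μ 3 4 3 * μ 2 3 5 - μ 3 4 4 * μ 2 4 5 + μ 2 4 4 * μ 3 4 5 - μ 2 3 5 * μ 4 5 5 - μ 3 4 5 *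
      μ 2 5 5 + μ 2 4 5 * μ 3 5 5 - μ 2 3 6 * μ 4 6 5 - μ 3 4 6 * μ 2 6 5 + μ 2 4 6 * μ 3 6 5)
      = 0 := by
  have h := hj 2 3 4 5
  simp only [Fin.sum_univ_seven, as0 ha, as1 ha, as2 ha, as3 ha, as4 ha, as5 ha, as6 ha] at h
  linarith

theorem g2J3561 {μ : Br 7} (ha : Asym μ) (hj : Jac μ) :
    (μ 3 5 0 * μ 0 6 1 + μ 5 6 0 * μ 0 3 1 - μ 3 6 0 * μ 0 5 1 + μ 3 5 1 * μ 1 6 1 + μ 5 6 1 *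
      μ 1 3 1 - μ 3 6 1 * μ 1 5 1 + μ 3 5 2 * μ 2 6 1 + μ 5 6 2 * μ 2 3 1 - μ 3 6 2 * μ 2 5 1 +
      μ 3 5 3 * μ 3 6 1 - μ 3 6 3 * μ 3 5 1 + μ 3 5 4 * μ 4 6 1 - μ 5 6 4 * μ 3 4 1 - μ 3 6 4 *
      μ 4 5 1 + μ 3 5 5 * μ 5 6 1 - μ 5 6 5 * μ 3 5 1 - μ 5 6 6 * μ 3 6 1 + μ 3 6 6 * μ 5 6 1)
      = 0 := by
  have h := hj 3 5 6 1
  simp only [Fin.sum_univ_seven, as0 ha, as1 ha, as2 ha, as3 ha, as4 ha, as5 ha, as6 ha] at h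
  linarith

theorem g2J1563 {μ : Br 7} (ha : Asym μ) (hj : Jac μ) :
    (μ 1 5 0 * μ 0 6 3 + μ 5 6 0 * μ 0 1 3 - μ 1 6 0 * μ 0 5 3 + μ 1 5 1 * μ 1 6 3 - μ 1 6 1 *
      μ 1 5 3 + μ 1 5 2 * μ 2 6 3 - μ 5 6 2 * μ 1 2 3 - μ 1 6 2 * μ 2 5 3 + μ 1 5 3 * μ 3 6 3 -
      μ 5 6 3 * μ 1 3 3 - μ 1 6 3 * μ 3 5 3 + μ 1 5 4 * μ 4 6 3 - μ 5 6 4 * μ 1 4 3 - μ 1 6 4 *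
      μ 4 5 3 + μ 1 5 5 * μ 5 6 3 - μ 5 6 5 * μ 1 5 3 - μ 5 6 6 * μ 1 6 3 + μ 1 6 6 * μ 5 6 3)
      = 0 := by
  have h := hj 1 5 6 3
  simp only [Fin.sum_univ_seven, as0 ha, as1 ha, as2 ha, as3 ha, as4 ha, as5 ha, as6 ha] at h
  linarith

theorem g2J1365 {μ : Br 7} (ha : Asym μ) (hj : Jac μ) :
    (μ 1 3 0 * μ 0 6 5 + μ 3 6 0 * μ 0 1 5 - μ 1 6 0 * μ 0 3 5 + μ 1 3 1 * μ 1 6 5 - μ 1 6 1 *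
      μ 1 3 5 + μ 1 3 2 * μ 2 6 5 - μ 3 6 2 * μ 1 2 5 - μ 1 6 2 * μ 2 3 5 + μ 1 3 3 * μ 3 6 5 -
      μ 3 6 3 * μ 1 3 5 + μ 1 3 4 * μ 4 6 5 - μ 3 6 4 * μ 1 4 5 + μ 1 6 4 * μ 3 4 5 + μ 1 3 5 *
      μ 5 6 5 - μ 3 6 5 * μ 1 5 5 + μ 1 6 5 * μ 3 5 5 - μ 3 6 6 * μ 1 6 5 + μ 1 6 6 * μ 3 6 5)
      = 0 := by
  have h := hj 1 3 6 5
  simp only [Fin.sum_univ_seven, as0 ha, as1 ha, as2 ha, as3 ha, as4 ha, as5 ha, as6 ha] at h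
  linarith

theorem g2J1356 {μ : Br 7} (ha : Asym μ) (hj : Jac μ) :
    (μ 1 3 0 * μ 0 5 6 + μ 3 5 0 * μ 0 1 6 - μ 1 5 0 * μ 0 3 6 + μ 1 3 1 * μ 1 5 6 - μ 1 5 1 *
      μ 1 3 6 + μ 1 3 2 * μ 2 5 6 - μ 3 5 2 * μ 1 2 6 - μ 1 5 2 * μ 2 3 6 + μ 1 3 3 * μ 3 5 6 -
      μ 3 5 3 * μ 1 3 6 + μ 1 3 4 * μ 4 5 6 - μ 3 5 4 * μ 1 4 6 + μ 1 5 4 * μ 3 4 6 - μ 3 5 5 *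
      μ 1 5 6 + μ 1 5 5 * μ 3 5 6 - μ 1 3 6 * μ 5 6 6 - μ 3 5 6 * μ 1 6 6 + μ 1 5 6 * μ 3 6 6)
      = 0 := by
  have h := hj 1 3 5 6
  simp only [Fin.sum_univ_seven, as0 ha, as1 ha, as2 ha, as3 ha, as4 ha, as5 ha, as6 ha] at h
  linarith

end Pool.Agent.H787.SP
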