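import Pool.Agent.H787.SP.G2F

/-! `d∗φ` is alternating, hence determined by its components with increasing indices. -/

set_option autoImplicit false
set_option maxHeartbeats 4000000

namespace Pool.Agent.H787.SP
open Matrix R877.RN R877.RN.BASA

section swaps
variable {μ : Br 7} {α : Fin 7 → Fin 7 → Fin 7 → Fin 7 → ℝ}

lemma dd4_s1 (ha : Asym μ) (h1 : ∀ m a b c, α m b a c = -α m a b c) (i j k l p : Fin 7) :
    dd4 μ α j i k l p = - dd4 μ α i j k l p := by
  unfold dd4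
  rw [← Finset.sum_neg_distrib]
  refine Finset.sum_congr rfl fun m _ => ?_
  rw [ha j i m, h1 m i j p, h1 m i j l, h1 m i j k]
  ring

lemma dd4_s2 (ha : Asym μ) (h1 : ∀ m a b c, α m b a c = -α m a b c)
    (h2 : ∀ m a b c, α m a c b = -α m a b c) (i j k l p : Fin 7) :
    dd4 μ α i k j l p = - dd4 μ α i j k l p := by
  unfold dd4
  rw [← Finset.sum_neg_distrib]
  refine Finset.sum_congr rfl fun m _ => ?_
  rw [ha k j m, h1 m j k p, h1 m j k l, h2 m i j k]
  ring

lemma dd4_s3 (ha : Asym μ) (h1 : ∀ m a b c, α m b a c = -α m a b c)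
    (h2 : ∀ m a b c, α m a c b = -α m a b c) (i j k l p : Fin 7) :
    dd4 μ α i j l k p = - dd4 μ α i j k l p := by
  unfold dd4
  rw [← Finset.sum_neg_distrib]
  refine Finset.sum_congr rfl fun m _ => ?_
  rw [ha l k m, h1 m k l p, h2 m j k l, h2 m i k l]
  ring

lemma dd4_s4 (ha : Asym μ) (h2 : ∀ m a b c, α m a c b = -α m a b c) (i j k l p : Fin 7) :
    dd4 μ α i j k p l = - dd4 μ α i j k l p := by
  unfold dd4
  rw [← Finset.sum_neg_distrib]
  refine Finset.sum_congr rfl fun m _ => ?_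
  rw [ha p l m, h2 m k l p, h2 m j l p, h2 m i l p]
  ring

end swaps

/-- an alternating family vanishes if it vanishes on increasing tuples -/
theorem alt_zero (T : Fin 7 → Fin 7 → Fin 7 → Fin 7 → Fin 7 → ℝ)
    (s1 : ∀ i j k l p, T j i k l p = -T i j k l p) (s2 : ∀ i j k l p, T i k j l p = -T i j k l p)
    (s3 : ∀ i j k l p, T i j l k p = -T i j k l p) (s4 : ∀ i j k l p, T i j k p l = -T i j k l p)
    (h : ∀ i j k l p, i < j → j < k → k < l → l < p → T i j k l p = 0) :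
    ∀ i j k l p, T i j k l p = 0 := by
  set g : (Fin 5 → Fin 7) → ℝ := fun v => T (v 0) (v 1) (v 2) (v 3) (v 4) with hg
  have hP : ∀ σ : Equiv.Perm (Fin 5), ∀ v, g (v ∘ σ) = g v ∨ g (v ∘ σ) = - g v := by
    intro σ
    have hσ : σ ∈ Submonoid.closure
        (Set.range fun i : Fin 4 => Equiv.swap i.castSucc i.succ) := by
      rw [Equiv.Perm.mclosure_swap_castSucc_succ]
      exact Submonoid.mem_top _
    induction hσ using Submonoid.closure_induction with
    | mem x hx =>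
      obtain ⟨i, rfl⟩ := hx
      intro v
      right
      fin_cases i
      · exact s1 _ _ _ _ _
      · exact s2 _ _ _ _ _
      · exact s3 _ _ _ _ _
      · exact s4 _ _ _ _ _
    | one => intro v; left; rfl
    | mul x y _ _ hx hy =>
      intro v
      have e1 : g (v ∘ (x * y : Equiv.Perm (Fin 5))) = g ((v ∘ x) ∘ y) := rfl
      rw [e1]
      rcases hy (v ∘ x) with h1 | h1 <;> rcases hx v with h2 | h2 <;> rw [h1, h2]
      · left; rfl
      · right; rfl
      · right; rfl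
      · left; ring
  intro i j k l p
  set v : Fin 5 → Fin 7 := ![i, j, k, l, p] with hv
  have hgv : g v = T i j k l p := rfl
  set σ := Tuple.sort v with hσ
  have hmono : Monotone (v ∘ σ) := Tuple.monotone_sort v
  have hz : g (v ∘ σ) = 0 := by
    set u := v ∘ σ with hu
    have m01 : u 0 ≤ u 1 := hmono (by decide)
    have m12 : u 1 ≤ u 2 := hmono (by decide)
    have m23 : u 2 ≤ u 3 := hmono (by decide)
    have m34 : u 3 ≤ u 4 := hmono (by decide)
    show T (u 0) (u 1) (u 2) (u 3) (u 4) = 0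
    rcases m01.lt_or_eq with h01 | h01
    · rcases m12.lt_or_eq with h12 | h12
      · rcases m23.lt_or_eq with h23 | h23
        · rcases m34.lt_or_eq with h34 | h34
          · exact h _ _ _ _ _ h01 h12 h23 h34
          · have := s4 (u 0) (u 1) (u 2) (u 3) (u 3)
            rw [← h34]; linarith
        · have := s3 (u 0) (u 1) (u 2) (u 2) (u 4)
          rw [← h23]; linarith
      · have := s2 (u 0) (u 1) (u 1) (u 3) (u 4)
        rw [← h12]; linarith
    · have := s1 (u 0) (u 0) (u 2) (u 3) (u 4)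
      rw [← h01]; linarith
  rw [← hgv]
  rcases hP σ v with h1 | h1
  · rw [← h1, hz]
  · rw [hz] at h1; linarith

theorem dd4_all {μ : Br 7} (ha : Asym μ)
    (h : ∀ i j k l p, i < j → j < k → k < l → l < p → dd4 μ psiR i j k l p = 0) :
    ∀ i j k l p, dd4 μ psiR i j k l p = 0 := by
  have h1 : ∀ m a b c, psiR m b a c = -psiR m a b c := by
    intro m a b c
    unfold psiR
    rw [psi_s1 m a b c]
    push_cast
    ring
  have h2 : ∀ m a b c, psiR m a c b = -psiR m a b c := by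
    intro m a b c
    unfold psiR
    rw [psi_s2 m a b c]
    push_cast
    ring
  exact alt_zero _ (dd4_s1 ha h1) (dd4_s2 ha h1 h2) (dd4_s3 ha h1 h2) (dd4_s4 ha h2) h

/-- for a closed structure the scalar curvature is nonpositive, and negative unless it is
torsion free -/
theorem g2_neg {μ : Br 7} (ha : Asym μ) (hj : Jac μ) (hc : ∀ i j k l, dd3 μ phiR i j k l = 0)
    (hn : ¬ ∀ i j k l p, dd4 μ psiR i j k l p = 0) : (Rc μ).trace < 0 := by
  rw [g2_scal ha hj hc]
  by_contra hle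
  push Not at hle
  apply hn
  apply dd4_all ha
  have n1 := sq_nonneg (dd4 μ psiR 0 1 2 3 4)
  have n2 := sq_nonneg (dd4 μ psiR 0 1 2 3 5)
  have n3 := sq_nonneg (dd4 μ psiR 0 1 2 3 6)
  have n4 := sq_nonneg (dd4 μ psiR 0 1 2 4 5)
  have n5 := sq_nonneg (dd4 μ psiR 0 1 2 4 6)
  have n6 := sq_nonneg (dd4 μ psiR 0 1 2 5 6)
  have n7 := sq_nonneg (dd4 μ psiR 0 1 3 4 5)
  have n8 := sq_nonneg (dd4 μ psiR 0 1 3 4 6)
  have n9 := sq_nonneg (dd4 μ psiR 0 1 3 5 6)
  have n10 := sq_nonneg (dd4 μ psiR 0 1 4 5 6)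
  have n11 := sq_nonneg (dd4 μ psiR 0 2 3 4 5)
  have n12 := sq_nonneg (dd4 μ psiR 0 2 3 4 6)
  have n13 := sq_nonneg (dd4 μ psiR 0 2 3 5 6)
  have n14 := sq_nonneg (dd4 μ psiR 0 2 4 5 6)
  have n15 := sq_nonneg (dd4 μ psiR 0 3 4 5 6)
  have n16 := sq_nonneg (dd4 μ psiR 1 2 3 4 5)
  have n17 := sq_nonneg (dd4 μ psiR 1 2 3 4 6)
  have n18 := sq_nonneg (dd4 μ psiR 1 2 3 5 6)
  have n19 := sq_nonneg (dd4 μ psiR 1 2 4 5 6)
  have n20 := sq_nonneg (dd4 μ psiR 1 3 4 5 6)
  have n21 := sq_nonneg (dd4 μ psiR 2 3 4 5 6)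
  have key : ∀ x : ℝ, x ^ 2 ≤ 0 → x = 0 := by
    intro x hx
    exact pow_eq_zero_iff (by norm_num) |>.1 (le_antisymm hx (sq_nonneg x))
  have z1 := key (dd4 μ psiR 0 1 2 3 4) (by linarith)
  have z2 := key (dd4 μ psiR 0 1 2 3 5) (by linarith)
  have z3 := key (dd4 μ psiR 0 1 2 3 6) (by linarith)
  have z4 := key (dd4 μ psiR 0 1 2 4 5) (by linarith)
  have z5 := key (dd4 μ psiR 0 1 2 4 6) (by linarith)
  have z6 := key (dd4 μ psiR 0 1 2 5 6) (by linarith)
  have z7 := key (dd4 μ psiR 0 1 3 4 5) (by linarith)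
  have z8 := key (dd4 μ psiR 0 1 3 4 6) (by linarith)
  have z9 := key (dd4 μ psiR 0 1 3 5 6) (by linarith)
  have z10 := key (dd4 μ psiR 0 1 4 5 6) (by linarith)
  have z11 := key (dd4 μ psiR 0 2 3 4 5) (by linarith)
  have z12 := key (dd4 μ psiR 0 2 3 4 6) (by linarith)
  have z13 := key (dd4 μ psiR 0 2 3 5 6) (by linarith)
  have z14 := key (dd4 μ psiR 0 2 4 5 6) (by linarith)
  have z15 := key (dd4 μ psiR 0 3 4 5 6) (by linarith)
  have z16 := key (dd4 μ psiR 1 2 3 4 5) (by linarith)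
  have z17 := key (dd4 μ psiR 1 2 3 4 6) (by linarith)
  have z18 := key (dd4 μ psiR 1 2 3 5 6) (by linarith)
  have z19 := key (dd4 μ psiR 1 2 4 5 6) (by linarith)
  have z20 := key (dd4 μ psiR 1 3 4 5 6) (by linarith)
  have z21 := key (dd4 μ psiR 2 3 4 5 6) (by linarith)
  clear n1 n2 n3 n4 n5 n6 n7 n8 n9 n10 n11 n12 n13 n14 n15 n16 n17 n18 n19 n20 n21 key hle
  have dec : ∀ i j k l p : Fin 7, i < j → j < k → k < l → l < p →
      (i, j, k, l, p) ∈ ([(0,1,2,3,4), (0,1,2,3,5), (0,1,2,3,6), (0,1,2,4,5), (0,1,2,4,6),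
        (0,1,2,5,6), (0,1,3,4,5), (0,1,3,4,6), (0,1,3,5,6), (0,1,4,5,6), (0,2,3,4,5),
        (0,2,3,4,6), (0,2,3,5,6), (0,2,4,5,6), (0,3,4,5,6), (1,2,3,4,5), (1,2,3,4,6),
        (1,2,3,5,6), (1,2,4,5,6), (1,3,4,5,6), (2,3,4,5,6)] :
        List (Fin 7 × Fin 7 × Fin 7 × Fin 7 × Fin 7)) := by
    decide +kernel
  intro i j k l p h1 h2 h3 h4
  have hm := dec i j k l p h1 h2 h3 h4
  simp only [List.mem_cons, Prod.mk.injEq, List.not_mem_nil, or_false] at hm
  rcases hm with h | h | h | h | h | h | h | h | h | h | h | h | h | h | h | h | h | h | h | h | h <;>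
    obtain ⟨rfl, rfl, rfl, rfl, rfl⟩ := h <;> assumption

end Pool.Agent.H787.SP
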