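import Pool.Agent.H787.SP.Rot
import Pool.Agent.H787.G.R_seed8.Helper348.RN.JC
import Pool.Agent.H787.G.R_seed8.Helper348.RN.FUG
import Pool.Agent.H787.G.R_seed8.R289.RN.NORM

/-! A derivation gives a compatible weighted orthonormal frame (real parts of eigenvalues). -/

set_option autoImplicit false

namespace Pool.Agent.H787.SP
open Matrix R877.RN R877.RN.BASA R877.RN.TR0

variable {n : ℕ}

lemma tr_mul_eq_sum {A B : Mat n} (hB : Bᵀ = B) :
    (A * B).trace = ∑ p : Fin n × Fin n, A p.1 p.2 * B p.1 p.2 := by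
  rw [Fintype.sum_prod_type]
  simp only [Matrix.trace, Matrix.diag_apply, Matrix.mul_apply]
  refine Finset.sum_congr rfl fun i _ => Finset.sum_congr rfl fun j _ => ?_
  conv_lhs => rw [← hB]
  rw [Matrix.transpose_apply]

lemma tr_sq_nonneg {A : Mat n} (hA : Aᵀ = A) : 0 ≤ (A * A).trace := by
  rw [tr_mul_eq_sum hA]
  exact Finset.sum_nonneg fun p _ => mul_self_nonneg _

lemma tr_sq_eq_zero {A : Mat n} (hA : Aᵀ = A) (h : (A * A).trace ≤ 0) : A = 0 := by
  have h0 := le_antisymm h (tr_sq_nonneg hA)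
  rw [tr_mul_eq_sum hA] at h0
  rw [Finset.sum_eq_zero_iff_of_nonneg fun p _ => mul_self_nonneg _] at h0
  ext i j
  exact mul_self_eq_zero.1 (h0 (i, j) (Finset.mem_univ _))

/-- Cauchy-Schwarz for symmetric matrices -/
lemma tr_CS {A B : Mat n} (hA : Aᵀ = A) (hB : Bᵀ = B) :
    (A * B).trace ^ 2 ≤ (A * A).trace * (B * B).trace := by
  rw [tr_mul_eq_sum hB, tr_mul_eq_sum hA, tr_mul_eq_sum hB]
  have h := Finset.sum_mul_sq_le_sq_mul_sq (Finset.univ : Finset (Fin n × Fin n))
    (fun p => A p.1 p.2) (fun p => B p.1 p.2)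
  simpa only [pow_two] using h

lemma E_symm (l : Mat n) (a : Fin n → ℝ) : (lᵀ * diagonal a * l)ᵀ = lᵀ * diagonal a * l := by
  rw [Matrix.transpose_mul, Matrix.transpose_mul, Matrix.transpose_transpose,
    Matrix.diagonal_transpose, Matrix.mul_assoc]

lemma tr_E (l : Mat n) (a : Fin n → ℝ) (hl : IsO l) : (lᵀ * diagonal a * l).trace = ∑ i, a i := by
  rw [Matrix.trace_mul_comm, ← Matrix.mul_assoc]
  have h : l * lᵀ = 1 := hl
  rw [h, Matrix.one_mul, Matrix.trace_diagonal]

lemma tr_EE {l : Mat n} (hl : IsO l) (a : Fin n → ℝ) :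
    ((lᵀ * diagonal a * l) * (lᵀ * diagonal a * l)).trace = ∑ i, (a i)^2 := by
  have h : l * lᵀ = 1 := hl
  have h1 : (lᵀ * diagonal a * l) * (lᵀ * diagonal a * l)
      = lᵀ * diagonal (fun i => (a i)^2) * l := by
    calc (lᵀ * diagonal a * l) * (lᵀ * diagonal a * l)
        = lᵀ * diagonal a * (l * lᵀ) * diagonal a * l := by simp only [Matrix.mul_assoc]
      _ = lᵀ * (diagonal a * diagonal a) * l := by
        rw [h, Matrix.mul_one, Matrix.mul_assoc lᵀ]
      _ = _ := by
        rw [Matrix.diagonal_mul_diagonal]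
        simp only [pow_two]
  rw [h1, tr_E l _ hl]

lemma par_of_comm {d : Fin n → ℝ} {M : Mat n} (h : M * diagonal d = diagonal d * M) :
    Par d M := by
  intro i j hne
  have h1 := congrFun (congrFun h i) j
  rw [Matrix.mul_diagonal, Matrix.diagonal_mul] at h1
  have h2 : M i j * (d j - d i) = 0 := by rw [mul_sub, h1]; ring
  rcases mul_eq_zero.1 h2 with h3 | h3
  · exact absurd h3 hne
  · linarith

/-- semisimple part of a derivation -/
lemma ss_part {μ : Br n} {A : Mat n} (hA : IsDer A μ) :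
    ∃ S N : Mat n, A = N + S ∧ IsNilpotent N ∧ N * S = S * N ∧ IsDer S μ ∧
      Module.End.IsSemisimple (Matrix.toLin' S) := by
  set f : Module.End ℝ (Fin n → ℝ) := Matrix.toLin' A with hf
  obtain ⟨N, hNa, S, hSa, hNn, hSs, hfA⟩ := f.exists_isNilpotent_isSemisimple
  have hfS : Commute f S := Algebra.commute_of_mem_adjoin_self hSa
  have hNS : Commute N S := by
    have : N = f - S := by rw [hfA]; abel
    rw [this]
    exact hfS.sub_left (Commute.refl S)
  have hnil : IsNilpotent (f - S) := by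
    have : f - S = N := by rw [hfA]; abel
    rw [this]; exact hNn
  obtain ⟨p1, p2, p3⟩ := JCAux.diff_props hSs hSs hnil hnil hfS hfS
  have hder := der_iff.1 hA
  have h1 := JCAux.key (V := Fin n → ℝ) (W := (Fin n → ℝ) →ₗ[ℝ] (Fin n → ℝ)) hSs p1 hnil p2
    hfS p3 (Fl μ) 1 (by
      rw [pow_one]
      refine LinearMap.ext fun a => LinearMap.ext fun b => ?_
      show (f (Fl μ a b) - Fl μ a (f b)) - Fl μ (f a) b = 0
      have h2 : f (Fl μ a b) = Fl μ (f a) b + Fl μ a (f b) := by
        simp only [hf, Matrix.toLin'_apply]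
        exact hder a b
      rw [h2]; abel)
  refine ⟨LinearMap.toMatrix' S, LinearMap.toMatrix' N, ?_, ?_, ?_, ?_, ?_⟩
  · have : A = LinearMap.toMatrix' f := by rw [hf, LinearMap.toMatrix'_toLin']
    rw [this, hfA, map_add]
  · obtain ⟨k, hk⟩ := hNn
    refine ⟨k, ?_⟩
    have : LinearMap.toMatrix' (N ^ k) = (LinearMap.toMatrix' N) ^ k :=
      map_pow LinearMap.toMatrixAlgEquiv' N k
    rw [← this, hk, map_zero]
  · rw [← LinearMap.toMatrix'_mul, ← LinearMap.toMatrix'_mul, hNS.eq]
  · rw [der_iff]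
    intro x y
    simp only [LinearMap.toMatrix'_mulVec]
    have h2 := LinearMap.congr_fun (h1 x) y
    have h3 : S (Fl μ x y) - Fl μ x (S y) = Fl μ (S x) y := h2
    rw [← h3]; abel
  · rw [Matrix.toLin'_toMatrix']
    exact hSs

theorem partC {μ : Br n} {A : Mat n} (hA : IsDer A μ) :
    ∃ (l : Mat n) (d : Fin n → ℝ), IsO l ∧ CB l d μ ∧ ∑ i, d i = A.trace ∧
      ∑ i, (d i)^2 ≤ (sy A * sy A).trace := by
  obtain ⟨S, N, hAeq, hN, hNS, hSder, hSs⟩ := ss_part hA
  obtain ⟨β, d, hnorm, hsy⟩ := p_NORM (Fin n → ℝ) n 0 (fun _ => Matrix.toLin' S) (by simp)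
    (fun _ => hSs) (fun _ _ => Commute.refl _)
  replace hnorm := hnorm 0
  set M : Mat n := LinearMap.toMatrix β β (Matrix.toLin' S) with hM
  set st := Pi.basisFun ℝ (Fin n) with hst
  set c : Mat n := β.toMatrix st with hc
  set c' : Mat n := st.toMatrix β with hc'
  have hcc' : c * c' = 1 := β.toMatrix_mul_toMatrix_flip st
  have hcinv : c⁻¹ = c' := Matrix.inv_eq_right_inv hcc'
  have hcdet : IsUnit c.det := Matrix.isUnit_det_of_right_inverse hcc'
  have hMc : M = conj c S := by
    have h1 := basis_toMatrix_mul_linearMap_toMatrix_mul_basis_toMatrix (b := β) (b' := st)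
      (c := β) (c' := st) (f := Matrix.toLin' S)
    rw [conj, hcinv, hM, ← h1]
    have h2 : LinearMap.toMatrix st st (Matrix.toLin' S) = S := by
      rw [hst]
      exact LinearMap.toMatrix'_toLin' S
    rw [h2]
  have hMder : IsDer M (act c μ) := by
    rw [hMc]; exact p_DERACT n c S μ hcdet hSder
  have hMTder : IsDer Mᵀ (act c μ) := p_DERT n M _ hnorm hMder
  have hdder : ∀ i j k, act c μ i j k ≠ 0 → d i + d j = d k := by
    intro i j k hne
    have h1 := der_add hMder hMTder i j k
    have h2 : M + Mᵀ = (2:ℝ) • diagonal d := by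
      rw [← hsy]
      unfold sy
      rw [smul_smul]
      norm_num
    rw [h2] at h1
    simp only [Matrix.smul_apply, smul_eq_mul, mul_assoc, ← Finset.mul_sum] at h1
    rw [← mul_add] at h1
    have h3 := mul_left_cancel₀ (by norm_num : (2:ℝ) ≠ 0) h1
    have e1 : ∑ r, diagonal d k r * act c μ i j r = d k * act c μ i j k := by
      rw [Finset.sum_eq_single k]
      · rw [Matrix.diagonal_apply_eq]
      · intro b _ hb
        rw [Matrix.diagonal_apply_ne _ (Ne.symm hb), zero_mul]
      · intro h; exact absurd (Finset.mem_univ _) h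
    have e2 : ∑ p, diagonal d p i * act c μ p j k = d i * act c μ i j k := by
      rw [Finset.sum_eq_single i]
      · rw [Matrix.diagonal_apply_eq]
      · intro b _ hb
        rw [Matrix.diagonal_apply_ne _ hb, zero_mul]
      · intro h; exact absurd (Finset.mem_univ _) h
    have e3 : ∑ q, diagonal d q j * act c μ i q k = d j * act c μ i j k := by
      rw [Finset.sum_eq_single j]
      · rw [Matrix.diagonal_apply_eq]
      · intro b _ hb
        rw [Matrix.diagonal_apply_ne _ hb, zero_mul]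
      · intro h; exact absurd (Finset.mem_univ _) h
    rw [e1, e2, e3, ← add_mul] at h3
    exact (mul_right_cancel₀ hne h3).symm
  have hdetinv : IsUnit (c⁻¹).det := by
    rw [Matrix.det_nonsing_inv]
    exact hcdet.ringInverse
  obtain ⟨k, hk, hpar⟩ := p_QR n d c⁻¹ hdetinv
  set p : Mat n := k * c⁻¹ with hp
  have hpdet : IsUnit p.det := by
    rw [hp, Matrix.det_mul]
    exact (IsO.det hk).mul hdetinv
  have hkp : k = p * c := by
    rw [hp, Matrix.mul_assoc, Matrix.nonsing_inv_mul _ hcdet, Matrix.mul_one]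
  have hact : act k μ = act p (act c μ) := by
    rw [hkp, p_ACTMUL n p c μ hpdet hcdet]
  have hCB : CB k d μ := by
    intro i j m hne
    rw [hact] at hne
    exact p_ACTP n d p (act c μ) hpdet hpar (fun i j m h => (hdder i j m h).le) i j m hne
  -- commutation with diagonal d
  have hdiag : diagonal d = (1/2 : ℝ) • (M + Mᵀ) := hsy.symm
  have hcomm : ∀ X : Mat n, X * M = M * X → Par d X := by
    intro X hX
    apply par_of_comm
    have h2 := p_FUG n M X hnorm hX
    rw [hdiag, Matrix.mul_smul, Matrix.smul_mul, Matrix.mul_add, Matrix.add_mul, hX, h2]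
  have hM' : Par d M := hcomm M rfl
  set N' : Mat n := conj c N with hN'
  have hN'M : N' * M = M * N' := by
    rw [hN', hMc, conj, conj]
    calc c * N * c⁻¹ * (c * S * c⁻¹) = c * N * (c⁻¹ * c) * S * c⁻¹ := by
          simp only [Matrix.mul_assoc]
      _ = c * (N * S) * c⁻¹ := by
          rw [Matrix.nonsing_inv_mul _ hcdet, Matrix.mul_one]; simp only [Matrix.mul_assoc]
      _ = c * (S * N) * c⁻¹ := by rw [hNS]
      _ = c * S * (c⁻¹ * c) * N * c⁻¹ := by
          rw [Matrix.nonsing_inv_mul _ hcdet, Matrix.mul_one]; simp only [Matrix.mul_assoc]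
      _ = _ := by simp only [Matrix.mul_assoc]
  have hN'par : Par d N' := hcomm N' hN'M
  have hN'nil : IsNilpotent N' := by
    obtain ⟨m, hm⟩ := hN
    refine ⟨m, ?_⟩
    have : ∀ m : ℕ, N' ^ m = c * N ^ m * c⁻¹ := by
      intro m
      induction m with
      | zero => rw [pow_zero, pow_zero, Matrix.mul_one, Matrix.mul_nonsing_inv _ hcdet]
      | succ m ih =>
        rw [pow_succ, ih, hN', conj, pow_succ]
        calc c * N ^ m * c⁻¹ * (c * N * c⁻¹) = c * N ^ m * (c⁻¹ * c) * N * c⁻¹ := by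
              simp only [Matrix.mul_assoc]
          _ = _ := by
              rw [Matrix.nonsing_inv_mul _ hcdet, Matrix.mul_one]; simp only [Matrix.mul_assoc]
    rw [this, hm, Matrix.mul_zero, Matrix.zero_mul]
  have hAc : conj c A = N' + M := by
    rw [hAeq, hN', hMc, conj, conj, conj, Matrix.mul_add, Matrix.add_mul]
  have hdtA : dt A k d = ∑ i, (d i)^2 := by
    have h1 : k * A * kᵀ = p * conj c A * p⁻¹ := by
      rw [← IsO.inv hk, hkp, Matrix.mul_inv_rev, conj]
      simp only [Matrix.mul_assoc]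
    have h2 : dt A k d = ∑ i, d i * (p * conj c A * p⁻¹) i i := by
      rw [← h1]; rfl
    rw [h2, p_BT p_PINV n d p (conj c A) hpdet hpar (by
      rw [hAc]
      intro i j hne
      by_contra hlt
      have e1 : N' i j = 0 := by
        by_contra h0; exact hlt (hN'par i j h0)
      have e2 : M i j = 0 := by
        by_contra h0; exact hlt (hM' i j h0)
      exact hne (by rw [Matrix.add_apply, e1, e2, add_zero])), hAc]
    simp only [Matrix.add_apply, mul_add, Finset.sum_add_distrib]
    rw [p_NIL0 n d N' hN'nil hN'par, zero_add]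
    refine Finset.sum_congr rfl fun i _ => ?_
    have h3 := congrFun (congrFun hdiag i) i
    rw [Matrix.diagonal_apply_eq, Matrix.smul_apply, Matrix.add_apply, Matrix.transpose_apply,
      smul_eq_mul] at h3
    have h4 : M i i = d i := by linarith
    rw [h4, pow_two]
  have hsum : ∑ i, d i = A.trace := by
    have h1 : M.trace = ∑ i, d i := by
      rw [← Matrix.trace_diagonal, ← hsy, tr_sy]
    have h2 : (conj c A).trace = A.trace := tr_conj hcdet A
    have h3 : N'.trace = 0 := (Matrix.isNilpotent_trace_of_isNilpotent hN'nil).eq_zero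
    rw [← h1, ← h2, hAc, Matrix.trace_add, h3, zero_add]
  refine ⟨k, d, hk, hCB, hsum, ?_⟩
  have hE := E_symm k d
  have h1 : (sy A * (kᵀ * diagonal d * k)).trace = ∑ i, (d i)^2 := by
    rw [tr_sy_mul hE, ← dt_eq, hdtA]
  have h2 := tr_CS (sy_symm A) hE
  rw [h1, tr_EE hk] at h2
  have h0 : 0 ≤ ∑ i, (d i)^2 := Finset.sum_nonneg fun i _ => sq_nonneg _
  rcases h0.eq_or_lt with h3 | h3
  · rw [← h3]; exact tr_sq_nonneg (sy_symm A)
  · rw [pow_two] at h2
    exact le_of_mul_le_mul_right h2 h3

end Pool.Agent.H787.SP
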