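import Pool.Agent.H787.SP.LieM

/-! The inequality `(tr (R ad y))² ≤ tr R² · |sym (p ad y p⁻¹)|²`. -/

set_option autoImplicit false

namespace Pool.Agent.H787.SP
open Matrix R877.RN R877.RN.BASA R877.RN.TR0
attribute [local instance 100] LieRing.ofAssociativeRing

variable {n : ℕ}

lemma inner_mat (Y : Matrix (Fin n) (Fin n) ℂ) (b : Fin n → EuclideanSpace ℂ (Fin n))
    (i j : Fin n) :
    ((Matrix.of fun r j => b j r)ᴴ * Y * (Matrix.of fun r j => b j r)) i j
      = inner ℂ (b i) (Matrix.toEuclideanLin Y (b j)) := by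
  rw [PiLp.inner_apply, Matrix.mul_assoc, Matrix.mul_apply]
  refine Finset.sum_congr rfl fun r _ => ?_
  rw [Matrix.conjTranspose_apply, Matrix.of_apply, Matrix.toEuclideanLin_apply]
  have h1 : (Y * Matrix.of fun r j => b j r) r j = (Y *ᵥ (b j).ofLp) r := by
    rw [Matrix.mul_apply]
    rfl
  rw [h1]
  show _ = (Y *ᵥ (b j).ofLp) r * (starRingEnd ℂ) (b i r)
  rw [mul_comm]
  rfl

theorem tri_mat (L : LieSubalgebra ℂ (Matrix (Fin n) (Fin n) ℂ)) (hL : LieAlgebra.IsSolvable L)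
    (p : Matrix (Fin n) (Fin n) ℂ) (hp : IsUnit p.det) :
    ∃ U : Matrix (Fin n) (Fin n) ℂ, Uᴴ * U = 1 ∧
      ∀ X ∈ L, ∀ i j, j < i → (Uᴴ * (p * X * p⁻¹) * U) i j = 0 := by
  let ρ : L →ₗ⁅ℂ⁆ Module.End ℂ (EuclideanSpace ℂ (Fin n)) :=
    { toFun := fun X => Matrix.toEuclideanLin (p * (X : Matrix (Fin n) (Fin n) ℂ) * p⁻¹)
      map_add' := by
        intro X Y
        rw [← map_add]
        congr 1
        show p * ((X : Matrix (Fin n) (Fin n) ℂ) + Y) * p⁻¹ = _
        rw [Matrix.mul_add, Matrix.add_mul]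
      map_smul' := by
        intro c X
        rw [RingHom.id_apply, ← map_smul]
        congr 1
        show p * (c • (X : Matrix (Fin n) (Fin n) ℂ)) * p⁻¹ = _
        rw [Matrix.mul_smul, Matrix.smul_mul]
      map_lie' := by
        intro X Y
        refine LinearMap.ext fun v => ?_
        show Matrix.toEuclideanLin (p * ⁅(X : Matrix (Fin n) (Fin n) ℂ), (Y : Matrix (Fin n) (Fin n) ℂ)⁆ * p⁻¹) v
          = Matrix.toEuclideanLin (p * (X : Matrix (Fin n) (Fin n) ℂ) * p⁻¹)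
              (Matrix.toEuclideanLin (p * (Y : Matrix (Fin n) (Fin n) ℂ) * p⁻¹) v)
            - Matrix.toEuclideanLin (p * (Y : Matrix (Fin n) (Fin n) ℂ) * p⁻¹)
              (Matrix.toEuclideanLin (p * (X : Matrix (Fin n) (Fin n) ℂ) * p⁻¹) v)
        simp only [Matrix.toEuclideanLin_apply]
        rw [← WithLp.toLp_sub, Matrix.mulVec_mulVec, Matrix.mulVec_mulVec, ← Matrix.sub_mulVec]
        congr 2
        have h1 : ∀ X Y : Matrix (Fin n) (Fin n) ℂ, p * X * p⁻¹ * (p * Y * p⁻¹) = p * (X * Y) * p⁻¹ := by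
          intro X Y
          calc p * X * p⁻¹ * (p * Y * p⁻¹) = p * X * (p⁻¹ * p) * Y * p⁻¹ := by
                simp only [Matrix.mul_assoc]
            _ = _ := by rw [Matrix.nonsing_inv_mul _ hp, Matrix.mul_one]; simp only [Matrix.mul_assoc]
        rw [h1, h1, Ring.lie_def, Matrix.mul_sub, Matrix.sub_mul] }
  obtain ⟨b, hb, hb2⟩ := lie_tri n (EuclideanSpace ℂ (Fin n)) (by simp) ρ
  refine ⟨Matrix.of fun r j => b j r, ?_, ?_⟩
  · ext i j
    have h1 := inner_mat (1 : Matrix (Fin n) (Fin n) ℂ) b i j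
    rw [Matrix.mul_one] at h1
    rw [h1, Matrix.toEuclideanLin_apply, Matrix.one_mulVec, Matrix.one_apply]
    exact orthonormal_iff_ite.1 hb i j
  · intro X hX i j hij
    rw [inner_mat]
    exact hb2 ⟨X, hX⟩ i j hij

lemma tri_trace {A B : Matrix (Fin n) (Fin n) ℂ} (hA : ∀ i j, j < i → A i j = 0)
    (hB : ∀ i j, j < i → B i j = 0) : (A * B).trace = ∑ i, A i i * B i i := by
  simp only [Matrix.trace, Matrix.diag_apply, Matrix.mul_apply]
  refine Finset.sum_congr rfl fun i _ => ?_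
  rw [Finset.sum_eq_single i]
  · intro j _ hj
    rcases lt_or_gt_of_ne hj with h | h
    · rw [hA i j h, zero_mul]
    · rw [hB j i h, mul_zero]
  · intro h; exact absurd (Finset.mem_univ _) h

theorem lieCS {μ : Br n} (ha : Asym μ) (hj : Jac μ) (hs : Solv μ) {R : Mat n} (hRs : Rᵀ = R)
    (hR : IsDer R μ) {p : Mat n} (hp : IsUnit p.det) (y : Fin n → ℝ) :
    (R * adm μ y).trace ^ 2 ≤ (R * R).trace *
      (sy (p * adm μ y * p⁻¹) * sy (p * adm μ y * p⁻¹)).trace := by
  set P : Matrix (Fin n) (Fin n) ℂ := cx p with hP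
  set Pi : Matrix (Fin n) (Fin n) ℂ := cx p⁻¹ with hPi
  have hPPi : P * Pi = 1 := by
    rw [hP, hPi, ← map_mul, Matrix.mul_nonsing_inv _ hp, map_one]
  have hPinv : P⁻¹ = Pi := Matrix.inv_eq_right_inv hPPi
  have hPdet : IsUnit P.det := Matrix.isUnit_det_of_right_inverse hPPi
  obtain ⟨U, hU, hT⟩ := tri_mat (LL ha hj hR) (LL_solv ha hj hR hs) P hPdet
  have hU' : U * Uᴴ = 1 := mul_eq_one_comm.mp hU
  set X := adm μ y with hX
  have hXL : cx X ∈ LL ha hj hR := by
    show cx X ∈ SC μ ⊤ ⊔ Submodule.span ℂ {cx R}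
    apply Submodule.mem_sup_left
    refine ⟨y, Submodule.mem_top, 0, Submodule.mem_top, ?_⟩
    have h0 : adm μ (0 : Fin n → ℝ) = 0 := (admL μ).map_zero
    rw [h0, map_zero, smul_zero, add_zero]
  have hRL : cx R ∈ LL ha hj hR := by
    show cx R ∈ SC μ ⊤ ⊔ Submodule.span ℂ {cx R}
    exact Submodule.mem_sup_right (Submodule.mem_span_singleton_self _)
  set TX := Uᴴ * (P * cx X * P⁻¹) * U with hTX
  set TR := Uᴴ * (P * cx R * P⁻¹) * U with hTR
  have hTX0 : ∀ i j, j < i → TX i j = 0 := hT _ hXL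
  have hTR0 : ∀ i j, j < i → TR i j = 0 := hT _ hRL
  -- conjugation
  have hmul : ∀ A B : Matrix (Fin n) (Fin n) ℂ,
      (Uᴴ * (P * A * P⁻¹) * U) * (Uᴴ * (P * B * P⁻¹) * U) = Uᴴ * (P * (A * B) * P⁻¹) * U := by
    intro A B
    calc (Uᴴ * (P * A * P⁻¹) * U) * (Uᴴ * (P * B * P⁻¹) * U)
        = Uᴴ * P * A * P⁻¹ * (U * Uᴴ) * P * B * P⁻¹ * U := by simp only [Matrix.mul_assoc]
      _ = Uᴴ * P * A * (P⁻¹ * P) * B * P⁻¹ * U := by
          rw [hU', Matrix.mul_one]; simp only [Matrix.mul_assoc]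
      _ = _ := by
          rw [Matrix.nonsing_inv_mul _ hPdet, Matrix.mul_one]; simp only [Matrix.mul_assoc]
  have htr : ∀ A : Matrix (Fin n) (Fin n) ℂ, (Uᴴ * (P * A * P⁻¹) * U).trace = A.trace := by
    intro A
    rw [Matrix.mul_assoc, Matrix.trace_mul_comm, Matrix.mul_assoc, hU', Matrix.mul_one,
      Matrix.trace_mul_comm, ← Matrix.mul_assoc, Matrix.nonsing_inv_mul _ hPdet, Matrix.one_mul]
  -- eigenvalues of R are real
  have hreal : ∀ i, ∃ r : ℝ, TR i i = r := by
    have hH : (cx R).IsHermitian := by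
      show (cx R)ᴴ = cx R
      rw [cx_conjT, hRs]
    intro i
    have hch : TR.charpoly = (cx R).charpoly := by
      have h1 : TR = (Uᴴ * P) * cx R * (P⁻¹ * U) := by
        rw [hTR]; simp only [Matrix.mul_assoc]
      rw [h1, Matrix.charpoly_mul_comm]
      congr 1
      calc P⁻¹ * U * (Uᴴ * P * cx R) = P⁻¹ * (U * Uᴴ) * P * cx R := by
            simp only [Matrix.mul_assoc]
        _ = cx R := by
            rw [hU', Matrix.mul_one, Matrix.nonsing_inv_mul _ hPdet, Matrix.one_mul]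
    have hroot : (TR i i) ∈ TR.charpoly.roots := by
      have hup : TR.charpoly = ∏ i, (Polynomial.X - Polynomial.C (TR i i)) :=
        Matrix.charpoly_of_upperTriangular TR (fun i j hij => hTR0 i j hij)
      rw [hup, Polynomial.roots_prod _ _ (by
        rw [Finset.prod_ne_zero_iff]
        intro i _
        exact Polynomial.X_sub_C_ne_zero _), Multiset.mem_bind]
      exact ⟨i, Finset.mem_univ_val i, by simp⟩
    rw [hch, hH.roots_charpoly_eq_eigenvalues, Multiset.mem_map] at hroot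
    obtain ⟨j, -, hj⟩ := hroot
    exact ⟨hH.eigenvalues j, hj.symm⟩
  choose r hr using hreal
  have hRX : (R * X).trace = ∑ i, r i * (TX i i).re := by
    have h1 : ((R * X).trace : ℂ) = ∑ i, (r i : ℂ) * TX i i := by
      rw [← cx_trace, map_mul, ← htr, ← hmul, tri_trace hTR0 hTX0]
      exact Finset.sum_congr rfl fun i _ => by rw [hr]
    have h2 := congrArg Complex.re h1
    rw [Complex.ofReal_re, Complex.re_sum] at h2
    rw [h2]
    exact Finset.sum_congr rfl fun i _ => by rw [Complex.re_ofReal_mul]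
  have hRR : (R * R).trace = ∑ i, (r i)^2 := by
    have h1 : ((R * R).trace : ℂ) = ∑ i, (r i : ℂ) * r i := by
      rw [← cx_trace, map_mul, ← htr, ← hmul, tri_trace hTR0 hTR0]
      exact Finset.sum_congr rfl fun i _ => by rw [hr]
    have h2 : ((R * R).trace : ℂ) = ((∑ i, (r i)^2 : ℝ) : ℂ) := by
      rw [h1, Complex.ofReal_sum]
      exact Finset.sum_congr rfl fun i _ => by push_cast; ring
    exact_mod_cast h2
  -- the symmetric part
  set Y := p * X * p⁻¹ with hY
  have hYc : cx Y = P * cx X * P⁻¹ := by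
    rw [hY, map_mul, map_mul, hPinv]
  set Z := Uᴴ * cx (sy Y) * U with hZ
  have hZH : Zᴴ = Z := by
    rw [hZ, Matrix.conjTranspose_mul, Matrix.conjTranspose_mul, Matrix.conjTranspose_conjTranspose,
      cx_conjT, sy_symm, Matrix.mul_assoc]
  have hZd : ∀ i, Z i i = ((TX i i).re : ℂ) := by
    intro i
    have h1 : Z = (1/2 : ℂ) • (TX + TXᴴ) := by
      have h2 : cx (sy Y) = (1/2 : ℂ) • (cx Y + (cx Y)ᴴ) := by
        rw [sy, cx_smul, map_add, cx_conjT]
        norm_num
      rw [hZ, h2, hTX, ← hYc, Matrix.conjTranspose_mul, Matrix.conjTranspose_mul,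
        Matrix.conjTranspose_conjTranspose, Matrix.mul_smul, Matrix.smul_mul, Matrix.mul_add,
        Matrix.add_mul, Matrix.mul_assoc Uᴴ (cx Y)ᴴ U]
    rw [h1, Matrix.smul_apply, Matrix.add_apply, Matrix.conjTranspose_apply, smul_eq_mul]
    have h3 : TX i i + star (TX i i) = 2 * ((TX i i).re : ℂ) := by
      have := Complex.add_conj (TX i i)
      rw [Complex.ofReal_mul] at this
      exact_mod_cast this
    rw [h3]
    ring
  have hSS : (sy Y * sy Y).trace = ∑ i, ∑ j, Complex.normSq (Z i j) := by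
    have h1 : (((sy Y * sy Y).trace : ℝ) : ℂ) = (Z * Z).trace := by
      rw [← cx_trace, map_mul, hZ]
      have h2 : Uᴴ * cx (sy Y) * U * (Uᴴ * cx (sy Y) * U) = Uᴴ * (cx (sy Y) * cx (sy Y)) * U := by
        calc Uᴴ * cx (sy Y) * U * (Uᴴ * cx (sy Y) * U)
            = Uᴴ * cx (sy Y) * (U * Uᴴ) * cx (sy Y) * U := by simp only [Matrix.mul_assoc]
          _ = _ := by rw [hU', Matrix.mul_one]; simp only [Matrix.mul_assoc]
      rw [h2, Matrix.mul_assoc Uᴴ, Matrix.trace_mul_comm Uᴴ, Matrix.mul_assoc (cx (sy Y) * cx (sy Y)),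
        hU', Matrix.mul_one]
    have h3 : (Z * Z).trace = ((∑ i, ∑ j, Complex.normSq (Z i j) : ℝ) : ℂ) := by
      simp only [Matrix.trace, Matrix.diag_apply, Matrix.mul_apply, Complex.ofReal_sum]
      refine Finset.sum_congr rfl fun i _ => Finset.sum_congr rfl fun j _ => ?_
      have h4 : Z j i = (starRingEnd ℂ) (Z i j) := by
        conv_lhs => rw [← hZH]
        rw [Matrix.conjTranspose_apply]
        rfl
      rw [h4, Complex.mul_conj]
    rw [h3] at h1
    exact_mod_cast h1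
  have hge : ∑ i, ((TX i i).re)^2 ≤ (sy Y * sy Y).trace := by
    rw [hSS]
    refine Finset.sum_le_sum fun i _ => ?_
    have h1 : Complex.normSq (Z i i) ≤ ∑ j, Complex.normSq (Z i j) :=
      Finset.single_le_sum (f := fun j => Complex.normSq (Z i j))
        (fun j _ => Complex.normSq_nonneg _) (Finset.mem_univ i)
    rw [hZd, Complex.normSq_ofReal] at h1
    rw [pow_two]
    exact h1
  rw [hRX, hRR]
  calc (∑ i, r i * (TX i i).re)^2 ≤ (∑ i, (r i)^2) * ∑ i, ((TX i i).re)^2 :=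
        Finset.sum_mul_sq_le_sq_mul_sq _ _ _
    _ ≤ _ := mul_le_mul_of_nonneg_left hge (Finset.sum_nonneg fun i _ => sq_nonneg _)

end Pool.Agent.H787.SP
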