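import Pool.Agent.H787.SP.LieT
import Pool.Agent.H787.SP.Jor

/-! The solvable matrix Lie algebra `{ad y + s R}` and the Cauchy-Schwarz inequality coming from
its triangular form. -/

set_option autoImplicit false

namespace Pool.Agent.H787.SP
open Matrix R877.RN R877.RN.BASA R877.RN.TR0
attribute [local instance 100] LieRing.ofAssociativeRing

variable {n : ℕ}

/-- derived series of the bracket -/
noncomputable def DS (μ : Br n) : ℕ → Submodule ℝ (Fin n → ℝ)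
  | 0 => ⊤
  | k + 1 => Submodule.span ℝ {z | ∃ x ∈ DS μ k, ∃ y ∈ DS μ k, z = Fl μ x y}

/-- solvability -/
def Solv (μ : Br n) : Prop := ∃ k, DS μ k = ⊥

lemma Fl_mem_DS {μ : Br n} {k : ℕ} {x y : Fin n → ℝ} (hx : x ∈ DS μ k) (hy : y ∈ DS μ k) :
    Fl μ x y ∈ DS μ (k+1) := Submodule.subset_span ⟨x, hx, y, hy, rfl⟩

/-- complexification of real matrices -/
noncomputable def cx : Mat n →+* Matrix (Fin n) (Fin n) ℂ := Complex.ofRealHom.mapMatrix

lemma cx_apply (A : Mat n) (i j : Fin n) : cx A i j = (A i j : ℂ) := rfl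

lemma cx_smul (r : ℝ) (A : Mat n) : cx (r • A) = (r : ℂ) • cx A := by
  ext i j
  simp [cx_apply]

lemma cx_trace (A : Mat n) : (cx A).trace = ((A.trace : ℝ) : ℂ) := by
  simp [Matrix.trace, cx_apply]

lemma cx_inj {A B : Mat n} (h : cx A = cx B) : A = B := by
  ext i j
  have := congrFun (congrFun h i) j
  rw [cx_apply, cx_apply] at this
  exact_mod_cast this

lemma cx_conjT (A : Mat n) : (cx A)ᴴ = cx Aᵀ := by
  ext i j
  rw [Matrix.conjTranspose_apply, cx_apply, cx_apply, Matrix.transpose_apply]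
  exact Complex.conj_ofReal _

/-- complex span of `ad W` -/
noncomputable def SC (μ : Br n) (W : Submodule ℝ (Fin n → ℝ)) :
    Submodule ℂ (Matrix (Fin n) (Fin n) ℂ) where
  carrier := {X | ∃ x ∈ W, ∃ y ∈ W, X = cx (adm μ x) + Complex.I • cx (adm μ y)}
  zero_mem' := ⟨0, W.zero_mem, 0, W.zero_mem, by
    have : adm μ (0 : Fin n → ℝ) = 0 := (admL μ).map_zero
    rw [this, map_zero, smul_zero, add_zero]⟩
  add_mem' := by
    rintro _ _ ⟨x, hx, y, hy, rfl⟩ ⟨x', hx', y', hy', rfl⟩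
    refine ⟨x + x', W.add_mem hx hx', y + y', W.add_mem hy hy', ?_⟩
    rw [adm_add, adm_add, map_add, map_add, smul_add]
    abel
  smul_mem' := by
    rintro c _ ⟨x, hx, y, hy, rfl⟩
    refine ⟨c.re • x - c.im • y, W.sub_mem (W.smul_mem _ hx) (W.smul_mem _ hy),
      c.im • x + c.re • y, W.add_mem (W.smul_mem _ hx) (W.smul_mem _ hy), ?_⟩
    have e1 : adm μ (c.re • x - c.im • y) = c.re • adm μ x - c.im • adm μ y := by
      rw [← admL_apply, map_sub, map_smul, map_smul]; rfl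
    rw [e1, adm_add, adm_smul, adm_smul, map_sub, map_add, cx_smul, cx_smul, cx_smul, cx_smul]
    conv_lhs => rw [← Complex.re_add_im c]
    rw [smul_add, smul_add, add_smul, add_smul, smul_smul, smul_smul, smul_smul, smul_smul]
    have h1 : ((c.im : ℂ) * Complex.I * Complex.I) = -(c.im : ℂ) := by
      rw [mul_assoc, Complex.I_mul_I]; ring
    rw [h1, mul_comm (Complex.I) (c.im : ℂ), mul_comm (Complex.I) (c.re : ℂ), neg_smul]
    abel

lemma adm_comm {μ : Br n} (ha : Asym μ) (hj : Jac μ) (x y : Fin n → ℝ) :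
    adm μ x * adm μ y - adm μ y * adm μ x = adm μ (Fl μ x y) := by
  have h := der_adm (adm_der ha hj x) y
  rw [adm_mulVec] at h
  rw [h]; abel

lemma SC_lie {μ : Br n} (ha : Asym μ) (hj : Jac μ) {W W' : Submodule ℝ (Fin n → ℝ)}
    (h : ∀ x ∈ W, ∀ y ∈ W, Fl μ x y ∈ W') {X Y : Matrix (Fin n) (Fin n) ℂ} (hX : X ∈ SC μ W)
    (hY : Y ∈ SC μ W) : X * Y - Y * X ∈ SC μ W' := by
  obtain ⟨x, hx, y, hy, rfl⟩ := hX
  obtain ⟨x', hx', y', hy', rfl⟩ := hY
  refine ⟨Fl μ x x' - Fl μ y y', W'.sub_mem (h _ hx _ hx') (h _ hy _ hy'),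
    Fl μ x y' + Fl μ y x', W'.add_mem (h _ hx _ hy') (h _ hy _ hx'), ?_⟩
  have e1 : adm μ (Fl μ x x' - Fl μ y y') = adm μ (Fl μ x x') - adm μ (Fl μ y y') := by
    rw [← admL_apply, map_sub]; rfl
  rw [e1, adm_add, ← adm_comm ha hj, ← adm_comm ha hj, ← adm_comm ha hj, ← adm_comm ha hj]
  simp only [map_sub, map_add, map_mul]
  set A := cx (adm μ x)
  set B := cx (adm μ y)
  set C := cx (adm μ x')
  set D := cx (adm μ y')
  have hI : ∀ Z : Matrix (Fin n) (Fin n) ℂ, Complex.I • (Complex.I • Z) = -Z := by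
    intro Z
    rw [smul_smul, Complex.I_mul_I, neg_smul, one_smul]
  simp only [Matrix.add_mul, Matrix.mul_add, Matrix.smul_mul, Matrix.mul_smul, smul_add, smul_sub,
    hI]
  abel

lemma SC_R {μ : Br n} {R : Mat n} (hR : IsDer R μ) {X : Matrix (Fin n) (Fin n) ℂ}
    (hX : X ∈ SC μ ⊤) : cx R * X - X * cx R ∈ SC μ ⊤ := by
  obtain ⟨x, -, y, -, rfl⟩ := hX
  refine ⟨R *ᵥ x, Submodule.mem_top, R *ᵥ y, Submodule.mem_top, ?_⟩
  have e1 : ∀ x, adm μ (R *ᵥ x) = R * adm μ x - adm μ x * R := by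
    intro x; rw [der_adm hR x]; abel
  rw [e1, e1, map_sub, map_sub, map_mul, map_mul, map_mul, map_mul]
  simp only [Matrix.mul_add, Matrix.add_mul, Matrix.smul_mul, Matrix.mul_smul, smul_sub]
  abel

/-- the Lie algebra `{ad z + s R}` -/
noncomputable def LL {μ : Br n} (ha : Asym μ) (hj : Jac μ) {R : Mat n} (hR : IsDer R μ) :
    LieSubalgebra ℂ (Matrix (Fin n) (Fin n) ℂ) where
  toSubmodule := SC μ ⊤ ⊔ Submodule.span ℂ {cx R}
  lie_mem' := by
    intro X Y hX hY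
    have hX' : X ∈ SC μ ⊤ ⊔ Submodule.span ℂ {cx R} := hX
    have hY' : Y ∈ SC μ ⊤ ⊔ Submodule.span ℂ {cx R} := hY
    obtain ⟨X0, hX0, _, hX1, rfl⟩ := Submodule.mem_sup.1 hX'
    obtain ⟨s, rfl⟩ := Submodule.mem_span_singleton.1 hX1
    obtain ⟨Y0, hY0, _, hY1, rfl⟩ := Submodule.mem_sup.1 hY'
    obtain ⟨t, rfl⟩ := Submodule.mem_span_singleton.1 hY1
    show ⁅X0 + s • cx R, Y0 + t • cx R⁆ ∈ SC μ ⊤ ⊔ Submodule.span ℂ {cx R}
    rw [Ring.lie_def]
    apply Submodule.mem_sup_left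
    have h1 := SC_lie ha hj (W := ⊤) (W' := ⊤) (fun _ _ _ _ => Submodule.mem_top) hX0 hY0
    have h2 := (SC μ ⊤).smul_mem s (SC_R hR hY0)
    have h3 := (SC μ ⊤).smul_mem t (SC_R hR hX0)
    have h4 := (SC μ ⊤).sub_mem ((SC μ ⊤).add_mem h1 h2) h3
    have h5 : (X0 + s • cx R) * (Y0 + t • cx R) - (Y0 + t • cx R) * (X0 + s • cx R)
        = X0 * Y0 - Y0 * X0 + s • (cx R * Y0 - Y0 * cx R) - t • (cx R * X0 - X0 * cx R) := by
      simp only [Matrix.add_mul, Matrix.mul_add, Matrix.smul_mul, Matrix.mul_smul, smul_sub,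
        smul_add, smul_comm s t]
      abel
    rw [h5]
    exact h4

lemma LL_lie_mem {μ : Br n} (ha : Asym μ) (hj : Jac μ) {R : Mat n} (hR : IsDer R μ)
    (X Y : LL ha hj hR) : ((⁅X, Y⁆ : LL ha hj hR) : Matrix (Fin n) (Fin n) ℂ) ∈ SC μ ⊤ := by
  obtain ⟨X, hX⟩ := X
  obtain ⟨Y, hY⟩ := Y
  have hX' : X ∈ SC μ ⊤ ⊔ Submodule.span ℂ {cx R} := hX
  have hY' : Y ∈ SC μ ⊤ ⊔ Submodule.span ℂ {cx R} := hY
  obtain ⟨X0, hX0, _, hX1, rfl⟩ := Submodule.mem_sup.1 hX'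
  obtain ⟨s, rfl⟩ := Submodule.mem_span_singleton.1 hX1
  obtain ⟨Y0, hY0, _, hY1, rfl⟩ := Submodule.mem_sup.1 hY'
  obtain ⟨t, rfl⟩ := Submodule.mem_span_singleton.1 hY1
  show ⁅X0 + s • cx R, Y0 + t • cx R⁆ ∈ SC μ ⊤
  rw [Ring.lie_def]
  have h1 := SC_lie ha hj (W := ⊤) (W' := ⊤) (fun _ _ _ _ => Submodule.mem_top) hX0 hY0
  have h2 := (SC μ ⊤).smul_mem s (SC_R hR hY0)
  have h3 := (SC μ ⊤).smul_mem t (SC_R hR hX0)
  have h4 := (SC μ ⊤).sub_mem ((SC μ ⊤).add_mem h1 h2) h3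
  have h5 : (X0 + s • cx R) * (Y0 + t • cx R) - (Y0 + t • cx R) * (X0 + s • cx R)
      = X0 * Y0 - Y0 * X0 + s • (cx R * Y0 - Y0 * cx R) - t • (cx R * X0 - X0 * cx R) := by
    simp only [Matrix.add_mul, Matrix.mul_add, Matrix.smul_mul, Matrix.mul_smul, smul_sub,
      smul_add, smul_comm s t]
    abel
  rw [h5]
  exact h4

theorem LL_ds {μ : Br n} (ha : Asym μ) (hj : Jac μ) {R : Mat n} (hR : IsDer R μ) (k : ℕ) :
    ∀ X : LL ha hj hR, X ∈ LieAlgebra.derivedSeries ℂ (LL ha hj hR) (k+1) →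
      (X : Matrix (Fin n) (Fin n) ℂ) ∈ SC μ (DS μ k) := by
  induction k with
  | zero =>
    intro X hX
    rw [LieAlgebra.derivedSeries_def, LieAlgebra.derivedSeriesOfIdeal_succ,
      ← LieSubmodule.mem_toSubmodule, LieSubmodule.lieIdeal_oper_eq_linear_span'] at hX
    induction hX using Submodule.span_induction with
    | mem y hy =>
      obtain ⟨a, -, b, -, rfl⟩ := hy
      exact LL_lie_mem ha hj hR a b
    | zero => exact (SC μ (DS μ 0)).zero_mem
    | add a b _ _ ha' hb => exact (SC μ (DS μ 0)).add_mem ha' hb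
    | smul c a _ ha' => exact (SC μ (DS μ 0)).smul_mem c ha'
  | succ k ih =>
    intro X hX
    rw [LieAlgebra.derivedSeries_def, LieAlgebra.derivedSeriesOfIdeal_succ,
      ← LieSubmodule.mem_toSubmodule, LieSubmodule.lieIdeal_oper_eq_linear_span'] at hX
    induction hX using Submodule.span_induction with
    | mem y hy =>
      obtain ⟨a, ha1, b, hb1, rfl⟩ := hy
      have h1 := ih a ha1
      have h2 := ih b hb1
      exact SC_lie ha hj (fun x hx y hy => Fl_mem_DS hx hy) h1 h2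
    | zero => exact (SC μ _).zero_mem
    | add a b _ _ ha' hb => exact (SC μ _).add_mem ha' hb
    | smul c a _ ha' => exact (SC μ _).smul_mem c ha'

theorem LL_solv {μ : Br n} (ha : Asym μ) (hj : Jac μ) {R : Mat n} (hR : IsDer R μ)
    (hs : Solv μ) : LieAlgebra.IsSolvable (LL ha hj hR) := by
  obtain ⟨k, hk⟩ := hs
  apply LieAlgebra.IsSolvable.mk (R := ℂ) (k := k + 1)
  rw [LieSubmodule.eq_bot_iff]
  intro X hX
  obtain ⟨x, hx, y, hy, h⟩ := LL_ds ha hj hR k X hX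
  rw [hk] at hx hy
  have hx' : x = 0 := by simpa using hx
  have hy' : y = 0 := by simpa using hy
  have h0 : adm μ (0 : Fin n → ℝ) = 0 := (admL μ).map_zero
  rw [hx', hy', h0, map_zero, smul_zero, add_zero] at h
  exact Subtype.ext h

end Pool.Agent.H787.SP
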