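import Mathlib

/-! Lie's theorem with an orthonormal triangularising basis. -/

set_option autoImplicit false

namespace Pool.Agent.H787.SP
open Matrix
attribute [local instance 100] LieRing.ofAssociativeRing

/-- simultaneous triangularisation of a solvable Lie algebra of operators in an orthonormal
basis -/
theorem lie_tri {L : Type} [LieRing L] [LieAlgebra ℂ L] [LieAlgebra.IsSolvable L] :
    ∀ (N : ℕ) (V : Type) [NormedAddCommGroup V] [InnerProductSpace ℂ V] [FiniteDimensional ℂ V],
    Module.finrank ℂ V = N → ∀ ρ : L →ₗ⁅ℂ⁆ Module.End ℂ V,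
    ∃ b : Fin N → V, Orthonormal ℂ b ∧ ∀ x : L, ∀ i j, j < i → inner ℂ (b i) (ρ x (b j)) = 0 := by
  intro N
  induction N with
  | zero =>
    intro V _ _ _ _ ρ
    exact ⟨fun i => i.elim0, ⟨fun i => i.elim0, fun i => i.elim0⟩, fun x i => i.elim0⟩
  | succ N ih =>
    intro V _ _ _ hV ρ
    have hnt : Nontrivial V := Module.nontrivial_of_finrank_pos (R := ℂ) (by omega)
    have hv : ∃ (v : V) (χ : L → ℂ), v ≠ 0 ∧ ∀ x, ρ x v = χ x • v := by
      letI := LieRingModule.compLieHom V ρ
      haveI := LieModule.compLieHom V ρ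
      obtain ⟨χ, hχ⟩ := LieModule.exists_nontrivial_weightSpace_of_isSolvable ℂ L V
      obtain ⟨⟨v, hv⟩, hv0⟩ := exists_ne (0 : LieModule.weightSpace V χ)
      have hv0' : v ≠ 0 := fun h => hv0 (Subtype.ext h)
      rw [LieModule.mem_weightSpace] at hv
      exact ⟨v, χ, hv0', hv⟩
    obtain ⟨v, χ, hv0, hvχ⟩ := hv
    set u : V := ((‖v‖ : ℂ))⁻¹ • v with hu
    have hnv : (‖v‖ : ℂ) ≠ 0 := by
      exact_mod_cast (norm_ne_zero_iff.2 hv0)
    have hu0 : u ≠ 0 := smul_ne_zero (inv_ne_zero hnv) hv0
    have hun : ‖u‖ = 1 := by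
      rw [hu, norm_smul, norm_inv, Complex.norm_real, norm_norm,
        inv_mul_cancel₀ (norm_ne_zero_iff.2 hv0)]
    have huχ : ∀ x, ρ x u = χ x • u := by
      intro x
      rw [hu, map_smul, hvχ, smul_comm]
    set W : Submodule ℂ V := (Submodule.span ℂ {u})ᗮ with hW
    have hWf : Module.finrank ℂ W = N := by
      haveI : Fact (Module.finrank ℂ V = N + 1) := ⟨hV⟩
      exact Submodule.finrank_orthogonal_span_singleton hu0
    set P : V →L[ℂ] W := W.orthogonalProjectionOnto with hP
    have hWo : Wᗮ = Submodule.span ℂ {u} := Submodule.orthogonal_orthogonal _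
    have hPu : ∀ z ∈ Submodule.span ℂ {u}, P z = 0 := by
      intro z hz
      rw [← hWo] at hz
      exact Submodule.orthogonalProjectionOnto_apply_of_mem_orthogonal hz
    have hρspan : ∀ x, ∀ z ∈ Submodule.span ℂ {u}, ρ x z ∈ Submodule.span ℂ {u} := by
      intro x z hz
      obtain ⟨c, rfl⟩ := Submodule.mem_span_singleton.1 hz
      rw [map_smul, huχ, smul_smul]
      exact Submodule.smul_mem _ _ (Submodule.mem_span_singleton_self u)
    have hkey : ∀ x (z : V), P (ρ x (P z : V)) = P (ρ x z) := by
      intro x z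
      have h1 : z - (P z : V) ∈ Submodule.span ℂ {u} := by
        rw [← hWo]
        exact Submodule.sub_starProjection_mem_orthogonal z
      have h2 := hPu _ (hρspan x _ h1)
      rw [map_sub, map_sub, sub_eq_zero] at h2
      exact h2.symm
    let ρ' : L →ₗ⁅ℂ⁆ Module.End ℂ W :=
      { toFun := fun x => (P : V →ₗ[ℂ] W) ∘ₗ (ρ x) ∘ₗ W.subtype
        map_add' := by
          intro x y
          refine LinearMap.ext fun w => ?_
          show P (ρ (x + y) w) = P (ρ x w) + P (ρ y w)
          rw [map_add, LinearMap.add_apply, map_add]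
        map_smul' := by
          intro c x
          refine LinearMap.ext fun w => ?_
          show P (ρ (c • x) w) = c • P (ρ x w)
          rw [map_smul, LinearMap.smul_apply, map_smul]
        map_lie' := by
          intro x y
          refine LinearMap.ext fun w => ?_
          show P (ρ ⁅x, y⁆ w) = P (ρ x (P (ρ y w) : V)) - P (ρ y (P (ρ x w) : V))
          rw [hkey, hkey, LieHom.map_lie, Ring.lie_def, LinearMap.sub_apply, map_sub]
          rfl }
    have hρ' : ∀ x (w : W), ρ' x w = P (ρ x w) := fun x w => rfl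
    obtain ⟨b', hb', hb'2⟩ := ih W hWf ρ'
    have huW : ∀ w : W, inner ℂ u (w : V) = 0 := by
      intro w
      exact Submodule.mem_orthogonal_singleton_iff_inner_right.1 w.2
    have hWu : ∀ w : W, inner ℂ (w : V) u = 0 := by
      intro w
      exact Submodule.mem_orthogonal_singleton_iff_inner_left.1 w.2
    refine ⟨Fin.cons u (fun i => (b' i : V)), ?_, ?_⟩
    · rw [orthonormal_iff_ite]
      have hb'' := orthonormal_iff_ite.1 hb'
      intro i j
      refine Fin.cases ?_ (fun i => ?_) i <;> refine Fin.cases ?_ (fun j => ?_) j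
      · simp only [Fin.cons_zero, if_true]
        rw [inner_self_eq_norm_sq_to_K, hun]; simp
      · simp only [Fin.cons_zero, Fin.cons_succ]
        rw [huW, if_neg (Fin.succ_ne_zero j).symm]
      · simp only [Fin.cons_zero, Fin.cons_succ]
        rw [hWu, if_neg (Fin.succ_ne_zero i)]
      · simp only [Fin.cons_succ]
        have h1 := hb'' i j
        rw [Submodule.coe_inner] at h1
        rw [h1]
        simp only [Fin.succ_inj]
    · intro x i j hij
      refine Fin.cases ?_ (fun i => ?_) i (motive := fun i => j < i →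
        inner ℂ ((Fin.cons u (fun i => (b' i : V)) : Fin (N+1) → V) i)
          (ρ x ((Fin.cons u (fun i => (b' i : V)) : Fin (N+1) → V) j)) = 0) hij
      · intro h; exact absurd h (Fin.not_lt_zero j)
      · refine Fin.cases ?_ (fun j => ?_) j
        · intro _
          simp only [Fin.cons_zero, Fin.cons_succ]
          rw [huχ, inner_smul_right, hWu, mul_zero]
        · intro h
          simp only [Fin.cons_succ]
          have h1 := hb'2 x i j (Fin.succ_lt_succ_iff.1 h)
          rw [hρ', Submodule.inner_orthogonalProjectionOnto_eq_of_mem_left] at h1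
          exact h1

end Pool.Agent.H787.SP
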