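import Pool.Agent.H787.SP.Opt
import Pool.Agent.H787.SP.Jor

/-! Structure of algebraic solitons with negative constant: `D + sym(ad H)` is a nonnegative
derivation. -/

set_option autoImplicit false

namespace Pool.Agent.H787.SP
open Matrix R877.RN R877.RN.BASA R877.RN.TR0

variable {n : ℕ}

lemma sy_add (A B : Mat n) : sy (A + B) = sy A + sy B := by
  unfold sy
  rw [← smul_add, Matrix.transpose_add]
  congr 1
  abel

lemma sy_of_symm {A : Mat n} (h : Aᵀ = A) : sy A = A := by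
  unfold sy
  rw [h, ← two_smul ℝ A, smul_smul]
  norm_num

theorem Sol.partE {μ : Br n} {g : ℝ} {D : Mat n} (h : Sol μ g D) (hg : 0 ≤ g) :
    ∃ (l : Mat n) (a : Fin n → ℝ), IsO l ∧ (∀ i, 0 ≤ a i) ∧
      D + RR μ = lᵀ * diagonal a * l ∧ ∀ i j k, R877.RN.act l μ i j k ≠ 0 → a i + a j = a k := by
  have hA : IsDer (D + adm μ (Hv μ)) μ := der_add h.der (adm_der h.asym h.jac _)
  obtain ⟨l0, d, hl0, hcb0, hs1, hs2⟩ := partC hA
  have hsyA : sy (D + adm μ (Hv μ)) = D + RR μ := by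
    rw [sy_add, sy_of_symm h.Dsymm]; rfl
  rw [hsyA, h.trD1D1] at hs2
  have htr : (D + adm μ (Hv μ)).trace = (D + RR μ).trace := by
    rw [Matrix.trace_add, Matrix.trace_add, RR, tr_sy]
  rw [htr] at hs1
  obtain ⟨l, a, hl, hcb, ha, hle⟩ := partD h.asym h.jac hg hl0 hcb0
  have hPh0 : g * (D + RR μ).trace ≤ Ph g d := by
    unfold Ph
    rw [hs1]
    linarith
  have hB := h.ineqB' hl ha hcb
  set E := lᵀ * diagonal a * l with hE
  have hEs : Eᵀ = E := E_symm l a
  have h1 : (((D + RR μ) - E) * ((D + RR μ) - E)).trace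
      = g * (D + RR μ).trace - 2 * dt (D + RR μ) l a + ∑ i, (a i)^2 := by
    rw [Matrix.sub_mul, Matrix.mul_sub, Matrix.mul_sub, Matrix.trace_sub, Matrix.trace_sub,
      Matrix.trace_sub, h.trD1D1, tr_EE hl, Matrix.trace_mul_comm E, dt_eq]
    ring
  have h2 : (((D + RR μ) - E) * ((D + RR μ) - E)).trace ≤ 2 * (g * ∑ i, a i)
      - 2 * dt (D + RR μ) l a := by
    rw [h1]
    unfold Ph at hle hPh0
    linarith
  have hXs : ((D + RR μ) - E)ᵀ = (D + RR μ) - E := by
    rw [Matrix.transpose_sub, h.D1_symm, hEs]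
  have h3 := tr_sq_nonneg hXs
  have h4 : (D + RR μ) - E = 0 := tr_sq_eq_zero hXs (by linarith)
  refine ⟨l, a, hl, ha, sub_eq_zero.1 h4, ?_⟩
  exact h.eqB hl ha hcb (by linarith)

end Pool.Agent.H787.SP
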