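import Pool.Agent.H787.SP.LieC
import Pool.Agent.H787.SP.PE

/-! Maximality of the Ricci pinching functional at solvsolitons. -/

set_option autoImplicit false

namespace Pool.Agent.H787.SP
open Matrix R877.RN R877.RN.BASA R877.RN.TR0

variable {n : ℕ}

/-- orthogonal projection of the identity on `{sym(ad x)}` -/
lemma exists_proj (ν : Br n) : ∃ A : Fin n → ℝ, ∀ x,
    (sy (adm ν A) * sy (adm ν x)).trace = (adm ν x).trace := by
  let T : (Fin n → ℝ) →ₗ[ℝ] EuclideanSpace ℝ (Fin n × Fin n) :=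
    { toFun := fun x => WithLp.toLp 2 (fun q => sy (adm ν x) q.1 q.2)
      map_add' := by
        intro x y
        rw [adm_add, sy_add]
        rfl
      map_smul' := by
        intro c x
        rw [adm_smul]
        ext q
        show sy (c • adm ν x) q.1 q.2 = c * sy (adm ν x) q.1 q.2
        simp only [sy, Matrix.transpose_smul, Matrix.smul_apply, Matrix.add_apply, smul_eq_mul]
        ring }
  set I0 : EuclideanSpace ℝ (Fin n × Fin n) := WithLp.toLp 2 (fun q => (1 : Mat n) q.1 q.2) with hI0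
  set K := LinearMap.range T with hK
  have hmem : ((K.orthogonalProjectionOnto I0 : K) : EuclideanSpace ℝ (Fin n × Fin n)) ∈ K :=
    (K.orthogonalProjectionOnto I0).2
  obtain ⟨A, hA⟩ := hmem
  refine ⟨A, fun x => ?_⟩
  have h1 : inner ℝ (T x) (I0 - T A) = 0 := by
    rw [hA]
    exact (Submodule.mem_orthogonal K _).1 (Submodule.sub_starProjection_mem_orthogonal I0) (T x)
      ⟨x, rfl⟩
  rw [inner_sub_right, sub_eq_zero] at h1
  have h2 : inner ℝ (T x) (T A) = (sy (adm ν A) * sy (adm ν x)).trace := by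
    rw [tr_mul_eq_sum (sy_symm _), PiLp.inner_apply]
    rfl
  have h3 : inner ℝ (T x) I0 = (adm ν x).trace := by
    have h4 : (adm ν x).trace = ((1 : Mat n) * sy (adm ν x)).trace := by
      rw [Matrix.one_mul, tr_sy]
    rw [h4, tr_mul_eq_sum (sy_symm _), PiLp.inner_apply]
    rfl
  rw [← h2, ← h1, h3]

lemma tr_diag_mul (a : Fin n → ℝ) (M : Mat n) : (diagonal a * M).trace = ∑ i, a i * M i i := by
  simp only [Matrix.trace, Matrix.diag_apply, Matrix.diagonal_mul]

lemma der_diag {ν : Br n} {a : Fin n → ℝ} (h : ∀ i j k, ν i j k ≠ 0 → a i + a j = a k) :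
    IsDer (diagonal a) ν := by
  intro i j k
  have e1 : ∑ r, diagonal a k r * ν i j r = a k * ν i j k := by
    rw [Finset.sum_eq_single k]
    · rw [Matrix.diagonal_apply_eq]
    · intro b _ hb
      rw [Matrix.diagonal_apply_ne _ (Ne.symm hb), zero_mul]
    · intro h; exact absurd (Finset.mem_univ _) h
  have e2 : ∑ p, diagonal a p i * ν p j k = a i * ν i j k := by
    rw [Finset.sum_eq_single i]
    · rw [Matrix.diagonal_apply_eq]
    · intro b _ hb
      rw [Matrix.diagonal_apply_ne _ hb, zero_mul]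
    · intro h; exact absurd (Finset.mem_univ _) h
  have e3 : ∑ q, diagonal a q j * ν i q k = a j * ν i j k := by
    rw [Finset.sum_eq_single j]
    · rw [Matrix.diagonal_apply_eq]
    · intro b _ hb
      rw [Matrix.diagonal_apply_ne _ hb, zero_mul]
    · intro h; exact absurd (Finset.mem_univ _) h
  rw [e1, e2, e3, ← add_mul]
  by_cases h0 : ν i j k = 0
  · rw [h0, mul_zero, mul_zero]
  · rw [h i j k h0]

theorem main_diag {ν : Br n} {g : ℝ} {D : Mat n} (h : Sol ν g D) (hg : 0 < g) (hs : Solv ν)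
    {a : Fin n → ℝ} (ha : ∀ i, 0 ≤ a i) (hD1 : D + RR ν = diagonal a)
    (hder : ∀ i j k, ν i j k ≠ 0 → a i + a j = a k) {p : Mat n} (hp : IsUnit p.det)
    (hpar : Par a p) :
    ∃ E : Mat n, Eᵀ = E ∧ -(g * (Rc (act p ν)).trace) ≤ (Rc (act p ν) * E).trace ∧
      (E * E).trace ≤ -(g * (Rc ν).trace) := by
  set μ2 := act p ν with hμ2
  have ha2 : Asym μ2 := p_ASYMACT n p ν h.asym
  have hj2 : Jac μ2 := p_JACT n p ν hp h.jac
  have hcb : ∀ i j k, μ2 i j k ≠ 0 → a i + a j ≤ a k :=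
    p_ACTP n a p ν hp hpar (fun i j k hne => (hder i j k hne).le)
  obtain ⟨A, hA⟩ := exists_proj μ2
  set P := sy (adm μ2 A) with hP
  have hPs : Pᵀ = P := sy_symm _
  set y := p⁻¹ *ᵥ A with hy
  have hadm : adm μ2 A = p * adm ν y * p⁻¹ := adm_act ν A
  have htrP : P.trace = (adm μ2 A).trace := tr_sy _
  have hPP : (P * P).trace = P.trace := by rw [hA, htrP]
  have hP3 : ∀ x, ∑ i, a i * (adm μ2 x) i i = g * (adm μ2 x).trace := by
    intro x
    have hX : Par a (adm ν (p⁻¹ *ᵥ x)) := by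
      intro k i hne
      unfold adm at hne
      obtain ⟨q, -, hq⟩ := Finset.exists_ne_zero_of_sum_ne_zero hne
      have := hder q i k (right_ne_zero_of_mul hq)
      linarith [ha q]
    rw [hμ2, adm_act, p_BT p_PINV n a p _ hp hpar hX, tr_conj hp, ← tr_diag_mul, ← hD1,
      h.trD1 (adm_der h.asym h.jac _)]
  have hP4 : -(g * (Hv μ2 ⬝ᵥ Hv μ2)) ≤ (Rc μ2 * diagonal a).trace := by
    rw [Matrix.trace_mul_comm, tr_diag_mul]
    have e1 : ∑ i, a i * Rc μ2 i i = ∑ i, a i * Mm μ2 i i - (1/2) * ∑ i, a i * Kf μ2 i i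
        - ∑ i, a i * (adm μ2 (Hv μ2)) i i := by
      rw [Finset.mul_sum, ← Finset.sum_sub_distrib, ← Finset.sum_sub_distrib]
      refine Finset.sum_congr rfl fun i _ => ?_
      simp only [Rc, Matrix.sub_apply, Matrix.smul_apply, sy, Matrix.add_apply,
        Matrix.transpose_apply, smul_eq_mul]
      ring
    have e2 : ∑ i, a i * Kf μ2 i i = 0 := Finset.sum_eq_zero fun i _ => Kf_diag ha hcb i
    have e3 : 0 ≤ ∑ i, a i * Mm μ2 i i := by
      rw [p_MTR n μ2 a ha2]
      apply mul_nonneg (by norm_num)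
      refine Finset.sum_nonneg fun i _ => Finset.sum_nonneg fun j _ => Finset.sum_nonneg fun k _ => ?_
      by_cases h0 : μ2 i j k = 0
      · rw [h0]; simp
      · have := hcb i j k h0
        exact mul_nonneg (by linarith) (sq_nonneg _)
    rw [e1, e2, hP3, tr_adm]
    linarith
  have hP5 : (Rc μ2 * P).trace = -(Hv μ2 ⬝ᵥ Hv μ2) := by
    rw [hP, tr_mul_sy (Rc_symm μ2), tr_Rc_der ha2 (adm_der ha2 hj2 A),
      ← tr_mul_sy (sy_symm _) (adm μ2 A), Matrix.trace_mul_comm, hA, tr_adm]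
  set B : Mat n := -(g • (1 : Mat n)) + diagonal a with hB
  have hBs : Bᵀ = B := by
    rw [hB, Matrix.transpose_add, Matrix.transpose_neg, Matrix.transpose_smul,
      Matrix.transpose_one, Matrix.diagonal_transpose]
  have hBP : (B * P).trace = 0 := by
    rw [hB, Matrix.add_mul, Matrix.trace_add, Matrix.neg_mul, Matrix.smul_mul, Matrix.one_mul,
      Matrix.trace_neg, Matrix.trace_smul, smul_eq_mul]
    have e1 : (diagonal a * P).trace = g * P.trace := by
      rw [hP, tr_mul_sy (Matrix.diagonal_transpose a), tr_diag_mul, hP3, tr_sy]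
    rw [e1]
    ring
  have hBB : (B * B).trace + g * (Hv ν ⬝ᵥ Hv ν) = -(g * (Rc ν).trace) := by
    have := h.norm_split
    rw [hD1] at this
    exact this
  have hRder : IsDer (RR ν) ν := by
    have e1 : RR ν = diagonal a - D := by rw [← hD1]; abel
    rw [e1]
    exact der_sub (der_diag hder) h.der
  have hG : g^2 * (P * P).trace ≤ g * (Hv ν ⬝ᵥ Hv ν) := by
    have h1 := lieCS (R := RR ν) h.asym h.jac hs (sy_symm _) hRder hp y
    rw [h.trR_adm, h.trRR, ← hadm] at h1
    have h2 : (adm ν y).trace = P.trace := by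
      rw [htrP, hadm, tr_conj hp]
    have h3 : (sy (adm μ2 A) * sy (adm μ2 A)).trace = P.trace := hPP
    rw [h2, h3] at h1
    rw [hPP]
    have h4 : 0 ≤ P.trace := by
      rw [← hPP]; exact tr_sq_nonneg hPs
    have h5 : 0 ≤ g * (Hv ν ⬝ᵥ Hv ν) := by
      apply mul_nonneg hg.le
      exact Finset.sum_nonneg fun i _ => mul_self_nonneg _
    rcases h4.eq_or_lt with h6 | h6
    · rw [← h6, mul_zero]; exact h5
    · have h7 : (g^2 * P.trace) * P.trace ≤ (g * (Hv ν ⬝ᵥ Hv ν)) * P.trace := by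
        calc (g^2 * P.trace) * P.trace = (g * P.trace)^2 := by ring
          _ ≤ _ := h1
      exact le_of_mul_le_mul_right h7 h6
  refine ⟨B - g • P, ?_, ?_, ?_⟩
  · rw [Matrix.transpose_sub, hBs, Matrix.transpose_smul, hPs]
  · rw [Matrix.mul_sub, Matrix.trace_sub, hB, Matrix.mul_add, Matrix.trace_add, Matrix.mul_neg,
      Matrix.mul_smul, Matrix.mul_one, Matrix.trace_neg, Matrix.trace_smul, Matrix.mul_smul,
      Matrix.trace_smul, hP5, smul_eq_mul, smul_eq_mul]
    linarith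
  · have e1 : (B - g • P) * (B - g • P) = B * B - g • (B * P) - g • (P * B) + (g^2) • (P * P) := by
      rw [Matrix.sub_mul, Matrix.mul_sub, Matrix.mul_sub, Matrix.smul_mul, Matrix.smul_mul,
        Matrix.mul_smul, Matrix.mul_smul, smul_smul, pow_two]
      abel
    rw [e1, Matrix.trace_add, Matrix.trace_sub, Matrix.trace_sub, Matrix.trace_smul,
      Matrix.trace_smul, Matrix.trace_smul, Matrix.trace_mul_comm P B, hBP, smul_zero, sub_zero,
      sub_zero, smul_eq_mul, ← hBB]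
    linarith

lemma DS_act {μ : Br n} {c : Mat n} (hc : IsUnit c.det) (k : ℕ) :
    ∀ z ∈ DS (act c μ) k, c⁻¹ *ᵥ z ∈ DS μ k := by
  induction k with
  | zero => intro z _; exact Submodule.mem_top
  | succ k ih =>
    intro z hz
    have hle : DS (act c μ) (k+1) ≤ (DS μ (k+1)).comap (Matrix.mulVecLin c⁻¹) := by
      conv_lhs => rw [DS]
      rw [Submodule.span_le]
      rintro z ⟨x, hx, y, hy, rfl⟩
      show c⁻¹ *ᵥ (Fl (act c μ) x y) ∈ DS μ (k+1)
      rw [Fl_act, inv_mulVec hc]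
      exact Fl_mem_DS (ih x hx) (ih y hy)
    exact hle hz

lemma Solv_act {μ : Br n} {c : Mat n} (hc : IsUnit c.det) (h : Solv μ) : Solv (act c μ) := by
  obtain ⟨k, hk⟩ := h
  refine ⟨k, ?_⟩
  rw [Submodule.eq_bot_iff]
  intro z hz
  have h1 := DS_act hc k z hz
  rw [hk, Submodule.mem_bot] at h1
  have h2 : c *ᵥ (c⁻¹ *ᵥ z) = 0 := by rw [h1, Matrix.mulVec_zero]
  rwa [Matrix.mulVec_mulVec, Matrix.mul_nonsing_inv _ hc, Matrix.one_mulVec] at h2

/-- **Main inequality.** For an algebraic soliton `μ` on a solvable Lie algebra with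
`Ric = -g + D`, `g > 0`, every left invariant metric `act c μ` with nonpositive scalar curvature
satisfies `g² scal'² ≤ |Ric'|² · (-g scal)`. -/
theorem main_ineq {μ : Br n} {g : ℝ} {D : Mat n} (h : Sol μ g D) (hg : 0 < g) (hs : Solv μ)
    {c : Mat n} (hc : IsUnit c.det) (hneg : (Rc (act c μ)).trace ≤ 0) :
    (g * (Rc (act c μ)).trace)^2
      ≤ (Rc (act c μ) * Rc (act c μ)).trace * (-(g * (Rc μ).trace)) := by
  obtain ⟨l, a, hl, ha, hD1, hder⟩ := h.partE hg.le
  set ν := act l μ with hν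
  have hsol : Sol ν g (l * D * lᵀ) := h.act hl
  have hlt : l * lᵀ = 1 := hl
  have hD1' : l * D * lᵀ + RR ν = diagonal a := by
    rw [hν, Sol.act_D1 D hl, hD1]
    calc l * (lᵀ * diagonal a * l) * lᵀ = (l * lᵀ) * diagonal a * (l * lᵀ) := by
          simp only [Matrix.mul_assoc]
      _ = _ := by rw [hlt, Matrix.one_mul, Matrix.mul_one]
  have hsν : Solv ν := Solv_act (IsO.det hl) hs
  -- act c μ = act (c lᵀ) ν
  have hcl : IsUnit (c * lᵀ).det := by
    rw [Matrix.det_mul]
    exact hc.mul (IsO.det (IsO.trans hl))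
  have hcμ : act c μ = act (c * lᵀ) ν := by
    rw [hν, ← p_ACTMUL n _ l μ hcl (IsO.det hl), Matrix.mul_assoc, IsO.tmul hl, Matrix.mul_one]
  obtain ⟨k, hk, hpar⟩ := p_QR n a (c * lᵀ) hcl
  set p := k * (c * lᵀ) with hp
  have hpdet : IsUnit p.det := by
    rw [hp, Matrix.det_mul]; exact (IsO.det hk).mul hcl
  have hpact : act p ν = act k (act c μ) := by
    rw [hcμ, hp, p_ACTMUL n k _ ν (IsO.det hk) hcl]
  obtain ⟨E, hEs, hE1, hE2⟩ := main_diag hsol hg hsν ha hD1' hder hpdet hpar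
  have hRc : Rc (act p ν) = k * Rc (act c μ) * kᵀ := by
    rw [hpact, Rc_act hk]
  have htr : (Rc (act p ν)).trace = (Rc (act c μ)).trace := by rw [hRc, tr_conjO hk]
  have htr2 : (Rc (act p ν) * Rc (act p ν)).trace = (Rc (act c μ) * Rc (act c μ)).trace := by
    rw [hRc, conjO_mul hk, tr_conjO hk]
  have htrν : (Rc ν).trace = (Rc μ).trace := by rw [hν, Rc_act hl, tr_conjO hl]
  rw [htr] at hE1
  rw [htrν] at hE2
  have hCS := tr_CS (Rc_symm (act p ν)) hEs
  rw [htr2] at hCS
  have h0 : 0 ≤ -(g * (Rc (act c μ)).trace) := by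
    have := mul_nonneg hg.le (neg_nonneg.2 hneg)
    linarith
  calc (g * (Rc (act c μ)).trace)^2 = (-(g * (Rc (act c μ)).trace))^2 := by ring
    _ ≤ ((Rc (act p ν) * E).trace)^2 := pow_le_pow_left₀ h0 hE1 2
    _ ≤ _ := hCS
    _ ≤ _ := mul_le_mul_of_nonneg_left hE2 (tr_sq_nonneg (Rc_symm _))

end Pool.Agent.H787.SP
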