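import Pool.Agent.H787.SP.Fil
import Pool.Agent.H787.SP.Expo

/-! The optimal compatible weighted frame is invariant under inner derivations; hence the weights
may be taken nonnegative. -/

set_option autoImplicit false

namespace Pool.Agent.H787.SP
open Matrix R877.RN R877.RN.BASA R877.RN.TR0

variable {n : ℕ}

/-- polynomial expression of `act l μ` for orthogonal `l` -/
noncomputable def actT (l : Mat n) (μ : Br n) : Br n := fun i j k =>
  ∑ p, ∑ q, ∑ r, l k r * μ p q r * l i p * l j q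

lemma act_eq_actT {l : Mat n} (hl : IsO l) (μ : Br n) : act l μ = actT l μ := by
  funext i j k
  unfold act actT
  rw [IsO.inv hl]
  simp only [Matrix.transpose_apply]

lemma isO_entry {l : Mat n} (hl : IsO l) (i j : Fin n) : l i j ∈ Set.Icc (-1 : ℝ) 1 := by
  have h1 : (l * lᵀ) i i = 1 := by
    have : l * lᵀ = 1 := hl
    rw [this, Matrix.one_apply_eq]
  rw [Matrix.mul_apply] at h1
  have h2 : l i j * lᵀ j i ≤ ∑ k, l i k * lᵀ k i :=
    Finset.single_le_sum (f := fun k => l i k * lᵀ k i)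
      (fun k _ => by rw [Matrix.transpose_apply]; exact mul_self_nonneg _) (Finset.mem_univ j)
  rw [h1, Matrix.transpose_apply] at h2
  rw [Set.mem_Icc]
  constructor <;> nlinarith

lemma Ph_sq (g : ℝ) (a : Fin n → ℝ) : ∑ i, (a i - g)^2 = n * g^2 - Ph g a := by
  unfold Ph
  have : ∀ i, (a i - g)^2 = (a i)^2 - 2 * g * a i + g^2 := fun i => by ring
  simp only [this, Finset.sum_add_distrib, Finset.sum_sub_distrib, Finset.sum_const,
    Finset.card_univ, Fintype.card_fin, nsmul_eq_mul, ← Finset.mul_sum]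
  ring

lemma isO_iff (l : Mat n) : IsO l ↔ ∀ i j, ∑ k, l i k * l j k = if i = j then 1 else 0 := by
  constructor
  · intro h i j
    have h2 := congrFun (congrFun (h : l * lᵀ = 1) i) j
    rw [Matrix.mul_apply, Matrix.one_apply] at h2
    exact h2
  · intro h
    show l * lᵀ = 1
    ext i j
    rw [Matrix.mul_apply, Matrix.one_apply]
    exact h i j

theorem exists_max (μ : Br n) (g : ℝ) {l0 : Mat n} {a0 : Fin n → ℝ} (hl0 : IsO l0)
    (h0 : CB l0 a0 μ) : ∃ (l : Mat n) (a : Fin n → ℝ), IsO l ∧ CB l a μ ∧ Ph g a0 ≤ Ph g a ∧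
      ∀ (k : Mat n) (u : Fin n → ℝ), IsO k → CB k u μ → Ph g u ≤ Ph g a := by
  set K1 : Set ((Fin n → Fin n → ℝ) × (Fin n → ℝ)) :=
    ⋂ i, ⋂ j, {x | ∑ k, x.1 i k * x.1 j k = if i = j then 1 else 0} with hK1
  set K2 : Set ((Fin n → Fin n → ℝ) × (Fin n → ℝ)) :=
    ⋂ i, ⋂ j, ⋂ k, ({x | (∑ p, ∑ q, ∑ r, x.1 k r * μ p q r * x.1 i p * x.1 j q) = 0} ∪
      {x | x.2 i + x.2 j ≤ x.2 k}) with hK2
  set K3 : Set ((Fin n → Fin n → ℝ) × (Fin n → ℝ)) := {x | Ph g a0 ≤ Ph g x.2} with hK3
  have hcl1 : IsClosed K1 := by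
    refine isClosed_iInter fun i => isClosed_iInter fun j => ?_
    refine isClosed_eq ?_ continuous_const
    fun_prop
  have hcl2 : IsClosed K2 := by
    refine isClosed_iInter fun i => isClosed_iInter fun j => isClosed_iInter fun k => ?_
    refine IsClosed.union ?_ ?_
    · refine isClosed_eq ?_ continuous_const
      fun_prop
    · refine isClosed_le ?_ ?_ <;> fun_prop
  have hcl3 : IsClosed K3 := by
    refine isClosed_le continuous_const ?_
    unfold Ph
    fun_prop
  have m1 : ∀ x : (Fin n → Fin n → ℝ) × (Fin n → ℝ), x ∈ K1 ↔ IsO (Matrix.of x.1) := by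
    intro x
    rw [isO_iff, hK1]
    simp only [Set.mem_iInter]
    rfl
  have m2 : ∀ x : (Fin n → Fin n → ℝ) × (Fin n → ℝ), x ∈ K2 ↔
      ∀ i j k, actT (Matrix.of x.1) μ i j k = 0 ∨ x.2 i + x.2 j ≤ x.2 k := by
    intro x
    rw [hK2]
    simp only [Set.mem_iInter, Set.mem_union]
    rfl
  set K := K1 ∩ (K2 ∩ K3) with hK
  have hcl : IsClosed K := hcl1.inter (hcl2.inter hcl3)
  set C : ℝ := n * g^2 - Ph g a0 with hC
  have hCn : 0 ≤ C := by
    rw [hC, ← Ph_sq]
    exact Finset.sum_nonneg fun i _ => sq_nonneg _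
  set B : Set ((Fin n → Fin n → ℝ) × (Fin n → ℝ)) :=
    (Set.pi Set.univ fun _ => Set.pi Set.univ fun _ => Set.Icc (-1 : ℝ) 1) ×ˢ
    (Set.pi Set.univ fun _ => Set.Icc (g - (C+1)) (g + (C+1))) with hB
  have hBc : IsCompact B :=
    (isCompact_univ_pi fun _ => isCompact_univ_pi fun _ => isCompact_Icc).prod
      (isCompact_univ_pi fun _ => isCompact_Icc)
  have hKB : K ⊆ B := by
    rintro ⟨l, a⟩ ⟨h1, h2, h3⟩
    refine ⟨?_, ?_⟩
    · intro i _ j _
      exact isO_entry ((m1 _).1 h1) i j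
    · intro i _
      have h4 : (a i - g)^2 ≤ C := by
        have h5 : (a i - g)^2 ≤ ∑ i, (a i - g)^2 :=
          Finset.single_le_sum (f := fun i => (a i - g)^2) (fun i _ => sq_nonneg _)
            (Finset.mem_univ i)
        rw [Ph_sq] at h5
        have h6 : Ph g a0 ≤ Ph g a := h3
        linarith
      rw [Set.mem_Icc]
      have h7 : |a i - g| ≤ C + 1 := by
        apply abs_le_of_sq_le_sq _ (by linarith)
        nlinarith
      rw [abs_le] at h7
      constructor <;> linarith [h7.1, h7.2]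
  have hKc : IsCompact K := hBc.of_isClosed_subset hcl hKB
  have hmem : ∀ (k : Mat n) (u : Fin n → ℝ), IsO k → CB k u μ → Ph g a0 ≤ Ph g u →
      ((k : Fin n → Fin n → ℝ), u) ∈ K := by
    intro k u hk hu hle
    refine ⟨(m1 _).2 hk, (m2 _).2 ?_, hle⟩
    intro i j m
    by_cases h : actT k μ i j m = 0
    · exact Or.inl h
    · right
      apply hu
      rw [act_eq_actT hk]
      exact h
  obtain ⟨x, hx, hmax⟩ := hKc.exists_isMaxOn ⟨_, hmem l0 a0 hl0 h0 le_rfl⟩
    (f := fun x => Ph g x.2) (by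
    apply Continuous.continuousOn
    unfold Ph
    fun_prop)
  have hxO : IsO (Matrix.of x.1) := (m1 x).1 hx.1
  refine ⟨Matrix.of x.1, x.2, hxO, ?_, hx.2.2, ?_⟩
  · intro i j k hne
    rw [act_eq_actT hxO] at hne
    exact ((m2 x).1 hx.2.1 i j k).resolve_left hne
  · intro k u hk hu
    by_cases hle : Ph g a0 ≤ Ph g u
    · exact hmax (hmem k u hk hu hle)
    · push Not at hle
      exact hle.le.trans hx.2.2

/-- the optimal filtration is invariant under automorphisms of the form `exp(sD)` -/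
theorem max_inv {μ : Br n} {g : ℝ} {l : Mat n} {a : Fin n → ℝ} (hl : IsO l) (h : CB l a μ)
    (hmax : ∀ (k : Mat n) (u : Fin n → ℝ), IsO k → CB k u μ → Ph g u ≤ Ph g a)
    {D : Mat n} (hD : IsDer D μ) : CM l a D := by
  apply par_of_exp
  intro s
  set E := NormedSpace.exp (s • D) with hE
  have hu : IsUnit E.det := by
    rw [← Matrix.isUnit_iff_isUnit_det]
    exact Matrix.isUnit_exp _
  have hau : act E μ = μ := exp_aut hD s
  have hlE : IsUnit (l * E).det := by
    rw [Matrix.det_mul]; exact (IsO.det hl).mul hu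
  have hcb : CB (l * E) a μ := by
    intro i j k hne
    rw [p_ACTMUL n l E μ (IsO.det hl) hu, hau] at hne
    exact h i j k hne
  obtain ⟨k, hk, hkcb, hpar⟩ := CB.ortho hlE hcb
  have h1 := uniq hl hk h hkcb rfl rfl hmax
  have h2 : l * E * lᵀ = (k * (l * E)⁻¹)⁻¹ * (k * lᵀ) := by
    rw [Matrix.mul_inv_rev, Matrix.nonsing_inv_nonsing_inv _ hlE, IsO.inv hk]
    calc l * E * lᵀ = l * E * (kᵀ * k) * lᵀ := by rw [IsO.tmul hk, Matrix.mul_one]
      _ = _ := by simp only [Matrix.mul_assoc]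
  rw [h2]
  have hdet : IsUnit (k * (l * E)⁻¹).det := by
    rw [Matrix.det_mul, Matrix.det_nonsing_inv]
    exact (IsO.det hk).mul hlE.ringInverse
  exact PARB_mul (p_PINV n a _ hdet hpar) h1

/-- (D) -/
theorem partD {μ : Br n} (ha : Asym μ) (hj : Jac μ) {g : ℝ} (hg : 0 ≤ g) {l0 : Mat n}
    {a0 : Fin n → ℝ} (hl0 : IsO l0) (h0 : CB l0 a0 μ) :
    ∃ (l : Mat n) (a : Fin n → ℝ), IsO l ∧ CB l a μ ∧ (∀ i, 0 ≤ a i) ∧ Ph g a0 ≤ Ph g a := by
  obtain ⟨l, a, hl, hcb, hle, hmax⟩ := exists_max μ g hl0 h0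
  have hcm : ∀ x, CM l a (adm μ x) := fun x => max_inv hl hcb hmax (adm_der ha hj x)
  have hact : ∀ i j k, act l μ i j k ≠ 0 → a j ≤ a k := by
    intro i j k hne
    have h1 := hcm (lᵀ *ᵥ e i) k j
    apply h1
    rw [adm_frame hl]
    have h2 : l *ᵥ (lᵀ *ᵥ (e i : Fin n → ℝ)) = e i := by
      have : l * lᵀ = 1 := hl
      rw [Matrix.mulVec_mulVec, this, Matrix.one_mulVec]
    rw [h2, Finset.sum_eq_single i]
    · simpa using hne
    · intro b _ hb
      simp [hb]
    · intro h; exact absurd (Finset.mem_univ _) h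
  have hact' : ∀ i j k, act l μ i j k ≠ 0 → a i ≤ a k := by
    intro i j k hne
    apply hact j i k
    rw [p_ASYMACT n l μ ha j i k]
    exact neg_ne_zero.2 hne
  refine ⟨l, fun i => max (a i) 0, hl, ?_, fun i => le_max_right _ _, hle.trans ?_⟩
  · intro i j k hne
    have h1 := hcb i j k hne
    have h2 := hact i j k hne
    have h3 := hact' i j k hne
    show max (a i) 0 + max (a j) 0 ≤ max (a k) 0
    rcases le_total (a i) 0 with hi | hi
    · rw [max_eq_right hi, zero_add]
      exact max_le_max h2 le_rfl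
    · rcases le_total (a j) 0 with hj | hj
      · rw [max_eq_right hj, add_zero]
        exact max_le_max h3 le_rfl
      · rw [max_eq_left hi, max_eq_left hj]
        exact h1.trans (le_max_left _ _)
  · unfold Ph
    rw [Finset.mul_sum, Finset.mul_sum, ← Finset.sum_sub_distrib, ← Finset.sum_sub_distrib]
    refine Finset.sum_le_sum fun i _ => ?_
    rcases le_total (a i) 0 with hi | hi
    · simp only [max_eq_right hi]
      nlinarith [mul_nonneg hg (neg_nonneg.2 hi), sq_nonneg (a i)]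
    · simp only [max_eq_left hi, le_refl]

end Pool.Agent.H787.SP
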