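import Pool.Agent.H787.SP.Sol

/-! The Ricci operator computed from the Levi-Civita connection equals `Rc`. -/

set_option autoImplicit false

namespace Pool.Agent.H787.SP
open Matrix R877.RN R877.RN.BASA R877.RN.TR0

variable {n : ℕ}

/-- Koszul formula: coefficient of `e_k` in `∇_{e_i} e_j` -/
noncomputable def nab (μ : Br n) (i j k : Fin n) : ℝ := (μ i j k - μ j k i + μ k i j) / 2

/-- coefficient of `e_l` in `R(e_i,e_j) e_k` -/
noncomputable def cur (μ : Br n) (i j k l : Fin n) : ℝ :=
  ∑ m, (nab μ j k m * nab μ i m l - nab μ i k m * nab μ j m l - μ i j m * nab μ m k l)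

/-- Ricci operator: trace of `x ↦ R(x,e_j) e_k` -/
noncomputable def ricL (μ : Br n) : Mat n := fun j k => ∑ i, cur μ i j k i

lemma sum_antisym {f : Fin n → Fin n → ℝ} (h : ∀ i m, f i m = - f m i) :
    ∑ i, ∑ m, f i m = 0 := by
  have h1 : ∑ i, ∑ m, f i m = - ∑ i, ∑ m, f i m := by
    conv_rhs => rw [Finset.sum_comm]
    rw [← Finset.sum_neg_distrib]
    refine Finset.sum_congr rfl fun i _ => ?_
    rw [← Finset.sum_neg_distrib]
    exact Finset.sum_congr rfl fun m _ => h i m
  linarith

theorem ricL_eq {μ : Br n} (ha : Asym μ) (hj : Jac μ) : ricL μ = Rc μ := by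
  ext j k
  have hH : ∀ m, ∑ i, nab μ i m i = - Hv μ m := by
    intro m
    unfold Hv nab
    rw [← Finset.sum_neg_distrib]
    refine Finset.sum_congr rfl fun i _ => ?_
    have h1 : μ i i m = 0 := by linarith [ha i i m]
    rw [h1, ha i m i]
    ring
  have h1 : ∑ i, ∑ m, nab μ j k m * nab μ i m i = - sy (adm μ (Hv μ)) j k := by
    rw [Finset.sum_comm]
    have e1 : ∀ m, ∑ i, nab μ j k m * nab μ i m i = - (nab μ j k m * Hv μ m) := by
      intro m
      rw [← Finset.mul_sum, hH]; ring
    rw [Finset.sum_congr rfl fun m _ => e1 m, Finset.sum_neg_distrib]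
    congr 1
    have e2 : ∀ m, nab μ j k m * Hv μ m = (1/2) * (μ j k m * Hv μ m)
        + (1/2) * (Hv μ m * μ m k j + Hv μ m * μ m j k) := by
      intro m
      unfold nab
      rw [ha k m j]; ring
    rw [Finset.sum_congr rfl fun m _ => e2 m, Finset.sum_add_distrib, ← Finset.mul_sum,
      br_Hv ha hj, mul_zero, zero_add, ← Finset.mul_sum, Finset.sum_add_distrib]
    simp only [sy, Matrix.smul_apply, Matrix.add_apply, Matrix.transpose_apply, smul_eq_mul, adm]
  have h2 : ∑ i, ∑ m, (- (nab μ i k m * nab μ j m i) - μ i j m * nab μ m k i)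
      = Mm μ j k - (1/2) * Kf μ j k := by
    have e1 : Mm μ j k - (1/2) * Kf μ j k
        = ∑ i, ∑ m, (-(1/2) * (μ j i m * μ k i m) + (1/4) * (μ i m j * μ i m k)
          - (1/2) * (μ j m i * μ k i m)) := by
      simp only [Mm, Kf, Finset.mul_sum, Finset.sum_add_distrib, Finset.sum_sub_distrib]
    rw [e1, ← sub_eq_zero, ← Finset.sum_sub_distrib]
    simp only [← Finset.sum_sub_distrib]
    apply sum_antisym
    intro i m
    unfold nab
    rw [ha i k m, ha m i k, ha m i j, ha i j m, ha m k i, ha m j i]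
    ring
  show ∑ i, cur μ i j k i = Rc μ j k
  have h3 : ∑ i, cur μ i j k i = ∑ i, ∑ m, nab μ j k m * nab μ i m i
      + ∑ i, ∑ m, (- (nab μ i k m * nab μ j m i) - μ i j m * nab μ m k i) := by
    rw [← Finset.sum_add_distrib]
    refine Finset.sum_congr rfl fun i _ => ?_
    unfold cur
    rw [← Finset.sum_add_distrib]
    exact Finset.sum_congr rfl fun m _ => by ring
  rw [h3, h1, h2]
  simp only [Rc, Matrix.sub_apply, Matrix.smul_apply, smul_eq_mul]
  ring

end Pool.Agent.H787.SP
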