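import Pool.Agent.H787.SP.Sol

/-! Change of frame, and the inequality for compatible weighted frames with nonnegative weights. -/

set_option autoImplicit false

namespace Pool.Agent.H787.SP
open Matrix R877.RN R877.RN.BASA R877.RN.TR0

variable {n : ℕ}

lemma dot_ext {u v : Fin n → ℝ} (h : ∀ x : Fin n → ℝ, x ⬝ᵥ u = x ⬝ᵥ v) : u = v := by
  funext i
  have := h (e i)
  simpa using this

lemma IsO.inv {l : Mat n} (hl : IsO l) : l⁻¹ = lᵀ := Matrix.inv_eq_right_inv hl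

lemma IsO.tmul {l : Mat n} (hl : IsO l) : lᵀ * l = 1 := mul_eq_one_comm.mp hl

lemma IsO.det {l : Mat n} (hl : IsO l) : IsUnit l.det :=
  Matrix.isUnit_det_of_right_inverse hl

lemma IsO.mul {k l : Mat n} (hk : IsO k) (hl : IsO l) : IsO (k * l) := by
  unfold IsO at *
  calc k * l * (k * l)ᵀ = k * (l * lᵀ) * kᵀ := by
        rw [Matrix.transpose_mul]; simp only [Matrix.mul_assoc]
    _ = 1 := by rw [hl, Matrix.mul_one, hk]

lemma IsO.trans {l : Mat n} (hl : IsO l) : IsO lᵀ := by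
  unfold IsO
  rw [Matrix.transpose_transpose]
  exact IsO.tmul hl

lemma tr_conj {c : Mat n} (hc : IsUnit c.det) (A : Mat n) : (c * A * c⁻¹).trace = A.trace := by
  rw [Matrix.trace_mul_comm, ← Matrix.mul_assoc, Matrix.nonsing_inv_mul _ hc, Matrix.one_mul]

lemma Hv_act {c : Mat n} (hc : IsUnit c.det) (μ : Br n) :
    Hv (act c μ) = (c⁻¹)ᵀ *ᵥ Hv μ := by
  refine dot_ext fun x => ?_
  rw [← tr_adm, adm_act, tr_conj hc, tr_adm, Matrix.dotProduct_mulVec, Matrix.vecMul_transpose]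

lemma adm_act_Hv {l : Mat n} (hl : IsO l) (μ : Br n) :
    adm (act l μ) (Hv (act l μ)) = l * adm μ (Hv μ) * lᵀ := by
  rw [Hv_act (IsO.det hl), adm_act, Matrix.mulVec_mulVec, IsO.inv hl, Matrix.transpose_transpose,
    IsO.tmul hl, Matrix.one_mulVec]

lemma sy_conj (l A : Mat n) : sy (l * A * lᵀ) = l * sy A * lᵀ := by
  rw [sy, sy, Matrix.transpose_mul, Matrix.transpose_mul, Matrix.transpose_transpose,
    Matrix.mul_smul, Matrix.smul_mul, Matrix.mul_add, Matrix.add_mul, Matrix.mul_assoc l Aᵀ lᵀ]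

lemma Kf_act {l : Mat n} (hl : IsO l) (μ : Br n) : Kf (act l μ) = l * Kf μ * lᵀ := by
  refine mat_ext fun y => dot_ext fun x => ?_
  rw [Kf_bil, adm_act, adm_act]
  have h1 : l * adm μ (l⁻¹ *ᵥ x) * l⁻¹ * (l * adm μ (l⁻¹ *ᵥ y) * l⁻¹)
      = l * (adm μ (l⁻¹ *ᵥ x) * adm μ (l⁻¹ *ᵥ y)) * l⁻¹ := by
    calc l * adm μ (l⁻¹ *ᵥ x) * l⁻¹ * (l * adm μ (l⁻¹ *ᵥ y) * l⁻¹)
        = l * adm μ (l⁻¹ *ᵥ x) * (l⁻¹ * l) * adm μ (l⁻¹ *ᵥ y) * l⁻¹ := by
          simp only [Matrix.mul_assoc]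
      _ = _ := by
          rw [Matrix.nonsing_inv_mul _ (IsO.det hl), Matrix.mul_one]
          simp only [Matrix.mul_assoc]
  rw [h1, tr_conj (IsO.det hl), ← Kf_bil, IsO.inv hl]
  rw [← Matrix.mulVec_mulVec, ← Matrix.mulVec_mulVec, Matrix.dotProduct_mulVec x l,
    ← Matrix.mulVec_transpose]

lemma Rc_act {l : Mat n} (hl : IsO l) (μ : Br n) : Rc (act l μ) = l * Rc μ * lᵀ := by
  rw [Rc, Rc, adm_act_Hv hl, sy_conj, Kf_act hl, p_MROT n l μ hl, Matrix.mul_sub, Matrix.mul_sub,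
    Matrix.sub_mul, Matrix.sub_mul, Matrix.mul_smul, Matrix.smul_mul]

lemma RR_act {l : Mat n} (hl : IsO l) (μ : Br n) : RR (act l μ) = l * RR μ * lᵀ := by
  rw [RR, RR, adm_act_Hv hl, sy_conj]

lemma tr_conjO {l : Mat n} (hl : IsO l) (A : Mat n) : (l * A * lᵀ).trace = A.trace := by
  rw [Matrix.trace_mul_comm, ← Matrix.mul_assoc, IsO.tmul hl, Matrix.one_mul]

lemma conjO_mul {l : Mat n} (hl : IsO l) (A B : Mat n) :
    (l * A * lᵀ) * (l * B * lᵀ) = l * (A * B) * lᵀ := by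
  calc (l * A * lᵀ) * (l * B * lᵀ) = l * A * (lᵀ * l) * B * lᵀ := by
        simp only [Matrix.mul_assoc]
    _ = _ := by rw [IsO.tmul hl, Matrix.mul_one]; simp only [Matrix.mul_assoc]

lemma Sol.act {μ : Br n} {g : ℝ} {D : Mat n} (h : Sol μ g D) {l : Mat n} (hl : IsO l) :
    Sol (act l μ) g (l * D * lᵀ) where
  asym := p_ASYMACT n l μ h.asym
  jac := p_JACT n l μ (IsO.det hl) h.jac
  der := by
    have := p_DERACT n l D μ (IsO.det hl) h.der
    rwa [conj, IsO.inv hl] at this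
  eq := by
    rw [Rc_act hl, h.eq, Matrix.mul_add, Matrix.add_mul, Matrix.mul_neg, Matrix.neg_mul,
      Matrix.mul_smul, Matrix.smul_mul, Matrix.mul_one]
    congr 3

lemma Sol.act_D1 {μ : Br n} (D : Mat n) {l : Mat n} (hl : IsO l) :
    l * D * lᵀ + RR (R877.RN.act l μ) = l * (D + RR μ) * lᵀ := by
  rw [RR_act hl, Matrix.mul_add, Matrix.add_mul]

lemma dt_add (A B l : Mat n) (a : Fin n → ℝ) : dt (A + B) l a = dt A l a + dt B l a := by
  simp only [dt, Matrix.add_mul, Matrix.add_apply, mul_add,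
    Finset.sum_add_distrib]

lemma dt_smul (r : ℝ) (A l : Mat n) (a : Fin n → ℝ) : dt (r • A) l a = r * dt A l a := by
  simp only [dt, Matrix.mul_smul, Matrix.smul_mul, Matrix.smul_apply, smul_eq_mul,
    Finset.mul_sum]
  exact Finset.sum_congr rfl fun i _ => by ring

lemma dt_one {l : Mat n} (hl : IsO l) (a : Fin n → ℝ) : dt 1 l a = ∑ i, a i := by
  unfold dt
  rw [Matrix.mul_one]
  have h : l * lᵀ = 1 := hl
  simp [h]

/-- `tr (A E)` for `E = lᵀ diag(a) l` -/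
lemma dt_eq (A l : Mat n) (a : Fin n → ℝ) : dt A l a = (A * (lᵀ * diagonal a * l)).trace := by
  have h1 : (A * (lᵀ * diagonal a * l)).trace = (diagonal a * (l * A * lᵀ)).trace := by
    calc (A * (lᵀ * diagonal a * l)).trace = ((A * (lᵀ * diagonal a)) * l).trace := by
          simp only [Matrix.mul_assoc]
      _ = (l * (A * (lᵀ * diagonal a))).trace := Matrix.trace_mul_comm _ _
      _ = ((l * A * lᵀ) * diagonal a).trace := by simp only [Matrix.mul_assoc]
      _ = _ := Matrix.trace_mul_comm _ _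
  rw [h1]
  simp only [dt, Matrix.trace, Matrix.diag_apply, Matrix.diagonal_mul]

/-- the diagonal Killing terms vanish in a compatible frame with positive weight -/
lemma Kf_diag {ν : Br n} {a : Fin n → ℝ} (ha : ∀ i, 0 ≤ a i)
    (h : ∀ i j k, ν i j k ≠ 0 → a i + a j ≤ a k) (i : Fin n) : a i * Kf ν i i = 0 := by
  rcases (ha i).eq_or_lt with h0 | h0
  · rw [← h0, zero_mul]
  · have : Kf ν i i = 0 := by
      refine Finset.sum_eq_zero fun p _ => Finset.sum_eq_zero fun q _ => ?_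
      by_contra hne
      have h1 := h i q p (left_ne_zero_of_mul hne)
      have h2 := h i p q (right_ne_zero_of_mul hne)
      linarith
    rw [this, mul_zero]

lemma CB_act {l : Mat n} {a : Fin n → ℝ} {μ : Br n} (h : CB l a μ) :
    ∀ i j k, act l μ i j k ≠ 0 → a i + a j ≤ a k := h

/-- (B) -/
theorem Sol.ineqB {μ : Br n} {g : ℝ} {D : Mat n} (h : Sol μ g D) {l : Mat n} (hl : IsO l)
    {a : Fin n → ℝ} (ha : ∀ i, 0 ≤ a i) (hc : CB l a μ) :
    dt (D + RR μ) l a = g * ∑ i, a i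
      + (1/4) * ∑ i, ∑ j, ∑ k, (a k - a i - a j) * (R877.RN.act l μ i j k)^2 := by
  have hD1 : D + RR μ = g • (1 : Mat n) + (Mm μ + (-(1/2) : ℝ) • Kf μ) := by
    rw [h.D1_eq, neg_smul]
    abel
  rw [hD1, dt_add, dt_smul, dt_one hl, dt_add, dt_smul]
  have h1 : dt (Mm μ) l a = (1/4) * ∑ i, ∑ j, ∑ k, (a k - a i - a j) * (R877.RN.act l μ i j k)^2 := by
    rw [← p_MTR n (R877.RN.act l μ) a (p_ASYMACT n l μ h.asym), p_MROT n l μ hl]
    rfl
  have h2 : dt (Kf μ) l a = 0 := by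
    unfold dt
    rw [← Kf_act hl]
    exact Finset.sum_eq_zero fun i _ => Kf_diag ha hc i
  rw [h1, h2]
  ring

lemma CB_term {l : Mat n} {a : Fin n → ℝ} {μ : Br n} (hc : CB l a μ) (i j k : Fin n) :
    0 ≤ (a k - a i - a j) * (act l μ i j k)^2 := by
  by_cases h0 : act l μ i j k = 0
  · rw [h0]; simp
  · have := hc i j k h0
    exact mul_nonneg (by linarith) (sq_nonneg _)

theorem Sol.ineqB' {μ : Br n} {g : ℝ} {D : Mat n} (h : Sol μ g D) {l : Mat n} (hl : IsO l)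
    {a : Fin n → ℝ} (ha : ∀ i, 0 ≤ a i) (hc : CB l a μ) :
    g * ∑ i, a i ≤ dt (D + RR μ) l a := by
  rw [h.ineqB hl ha hc]
  have : 0 ≤ ∑ i, ∑ j, ∑ k, (a k - a i - a j) * (R877.RN.act l μ i j k)^2 :=
    Finset.sum_nonneg fun i _ => Finset.sum_nonneg fun j _ => Finset.sum_nonneg fun k _ =>
      CB_term hc i j k
  linarith

/-- equality in (B) -/
theorem Sol.eqB {μ : Br n} {g : ℝ} {D : Mat n} (h : Sol μ g D) {l : Mat n} (hl : IsO l)
    {a : Fin n → ℝ} (ha : ∀ i, 0 ≤ a i) (hc : CB l a μ)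
    (heq : dt (D + RR μ) l a ≤ g * ∑ i, a i) (i j k : Fin n)
    (hne : R877.RN.act l μ i j k ≠ 0) : a i + a j = a k := by
  rw [h.ineqB hl ha hc] at heq
  have h0 : ∑ i, ∑ j, ∑ k, (a k - a i - a j) * (R877.RN.act l μ i j k)^2 = 0 := by
    refine le_antisymm (by linarith) ?_
    exact Finset.sum_nonneg fun i _ => Finset.sum_nonneg fun j _ => Finset.sum_nonneg fun k _ =>
      CB_term hc i j k
  have h1 := (Finset.sum_eq_zero_iff_of_nonneg fun i _ => Finset.sum_nonneg fun j _ =>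
    Finset.sum_nonneg fun k _ => CB_term hc i j k).1 h0 i (Finset.mem_univ _)
  have h2 := (Finset.sum_eq_zero_iff_of_nonneg fun j _ =>
    Finset.sum_nonneg fun k _ => CB_term hc i j k).1 h1 j (Finset.mem_univ _)
  have h3 := (Finset.sum_eq_zero_iff_of_nonneg fun k _ => CB_term hc i j k).1 h2 k
    (Finset.mem_univ _)
  have h4 : a k - a i - a j = 0 := by
    rcases mul_eq_zero.1 h3 with h4 | h4
    · exact h4
    · exact absurd (pow_eq_zero_iff (by norm_num) |>.1 h4) hne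
  linarith

end Pool.Agent.H787.SP
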