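import Pool.Agent.H787.SP.LieC
import Pool.Agent.H787.SP.Fil

/-! The scalar curvature of a left invariant metric on a solvable Lie group is nonpositive. -/

set_option autoImplicit false

namespace Pool.Agent.H787.SP
open Matrix R877.RN R877.RN.BASA R877.RN.TR0

variable {n : ℕ}

lemma der_zero (μ : Br n) : IsDer (0 : Mat n) μ := by
  intro i j k
  simp

lemma Solv_one_mem {μ : Br n} (x y : Fin n → ℝ) : Fl μ x y ∈ DS μ 1 :=
  Fl_mem_DS (k := 0) Submodule.mem_top Submodule.mem_top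

theorem kf_zero {μ : Br n} (ha : Asym μ) (hj : Jac μ) (hs : Solv μ) {w : Fin n → ℝ}
    (hw : w ∈ DS μ 1) : (adm μ w * adm μ w).trace = 0 := by
  have h1det : IsUnit (1 : Matrix (Fin n) (Fin n) ℂ).det := by rw [Matrix.det_one]; exact isUnit_one
  obtain ⟨U, hU, hT⟩ := tri_mat (LL ha hj (der_zero μ)) (LL_solv ha hj (der_zero μ) hs) 1 h1det
  have hU' : U * Uᴴ = 1 := mul_eq_one_comm.mp hU
  have hT' : ∀ x : Fin n → ℝ, ∀ i j, j < i → (Uᴴ * cx (adm μ x) * U) i j = 0 := by
    intro x i j hij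
    have hXL : cx (adm μ x) ∈ LL ha hj (der_zero μ) := by
      show cx (adm μ x) ∈ SC μ ⊤ ⊔ Submodule.span ℂ {cx (0 : Mat n)}
      apply Submodule.mem_sup_left
      refine ⟨x, Submodule.mem_top, 0, Submodule.mem_top, ?_⟩
      have h0 : adm μ (0 : Fin n → ℝ) = 0 := (admL μ).map_zero
      rw [h0, map_zero, smul_zero, add_zero]
    have h2 := hT _ hXL i j hij
    rwa [Matrix.one_mul, inv_one, Matrix.mul_one] at h2
  have hmul : ∀ A B : Matrix (Fin n) (Fin n) ℂ,
      (Uᴴ * A * U) * (Uᴴ * B * U) = Uᴴ * (A * B) * U := by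
    intro A B
    calc (Uᴴ * A * U) * (Uᴴ * B * U) = Uᴴ * A * (U * Uᴴ) * B * U := by
          simp only [Matrix.mul_assoc]
      _ = _ := by rw [hU', Matrix.mul_one]; simp only [Matrix.mul_assoc]
  have hdmul : ∀ A B : Matrix (Fin n) (Fin n) ℂ, (∀ i j, j < i → A i j = 0) →
      (∀ i j, j < i → B i j = 0) → ∀ i, (A * B) i i = A i i * B i i := by
    intro A B hA hB i
    rw [Matrix.mul_apply, Finset.sum_eq_single i]
    · intro j _ hj
      rcases lt_or_gt_of_ne hj with h | h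
      · rw [hA i j h, zero_mul]
      · rw [hB j i h, mul_zero]
    · intro h; exact absurd (Finset.mem_univ _) h
  have hdiag : ∀ i, (Uᴴ * cx (adm μ w) * U) i i = 0 := by
    intro i
    set φ : (Fin n → ℝ) →ₗ[ℝ] ℂ :=
      { toFun := fun x => (Uᴴ * cx (adm μ x) * U) i i
        map_add' := by
          intro x y
          rw [adm_add, map_add, Matrix.mul_add, Matrix.add_mul, Matrix.add_apply]
        map_smul' := by
          intro c x
          rw [adm_smul, cx_smul, Matrix.mul_smul, Matrix.smul_mul, Matrix.smul_apply,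
            RingHom.id_apply, Complex.real_smul, smul_eq_mul] } with hφ
    have hle : DS μ 1 ≤ LinearMap.ker φ := by
      conv_lhs => rw [DS]
      rw [Submodule.span_le]
      rintro z ⟨x, -, y, -, rfl⟩
      show (Uᴴ * cx (adm μ (Fl μ x y)) * U) i i = 0
      rw [← adm_comm ha hj, map_sub, map_mul, map_mul, Matrix.mul_sub, Matrix.sub_mul,
        ← hmul, ← hmul, Matrix.sub_apply, hdmul _ _ (hT' x) (hT' y), hdmul _ _ (hT' y) (hT' x)]
      ring
    exact hle hw
  have h3 : (((adm μ w * adm μ w).trace : ℝ) : ℂ) = 0 := by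
    have h4 : (cx (adm μ w * adm μ w)).trace
        = ((Uᴴ * cx (adm μ w) * U) * (Uᴴ * cx (adm μ w) * U)).trace := by
      rw [hmul, map_mul, Matrix.mul_assoc Uᴴ, Matrix.trace_mul_comm Uᴴ, Matrix.mul_assoc _ U Uᴴ,
        hU', Matrix.mul_one]
    rw [← cx_trace, h4, tri_trace (hT' w) (hT' w)]
    exact Finset.sum_eq_zero fun i _ => by rw [hdiag, zero_mul]
  exact_mod_cast h3

theorem adapted_frame (W : Submodule ℝ (Fin n → ℝ)) : ∃ (k : Mat n) (a : Fin n → ℝ), IsO k ∧
    (∀ i, a i = 0 ∨ a i = 1) ∧ (∀ x ∈ W, ∀ i, (k *ᵥ x) i ≠ 0 → a i = 1) ∧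
    ∀ i, a i = 1 → kᵀ *ᵥ (e i : Fin n → ℝ) ∈ W := by
  classical
  obtain ⟨b, hb⟩ := adapted n (Fin n → ℝ) (by simp) {W} ∅ (Set.subsingleton_singleton.isChain)
    IsChain.empty
  set st := Pi.basisFun ℝ (Fin n) with hst
  set c : Mat n := b.toMatrix st with hc
  set c' : Mat n := st.toMatrix b with hc'
  have hcc' : c * c' = 1 := b.toMatrix_mul_toMatrix_flip st
  have hcinv : c⁻¹ = c' := Matrix.inv_eq_right_inv hcc'
  have hcdet : IsUnit c.det := Matrix.isUnit_det_of_right_inverse hcc'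
  have hcol : ∀ j, c⁻¹ *ᵥ (e j : Fin n → ℝ) = b j := by
    intro j
    rw [hcinv, mulVec_e]
    funext i
    rw [hc', Module.Basis.toMatrix_apply, hst, Pi.basisFun_repr]
  have hrow : ∀ (x : Fin n → ℝ) (j : Fin n), (c *ᵥ x) j = b.repr x j := by
    intro x j
    have h1 := Module.Basis.toMatrix_mulVec_repr st b x
    have h2 := congrFun h1 j
    rw [← h2]
    have h3 : (st.repr x : Fin n → ℝ) = x := by
      funext i
      rw [hst, Pi.basisFun_repr]
    rw [h3]
  set a : Fin n → ℝ := fun i => if b i ∈ W then 1 else 0 with hadef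
  have ha1 : ∀ i, a i = 1 → b i ∈ W := by
    intro i hi
    by_contra h
    simp only [hadef, if_neg h] at hi
    exact absurd hi (by norm_num)
  have ha2 : ∀ i, b i ∈ W → a i = 1 := by
    intro i hi
    simp only [hadef, if_pos hi]
  have ha01 : ∀ i, a i = 0 ∨ a i = 1 := by
    intro i
    by_cases h : b i ∈ W
    · right; exact ha2 i h
    · left; simp only [hadef, if_neg h]
  have hdetinv : IsUnit (c⁻¹).det := by
    rw [Matrix.det_nonsing_inv]
    exact hcdet.ringInverse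
  obtain ⟨k, hk, hpar⟩ := p_QR n a c⁻¹ hdetinv
  refine ⟨k, a, hk, ha01, ?_, ?_⟩
  · intro x hx i hne
    have h1 : k *ᵥ x = (k * c⁻¹) *ᵥ (c *ᵥ x) := by
      rw [Matrix.mulVec_mulVec, Matrix.mul_assoc, Matrix.nonsing_inv_mul _ hcdet, Matrix.mul_one]
    rw [h1] at hne
    have hne' : ∑ j, (k * c⁻¹) i j * (c *ᵥ x) j ≠ 0 := hne
    obtain ⟨j, -, hj⟩ := Finset.exists_ne_zero_of_sum_ne_zero hne'
    have h2 := hpar i j (left_ne_zero_of_mul hj)
    have h3 := right_ne_zero_of_mul hj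
    rw [hrow] at h3
    have h4 := ha2 j (hb W (Or.inl rfl) x hx j h3)
    rw [h4] at h2
    rcases ha01 i with h5 | h5
    · rw [h5] at h2; exact absurd h2 (by norm_num)
    · exact h5
  · intro i hi
    have hdet : IsUnit (k * c⁻¹).det := by
      rw [Matrix.det_mul]; exact (IsO.det hk).mul hdetinv
    have hpinv := p_PINV n a _ hdet hpar
    have h1 : (k * c⁻¹)⁻¹ = c * kᵀ := by
      rw [Matrix.mul_inv_rev, Matrix.nonsing_inv_nonsing_inv _ hcdet, IsO.inv hk]
    rw [h1] at hpinv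
    have h2 : kᵀ *ᵥ (e i : Fin n → ℝ) = ∑ j, (c * kᵀ) j i • b j := by
      have h3 : kᵀ *ᵥ (e i : Fin n → ℝ) = c⁻¹ *ᵥ ((c * kᵀ) *ᵥ e i) := by
        rw [Matrix.mulVec_mulVec, ← Matrix.mul_assoc, Matrix.nonsing_inv_mul _ hcdet,
          Matrix.one_mul]
      have h4 : ((c * kᵀ) *ᵥ (e i : Fin n → ℝ)) = ∑ j, (c * kᵀ) j i • (e j : Fin n → ℝ) := by
        rw [mulVec_e]
        exact sum_e _
      have h5 : c⁻¹ *ᵥ (∑ j, (c * kᵀ) j i • (e j : Fin n → ℝ))
          = ∑ j, (c * kᵀ) j i • (c⁻¹ *ᵥ (e j : Fin n → ℝ)) := by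
        have := map_sum (Matrix.mulVecLin c⁻¹) (fun j => (c * kᵀ) j i • (e j : Fin n → ℝ))
          Finset.univ
        simp only [Matrix.mulVecLin_apply, Matrix.mulVec_smul] at this
        exact this
      rw [h3, h4, h5]
      exact Finset.sum_congr rfl fun j _ => by rw [hcol]
    rw [h2]
    refine Submodule.sum_mem _ fun j _ => ?_
    by_cases h0 : (c * kᵀ) j i = 0
    · rw [h0, zero_smul]; exact W.zero_mem
    · have h3 := hpinv j i h0
      rw [hi] at h3
      have h4 : a j = 1 := by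
        rcases ha01 j with h5 | h5
        · rw [h5] at h3; exact absurd h3 (by norm_num)
        · exact h5
      exact W.smul_mem _ (ha1 j h4)

theorem scal_nonpos {μ : Br n} (ha : Asym μ) (hj : Jac μ) (hs : Solv μ) :
    (Rc μ).trace ≤ 0 := by
  obtain ⟨k, s, hk, hs01, hW1, hW2⟩ := adapted_frame (DS μ 1)
  set ν := act k μ with hν
  have hνa : Asym ν := p_ASYMACT n k μ ha
  have htr : (Rc ν).trace = (Rc μ).trace := by rw [hν, Rc_act hk, tr_conjO hk]
  rw [← htr]
  have h3 : ∀ i j m, ν i j m ≠ 0 → s m = 1 := by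
    intro i j m hne
    rw [hν, act_basis] at hne
    exact hW1 _ (Solv_one_mem _ _) m hne
  have hK : ∀ i, s i = 1 → Kf ν i i = 0 := by
    intro i hi
    rw [Kf_eq, hν, adm_act, IsO.inv hk, conjO_mul hk, tr_conjO hk]
    exact kf_zero ha hj hs (hW2 i hi)
  have hMtr : (Mm ν).trace = -(1/4) * ∑ i, ∑ j, ∑ m, (ν i j m)^2 := by
    have h := p_MTR n ν (fun _ => 1) hνa
    have e1 : (Mm ν).trace = ∑ i, (1:ℝ) * Mm ν i i := by
      simp only [one_mul]; rfl
    rw [e1, h]
    simp only [Finset.mul_sum]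
    exact Finset.sum_congr rfl fun i _ => Finset.sum_congr rfl fun j _ =>
      Finset.sum_congr rfl fun m _ => by ring
  have hKtr : (Kf ν).trace = ∑ i, ∑ p, ∑ q, (1 - s i) * (ν i q p * ν i p q) := by
    show ∑ i, Kf ν i i = _
    refine Finset.sum_congr rfl fun i _ => ?_
    rcases hs01 i with h | h
    · rw [h]
      simp only [sub_zero, one_mul]
      rfl
    · rw [hK i h, h]
      simp
  have hH : 0 ≤ (sy (adm ν (Hv ν))).trace := by
    rw [tr_sy, tr_adm]
    exact Finset.sum_nonneg fun i _ => mul_self_nonneg _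
  have hsq : 2 * ∑ i, ∑ p, ∑ q, (1 - s i) * (s q * (ν i q p)^2) ≤ ∑ i, ∑ j, ∑ m, (ν i j m)^2 := by
    have e1 : ∑ i, ∑ p, ∑ q, (1 - s i) * (s q * (ν i q p)^2)
        = ∑ i, ∑ j, ∑ m, ((1 - s i) * s j) * (ν i j m)^2 := by
      refine Finset.sum_congr rfl fun i _ => ?_
      rw [Finset.sum_comm]
      exact Finset.sum_congr rfl fun j _ => Finset.sum_congr rfl fun m _ => by ring
    have e2 : ∑ i, ∑ j, ∑ m, ((1 - s i) * s j) * (ν i j m)^2
        = ∑ i, ∑ j, ∑ m, (s i * (1 - s j)) * (ν i j m)^2 := by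
      rw [Finset.sum_comm]
      refine Finset.sum_congr rfl fun i _ => Finset.sum_congr rfl fun j _ =>
        Finset.sum_congr rfl fun m _ => ?_
      rw [hνa j i m]
      ring
    rw [e1, two_mul]
    nth_rewrite 2 [e2]
    rw [← Finset.sum_add_distrib]
    refine Finset.sum_le_sum fun i _ => ?_
    rw [← Finset.sum_add_distrib]
    refine Finset.sum_le_sum fun j _ => ?_
    rw [← Finset.sum_add_distrib]
    refine Finset.sum_le_sum fun m _ => ?_
    have h0 := sq_nonneg (ν i j m)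
    rcases hs01 i with hi | hi <;> rcases hs01 j with hj' | hj' <;> rw [hi, hj'] <;> linarith
  have hcross : 0 ≤ ∑ i, ∑ p, ∑ q, (1 - s i) * (s q * (ν i q p)^2)
      + ∑ i, ∑ p, ∑ q, (1 - s i) * (ν i q p * ν i p q) := by
    have e0 : ∑ i, ∑ p, ∑ q, (1 - s i) * (s q * (ν i q p)^2)
        = (1/2) * ∑ i, ∑ p, ∑ q, (1 - s i) * (s q * (ν i q p)^2 + s p * (ν i p q)^2) := by
      rw [Finset.mul_sum]
      refine Finset.sum_congr rfl fun i _ => ?_
      have e3 : ∑ p, ∑ q, (1 - s i) * (s q * (ν i q p)^2)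
          = ∑ p, ∑ q, (1 - s i) * (s p * (ν i p q)^2) := by rw [Finset.sum_comm]
      have e4 : ∑ p, ∑ q, (1 - s i) * (s q * (ν i q p)^2 + s p * (ν i p q)^2)
          = ∑ p, ∑ q, (1 - s i) * (s q * (ν i q p)^2)
            + ∑ p, ∑ q, (1 - s i) * (s p * (ν i p q)^2) := by
        simp only [mul_add, Finset.sum_add_distrib]
      rw [e4, ← e3]
      ring
    rw [e0, Finset.mul_sum, ← Finset.sum_add_distrib]
    refine Finset.sum_nonneg fun i _ => ?_
    rw [Finset.mul_sum, ← Finset.sum_add_distrib]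
    refine Finset.sum_nonneg fun p _ => ?_
    rw [Finset.mul_sum, ← Finset.sum_add_distrib]
    refine Finset.sum_nonneg fun q _ => ?_
    have e5 : 1 / 2 * ((1 - s i) * (s q * ν i q p ^ 2 + s p * ν i p q ^ 2))
        + (1 - s i) * (ν i q p * ν i p q)
        = (1/2) * ((1 - s i) * (s q * (ν i q p)^2 + s p * (ν i p q)^2 + 2 * (ν i q p * ν i p q))) := by
      ring
    rw [e5]
    have hsi : 0 ≤ 1 - s i := by rcases hs01 i with h | h <;> rw [h] <;> norm_num
    apply mul_nonneg (by norm_num)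
    apply mul_nonneg hsi
    have hsp : 0 ≤ s p := by rcases hs01 p with h | h <;> rw [h] <;> norm_num
    have hsq' : 0 ≤ s q := by rcases hs01 q with h | h <;> rw [h] <;> norm_num
    by_cases h1 : ν i q p = 0
    · rw [h1]
      have := mul_nonneg hsp (sq_nonneg (ν i p q))
      linarith
    · by_cases h2 : ν i p q = 0
      · rw [h2]
        have := mul_nonneg hsq' (sq_nonneg (ν i q p))
        linarith
      · rw [h3 _ _ _ h1, h3 _ _ _ h2]
        have := sq_nonneg (ν i q p + ν i p q)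
        nlinarith
  rw [Rc, Matrix.trace_sub, Matrix.trace_sub, Matrix.trace_smul, smul_eq_mul, hMtr, hKtr]
  linarith

end Pool.Agent.H787.SP
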